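import Pool.Agent.Helper62.NE.RowRound
import Pool.Agent.Helper95.TS.RowRw

/-!
# The row lemma with the constant `94` for `Helper95.TS.Rw`
-/

set_option autoImplicit false

namespace Pool.Agent.Helper62.NE

theorem Rw_eq95 (v1 v2 v3 : ℝ) : Helper95.TS.Rw v1 v2 v3 = Rw v1 v2 v3 := by
  unfold Helper95.TS.Rw Rw pR Helper95.TS.ownv own
  ring

theorem Rw_round94 {v1 v2 v3 : ℝ} (h1 : v1 ≤ 20) (h2 : v2 ≤ 20) (h3 : v3 ≤ 20)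
    (hs : v1 + v2 + v3 ≤ 20) : ∃ c : Fin 3 → ℝ, ∀ t : ℝ, 0 ≤ t → t < 1 →
      Helper95.TS.Rw v1 v2 v3 ≤ Helper95.TS.Rw ⌊v1 + t⌋ ((⌊v1 + v2 + t⌋ : ℝ) - ⌊v1 + t⌋)
          ((⌊v1 + v2 + v3 + t⌋ : ℝ) - ⌊v1 + v2 + t⌋) + 94
        + c 0 * ((⌊v1 + t⌋ : ℝ) - v1) + c 1 * ((⌊v1 + v2 + t⌋ : ℝ) - (v1 + v2))
        + c 2 * ((⌊v1 + v2 + v3 + t⌋ : ℝ) - (v1 + v2 + v3)) := by
  simp only [Rw_eq95]
  exact row_round h1 h2 h3 hs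

end Pool.Agent.Helper62.NE
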