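import Pool.Agent.Helper62.NE.RowRw94

/-!
# A row block with tables: from the grid to real configurations

`F` any function of three entries which can be rounded with one threshold for the partial sums with the loss `K`
(`RowRd`); six tables, on the entries, on the two sums of neighbours and on the sum.
-/

set_option autoImplicit false

namespace Pool.Agent.Helper62.NE

open Pool.Agent.Helper95.TS

/-- `F` loses at most `K` when the partial sums are rounded with one threshold, up to a linear function -/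
def RowRd (F : ℝ → ℝ → ℝ → ℝ) (K v1 v2 v3 : ℝ) : Prop :=
  ∃ c : Fin 3 → ℝ, ∀ t : ℝ, 0 ≤ t → t < 1 →
    F v1 v2 v3 ≤ F ⌊v1 + t⌋ ((⌊v1 + v2 + t⌋ : ℝ) - ⌊v1 + t⌋)
        ((⌊v1 + v2 + v3 + t⌋ : ℝ) - ⌊v1 + v2 + t⌋) + K
      + c 0 * ((⌊v1 + t⌋ : ℝ) - v1) + c 1 * ((⌊v1 + v2 + t⌋ : ℝ) - (v1 + v2))
      + c 2 * ((⌊v1 + v2 + v3 + t⌋ : ℝ) - (v1 + v2 + v3))

theorem rowRd_Rw {v1 v2 v3 : ℝ} (h1 : v1 ≤ 20) (h2 : v2 ≤ 20) (h3 : v3 ≤ 20)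
    (hs : v1 + v2 + v3 ≤ 20) : RowRd Helper95.TS.Rw 94 v1 v2 v3 :=
  Rw_round94 h1 h2 h3 hs

/-- the box `l ≤ x ≤ h` of a real number holds for its neighbours -/
theorem near_box {x : ℝ} {m l h : ℤ} (k : Near x m) (h1 : (l : ℝ) ≤ x) (h2 : x ≤ h) :
    l ≤ m ∧ m ≤ h := ⟨k.ge_of_ge h1, k.le_of_le h2⟩

/-- **The row block.** -/
theorem row_real {F : ℝ → ℝ → ℝ → ℝ} {K v1 v2 v3 : ℝ} (hF : RowRd F K v1 v2 v3)
    (φ1 φ2 φ3 φ12 φ23 ψ : ℤ → ℝ) {M : ℝ}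
    (H : ∀ a b c : ℤ, Near v1 a → Near v2 b → Near v3 c → Near (v1 + v2) (a + b) →
      Near (v2 + v3) (b + c) → Near (v1 + v2 + v3) (a + b + c) →
      F a b c + (φ1 a + φ2 b + φ3 c + φ12 (a + b) + φ23 (b + c) + ψ (a + b + c)) ≤ M) :
    F v1 v2 v3 + (interp φ1 v1 + interp φ2 v2 + interp φ3 v3 + interp φ12 (v1 + v2)
      + interp φ23 (v2 + v3) + interp ψ (v1 + v2 + v3)) ≤ M + K := by
  obtain ⟨c, hc⟩ := hF
  obtain ⟨s1, hs1⟩ : ∃ s, s = φ1 (⌊v1⌋ + 1) - φ1 ⌊v1⌋ := ⟨_, rfl⟩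
  obtain ⟨s2, hs2⟩ : ∃ s, s = φ2 (⌊v2⌋ + 1) - φ2 ⌊v2⌋ := ⟨_, rfl⟩
  obtain ⟨s3, hs3⟩ : ∃ s, s = φ3 (⌊v3⌋ + 1) - φ3 ⌊v3⌋ := ⟨_, rfl⟩
  obtain ⟨s4, hs4⟩ : ∃ s, s = φ12 (⌊v1 + v2⌋ + 1) - φ12 ⌊v1 + v2⌋ := ⟨_, rfl⟩
  obtain ⟨s5, hs5⟩ : ∃ s, s = φ23 (⌊v2 + v3⌋ + 1) - φ23 ⌊v2 + v3⌋ := ⟨_, rfl⟩
  obtain ⟨s6, hs6⟩ : ∃ s, s = ψ (⌊v1 + v2 + v3⌋ + 1) - ψ ⌊v1 + v2 + v3⌋ := ⟨_, rfl⟩
  obtain ⟨t, t0, t1, ht⟩ := exists_theta (Finset.univ : Finset (Fin 3))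
    ![-c 0 + s1 - s2 - s5, -c 1 + s2 - s3 + s4, -c 2 + s3 + s5 + s6]
    ![v1, v1 + v2, v1 + v2 + v3]
  simp only [Fin.sum_univ_three, Matrix.cons_val_zero, Matrix.cons_val_one, Matrix.cons_val] at ht
  have n1 : Near v1 ⌊v1 + t⌋ := near_floor_t t0 t1 v1
  have n2 : Near v2 (⌊v1 + v2 + t⌋ - ⌊v1 + t⌋) := by
    have := near_floor_sub (v1 + t) v2
    rwa [show v1 + t + v2 = v1 + v2 + t by ring] at this
  have n3 : Near v3 (⌊v1 + v2 + v3 + t⌋ - ⌊v1 + v2 + t⌋) := by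
    have := near_floor_sub (v1 + v2 + t) v3
    rwa [show v1 + v2 + t + v3 = v1 + v2 + v3 + t by ring] at this
  have n4 : Near (v1 + v2) ⌊v1 + v2 + t⌋ := near_floor_t t0 t1 (v1 + v2)
  have n5 : Near (v2 + v3) (⌊v1 + v2 + v3 + t⌋ - ⌊v1 + t⌋) := by
    have := near_floor_sub (v1 + t) (v2 + v3)
    rwa [show v1 + t + (v2 + v3) = v1 + v2 + v3 + t by ring] at this
  have n6 : Near (v1 + v2 + v3) ⌊v1 + v2 + v3 + t⌋ := near_floor_t t0 t1 _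
  have hg := hc t t0 t1
  generalize hp : ⌊v1 + t⌋ = p at *
  generalize hq : ⌊v1 + v2 + t⌋ = q at *
  generalize hr : ⌊v1 + v2 + v3 + t⌋ = r at *
  have e4 : p + (q - p) = q := by ring
  have e5 : (q - p) + (r - q) = r - p := by ring
  have e6 : p + (q - p) + (r - q) = r := by ring
  have h := H p (q - p) (r - q) n1 n2 n3 (by rwa [e4]) (by rwa [e5]) (by rwa [e6])
  rw [e5, e6, e4] at h
  have i1 := interp_near φ1 n1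
  have i2 := interp_near φ2 n2
  have i3 := interp_near φ3 n3
  have i4 := interp_near φ12 n4
  have i5 := interp_near φ23 n5
  have i6 := interp_near ψ n6
  rw [← hs1] at i1
  rw [← hs2] at i2
  rw [← hs3] at i3
  rw [← hs4] at i4
  rw [← hs5] at i5
  rw [← hs6] at i6
  rw [i1, i2, i3, i4, i5, i6] at h
  push_cast at h
  linarith

end Pool.Agent.Helper62.NE
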