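import Pool.Agent.Helper62.NE.Feat

/-!
# `TwoLowNE`: the price tables of a leaf

`fl : List (ℕ × ℕ)` the function relations with their packed tables (61 digits of 24 bits, index `n + 20`),
`ll : List (ℕ × ℕ)` the linear relations with their multipliers. `tab fl ll s μ n` is the price on the slot `s`
(`μ`: the cell of the slot is capped), `ev fl ll s μ i` its value at `n = i - 20` plus `2 ^ 22` in `ℕ`.
-/

set_option autoImplicit false

namespace Pool.Agent.Helper62.NE

open Pool.Agent.Helper90.TS Pool.Agent.Helper95.TS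

/-- table look-up: digits of 24 bits -/
def lk (p i : ℕ) : ℕ := Nat.land (Nat.shiftRight p (Nat.mul 24 i)) 16777215

/-- the index of a code: `0`: `i`; `1`: `40` (the value `20`); `C`: `C - i`, in `0 .. 60` -/
def ix (C i : ℕ) : ℕ :=
  Nat.rec (motive := fun _ => ℕ) i (fun c _ => Nat.rec (motive := fun _ => ℕ) 40
    (fun _ _ => Nat.sub (Nat.sub C (Nat.sub C 60)) (Nat.sub i (Nat.sub C 60))) c) C

/-- the code on integers -/
def cz (C : ℕ) (n : ℤ) : ℤ := if C = 0 then n else if C = 1 then 20 else (C : ℤ) - 40 - n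

/-- the table as a function on the integers, constant outside `-20 .. 40` -/
noncomputable def Pt (p : ℕ) (n : ℤ) : ℝ := (lk p (min 60 (n + 20).toNat) : ℝ)

/-- the digits `0 .. 60` are nondecreasing -/
def mono (p : ℕ) : Bool :=
  Nat.rec (motive := fun _ => Bool) true (fun n ih => Nat.ble (lk p n) (lk p (Nat.succ n)) && ih) 60

/-- the positive contributions to a slot: codes and tables -/
def cpos (s : ℕ) (μ : Bool) (fl : List (ℕ × ℕ)) : List (ℕ × ℕ) :=
  List.rec (motive := fun _ => List (ℕ × ℕ)) []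
    (fun t _ ih => bif Nat.beq (fr t.1).hs s then (hcode μ t.1, t.2) :: ih else ih) fl

/-- the negative contributions to a slot -/
def cneg (s : ℕ) (fl : List (ℕ × ℕ)) : List (ℕ × ℕ) :=
  List.rec (motive := fun _ => List (ℕ × ℕ)) []
    (fun t _ ih => bif Nat.beq (fr t.1).ls s then ((fr t.1).lc, t.2) :: ih else ih) fl

/-- the sum of the contributions at the index `i` -/
def sc (l : List (ℕ × ℕ)) (i : ℕ) : ℕ :=
  List.rec (motive := fun _ => ℕ) 0 (fun t _ ih => Nat.add (lk t.2 (ix t.1 i)) ih) l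

/-- the sum of the positive coefficients of a slot in a linear relation -/
def ca (s : ℕ) (l : List (ℕ × ℕ × ℕ)) : ℕ :=
  List.rec (motive := fun _ => ℕ) 0 (fun t _ ih => bif Nat.beq t.1 s then Nat.add t.2.1 ih else ih) l

/-- the sum of the negative coefficients of a slot in a linear relation -/
def cb (s : ℕ) (l : List (ℕ × ℕ × ℕ)) : ℕ :=
  List.rec (motive := fun _ => ℕ) 0 (fun t _ ih => bif Nat.beq t.1 s then Nat.add t.2.2 ih else ih) l

/-- the positive slope of a slot -/
def sa (s : ℕ) (ll : List (ℕ × ℕ)) : ℕ :=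
  List.rec (motive := fun _ => ℕ) 0 (fun t _ ih => Nat.add (Nat.mul t.2 (ca s (lr t.1).1)) ih) ll

/-- the negative slope of a slot -/
def sb (s : ℕ) (ll : List (ℕ × ℕ)) : ℕ :=
  List.rec (motive := fun _ => ℕ) 0 (fun t _ ih => Nat.add (Nat.mul t.2 (cb s (lr t.1).1)) ih) ll

/-- the positive constants -/
def ka (ll : List (ℕ × ℕ)) : ℕ :=
  List.rec (motive := fun _ => ℕ) 0 (fun t _ ih => Nat.add (Nat.mul t.2 (lr t.1).2.1) ih) ll

/-- the negative constants -/
def kb (ll : List (ℕ × ℕ)) : ℕ :=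
  List.rec (motive := fun _ => ℕ) 0 (fun t _ ih => Nat.add (Nat.mul t.2 (lr t.1).2.2) ih) ll

/-- the value `2 ^ 22 + price` at the index `i`, or more -/
def ev (A B : ℕ) (p q : List (ℕ × ℕ)) (i : ℕ) : ℕ :=
  Nat.sub (Nat.add (Nat.add 4194304 (sc p i)) (Nat.add (Nat.mul A i) (Nat.mul 20 B)))
    (Nat.add (sc q i) (Nat.add (Nat.mul B i) (Nat.mul 20 A)))

/-- the list of the 61 values `ev` of a slot -/
def tl (fl ll : List (ℕ × ℕ)) (s : ℕ) (μ : Bool) : List ℕ :=
  Nat.rec (motive := fun _ => List ℕ) []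
    (fun n ih => ev (sa s ll) (sb s ll) (cpos s μ fl) (cneg s fl) (Nat.sub 60 n) :: ih) 61

/-- **the price on the slot `s`** -/
noncomputable def tab (fl ll : List (ℕ × ℕ)) (s : ℕ) (μ : Bool) (n : ℤ) : ℝ :=
  ((cpos s μ fl).map fun t => Pt t.2 (cz t.1 n)).sum - ((cneg s fl).map fun t => Pt t.2 (cz t.1 n)).sum
    + ((sa s ll : ℝ) - sb s ll) * n

/-- the table of a list of 61 values -/
noncomputable def ltab (l : List ℕ) (n : ℤ) : ℝ := ((nth 0 l (n + 20).toNat : ℕ) : ℝ) - 4194304

end Pool.Agent.Helper62.NE
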