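import Pool.Agent.Helper62.NE.RowReal
import Pool.Agent.Helper62.NE.Price
import Pool.Agent.Helper51.NE.Pack

/-!
# The check of a row block

States: indices `i1 + i2 + i3 = 80 - e`, `n = i - 20` the entries, `e` in `0 .. 10`. For fixed `e` and `i1` one comparison
of planes (digits of 32 bits, `81` digits).
-/

set_option autoImplicit false

namespace Pool.Agent.Helper62.NE

open Pool.Agent.Helper95.TS Pool.Agent.Helper51.NE

/-! ### Evaluation helpers -/

/-- evaluation of the argument -/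
def frc {α : Type} (f : ℕ → α) (n : ℕ) : α :=
  Nat.rec (motive := fun _ => α) (f 0) (fun m _ => f (Nat.succ m)) n

theorem frc_eq {α : Type} (f : ℕ → α) (n : ℕ) : frc f n = f n := by
  cases n <;> rfl

/-- conjunction over `n < N` -/
def scan (f : ℕ → Bool) (N : ℕ) : Bool :=
  Nat.rec (motive := fun _ => Bool) true (fun n ih => Bool.rec false ih (f n)) N

theorem scan_true {f : ℕ → Bool} {N : ℕ} (h : scan f N = true) : ∀ n, n < N → f n = true := by
  induction N with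
  | zero => intro n hn; omega
  | succ N ih =>
    have h' : (Bool.rec false (scan f N) (f N) : Bool) = true := h
    cases hf : f N
    · rw [hf] at h'
      exact absurd h' (by simp)
    · rw [hf] at h'
      intro n hn
      rcases Nat.lt_succ_iff_lt_or_eq.1 hn with k | k
      · exact ih h' n k
      · rw [k]
        exact hf

/-- all entries are smaller than `2 ^ 23` -/
def small (l : List ℕ) : Bool :=
  List.rec (motive := fun _ => Bool) true (fun a _ ih => Bool.rec false ih (Nat.ble a 8388607)) l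

/-- a list packed with digits of 24 bits -/
def pkl (l : List ℕ) : ℕ :=
  List.rec (motive := fun _ => ℕ) 0 (fun a _ ih => Nat.add a (Nat.mul 16777216 ih)) l

theorem lk_eq (p i : ℕ) : lk p i = p / 2 ^ (24 * i) % 2 ^ 24 := by
  have h : lk p i = (p >>> (24 * i)) &&& (2 ^ 24 - 1) := rfl
  rw [h, Nat.and_two_pow_sub_one_eq_mod, Nat.shiftRight_eq_div_pow]

theorem lk_lt (p i : ℕ) : lk p i < 16777216 := by
  rw [lk_eq]
  exact Nat.mod_lt _ (by norm_num)

theorem lk_pkl : ∀ {l : List ℕ}, small l = true → ∀ i, lk (pkl l) i = nth 0 l i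
  | [], _, i => by
    rw [lk_eq, nth_nil]
    show 0 / 2 ^ (24 * i) % 2 ^ 24 = 0
    simp
  | a :: l, h, i => by
    have h' : (Bool.rec false (small l) (Nat.ble a 8388607) : Bool) = true := h
    cases hf : Nat.ble a 8388607
    · rw [hf] at h'
      exact absurd h' (by simp)
    rw [hf] at h'
    have ha : a ≤ 8388607 := Nat.le_of_ble_eq_true hf
    have e : pkl (a :: l) = Nat.add a (Nat.mul 16777216 (pkl l)) := rfl
    have e' : pkl (a :: l) = a + 2 ^ 24 * pkl l := e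
    rw [lk_eq, e']
    cases i with
    | zero =>
      rw [nth_zero, mul_zero, pow_zero, Nat.div_one, Nat.add_mul_mod_self_left,
        Nat.mod_eq_of_lt (by omega)]
    | succ i =>
      have h0 : a / 2 ^ 24 = 0 := Nat.div_eq_of_lt (by omega)
      rw [nth_succ, ← lk_pkl h' i, lk_eq, show 24 * (i + 1) = 24 + 24 * i by ring, pow_add,
        ← Nat.div_div_eq_div_mul, Nat.add_mul_div_left _ _ (by norm_num), h0, zero_add]

/-- a plane of 32 bit digits -/
def mk (f : ℕ → ℕ) (N : ℕ) : ℕ :=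
  Nat.rec (motive := fun _ => ℕ) 0 (fun n ih => Nat.add ih (Nat.shiftLeft (f n) (Nat.mul 32 n))) N

theorem mk_eq (f : ℕ → ℕ) (N : ℕ) : mk f N = pk 32 N f := by
  induction N with
  | zero => exact (pk_zero 32 f).symm
  | succ N ih =>
    rw [pk_succ, ← ih, ← Nat.shiftLeft_eq]
    rfl

/-- the bounds `l ≤ i ≤ h` -/
def inb (l h i : ℕ) : Bool := Bool.rec false (Nat.ble i h) (Nat.ble l i)

theorem inb_true {l h i : ℕ} (h1 : l ≤ i) (h2 : i ≤ h) : inb l h i = true := by
  unfold inb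
  rw [Nat.ble_eq_true_of_le h1, Nat.ble_eq_true_of_le h2]

/-! ### Shifts of planes -/

theorem pk_split (k s r : ℕ) (f : ℕ → ℕ) :
    pk k (s + r) f = pk k s f + 2 ^ (k * s) * pk k r (fun n => f (s + n)) := by
  unfold pk
  rw [Finset.sum_range_add, Finset.mul_sum]
  congr 1
  refine Finset.sum_congr rfl fun n _ => ?_
  rw [mul_add, pow_add]
  ring

theorem pk_ext {k N : ℕ} (r : ℕ) {f : ℕ → ℕ} (h : ∀ n, N ≤ n → n < N + r → f n = 0) :
    pk k (N + r) f = pk k N f := by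
  rw [pk_split]
  have : pk k r (fun n => f (N + n)) = 0 := by
    unfold pk
    refine Finset.sum_eq_zero fun n hn => ?_
    show f (N + n) * 2 ^ (k * n) = 0
    rw [h (N + n) (by omega) (by have := Finset.mem_range.1 hn; omega), zero_mul]
  rw [this, mul_zero, add_zero]

theorem pk_shr {k N s : ℕ} {f : ℕ → ℕ} (hs : s ≤ N) (hf : ∀ n, n < N → f n < 2 ^ k)
    (h0 : ∀ n, N ≤ n → f n = 0) :
    Nat.shiftRight (pk k N f) (k * s) = pk k N (fun n => f (n + s)) := by
  obtain ⟨r, rfl⟩ : ∃ r, N = s + r := ⟨N - s, by omega⟩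
  have h1 : Nat.shiftRight (pk k (s + r) f) (k * s) = pk k (s + r) f / 2 ^ (k * s) :=
    Nat.shiftRight_eq_div_pow _ _
  rw [h1, pk_split, Nat.add_mul_div_left _ _ (by positivity),
    Nat.div_eq_of_lt (pk_lt fun n hn => hf n (by omega)), zero_add, add_comm s r]
  rw [pk_ext s (f := fun n => f (n + s)) fun n h1 h2 => h0 _ (by omega)]
  exact pk_congr fun n _ => by rw [add_comm]

/-! ### The check -/

/-- the own cells, digits of 24 bits -/
def OWN : ℕ := 0x52b000b58001299001b0000249f002f88003bcd0049800058b3006978007be100900000a5e700ae7300b84f00c39300d05700deb300eebf010093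

/-- the plane of ones -/
def ON : ℕ := 0x10000000100000001000000010000000100000001000000010000000100000001000000010000000100000001000000010000000100000001000000010000000100000001000000010000000100000001000000010000000100000001000000010000000100000001000000010000000100000001000000010000000100000001000000010000000100000001000000010000000100000001000000010000000100000001000000010000000100000001000000010000000100000001000000010000000100000001000000010000000100000001000000010000000100000001000000010000000100000001000000010000000100000001000000010000000100000001000000010000000100000001000000010000000100000001000000010000000100000001000000010000000100000001000000010000000100000001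

theorem ON_eq : ON = ones 32 81 := by decide +kernel

/-- the own cells as a polynomial -/
theorem own_lk : ∀ i, i < 61 → lk OWN i + min (20 - i) 13 ^ 3 =
    4 * (20 - i) ^ 3 + 1200 * min (20 - i) 13 + 120 * min (20 - i) 13 ^ 2 := by decide +kernel

/-- the outer entries -/
def fa (e p q i : ℕ) : ℕ :=
  Nat.add (Nat.add (lk OWN i) (lk p i)) (Nat.add (lk q (Nat.sub (Nat.sub 60 e) i))
    (Nat.mul (Nat.mul 3 (Nat.sub 40 e)) (Nat.mul i (Nat.sub 40 i))))

/-- the middle entry -/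
def fb (e p i : ℕ) : ℕ :=
  Nat.add (Nat.add (lk OWN i) (lk p i))
    (Nat.mul (Nat.mul 3 (Nat.sub 40 e)) (Nat.mul i (Nat.sub 40 i)))

/-- the plane of the middle entry -/
def plB (e l h p : ℕ) (i : ℕ) : ℕ := Bool.rec 0 (fb e p i) (inb l h i)

/-- the plane of the last entry, in the order of the sum of the two first -/
def plR (e l h ll hh p q : ℕ) (j : ℕ) : ℕ :=
  Bool.rec 0 (Bool.rec 0 (Bool.rec 0 (fa e p q (Nat.sub (Nat.sub 80 e) j))
    (inb l h (Nat.sub (Nat.sub 80 e) j)))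
    (inb ll hh (Nat.sub (Nat.sub 60 e) (Nat.sub (Nat.sub 80 e) j)))) (Nat.ble j (Nat.sub 80 e))

/-- the check for one `e`, `s` the entry of the sum -/
def rowE (M l1 h1 l2 h2 l3 h3 l12 h12 l23 h23 p1 p2 p3 p12 p23 s e : ℕ) : Bool :=
  frc (fun B => frc (fun R => frc (fun G => frc (fun T => frc (fun a =>
    scan (fun i => Bool.rec true (Bool.rec true
      (leb T (Nat.add (Nat.add B (Nat.shiftRight R (Nat.mul 32 i)))
        (Nat.mul (Nat.add a (fa e p1 p23 i)) ON)) G)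
      (inb l23 h23 (Nat.sub (Nat.sub 60 e) i))) (inb l1 h1 i)) 41)
    (Nat.add s (Nat.mul 120 (Nat.mul e e))))
    (Nat.mul 2147483648 ON))
    (Nat.mul (Nat.add (Nat.add (Nat.add M 21003520) (Nat.mul 2400 e)) (Nat.mul e (Nat.mul e e))) ON))
    (mk (plR e l3 h3 l12 h12 p3 p12) 81))
    (mk (plB e l2 h2 p2) 41)

/-- minimum -/
def mn (a b : ℕ) : ℕ := Bool.rec b a (Nat.ble a b)

theorem le_mn {i a b : ℕ} (h1 : i ≤ a) (h2 : i ≤ b) : i ≤ mn a b := by
  unfold mn
  cases Nat.ble a b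
  · exact h2
  · exact h1

theorem mn_le (a b : ℕ) : mn a b ≤ a := by
  unfold mn
  cases h : Nat.ble a b
  · show b ≤ a
    by_contra hc
    rw [Nat.ble_eq_true_of_le (by omega)] at h
    exact absurd h (by decide)
  · exact le_refl a

/-- **The check of a row block.** -/
def rowOK (M l1 h1 l2 h2 l3 h3 l12 h12 l23 h23 lS hS : ℕ) (t1 t2 t3 t12 t23 tS : List ℕ) : Bool :=
  small t1 && small t2 && small t3 && small t12 && small t23 && small tS && Nat.ble M 1073741823 &&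
  Nat.ble h1 40 && Nat.ble h2 40 && Nat.ble h3 40 && Nat.ble 30 lS && Nat.ble hS 40 &&
  frc (fun p1 => frc (fun p2 => frc (fun p3 => frc (fun p12 => frc (fun p23 => frc (fun pS =>
    scan (fun e => Bool.rec true
      (rowE M l1 (mn h1 (Nat.div (Nat.sub 81 e) 2)) l2 (mn h2 (Nat.div (Nat.sub 82 e) 2)) l3
        (mn h3 (Nat.div (Nat.sub 81 e) 2)) l12 h12 l23 h23 p1 p2 p3 p12 p23 (lk pS (Nat.sub 40 e)) e)
      (inb lS hS (Nat.sub 40 e))) 11)
    (pkl tS)) (pkl t23)) (pkl t12)) (pkl t3)) (pkl t2)) (pkl t1)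

/-! ### Soundness -/

theorem fa_lt {e p q i : ℕ} (he : e ≤ 10) : fa e p q i < 67108864 := by
  have h1 := lk_lt OWN i
  have h2 := lk_lt p i
  have h3 := lk_lt q (60 - e - i)
  have h4 : (3 * (40 - e)) * (i * (40 - i)) ≤ 120 * 400 := by
    refine Nat.mul_le_mul (by omega) ?_
    rcases le_total i 40 with h | h
    · obtain ⟨j, hj⟩ : ∃ j, 40 = i + j := ⟨40 - i, by omega⟩
      have e1 : 40 - i = j := by omega
      rw [e1]
      have e2 : i = 40 - j := by omega
      have hj2 : j ≤ 40 := by omega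
      clear * - hj
      have : (i : ℤ) + j = 40 := by omega
      have h2 : (i : ℤ) * j ≤ 400 := by nlinarith [sq_nonneg ((i : ℤ) - j)]
      exact_mod_cast h2
    · rw [Nat.sub_eq_zero_of_le h]
      omega
  show lk OWN i + lk p i + (lk q (60 - e - i) + 3 * (40 - e) * (i * (40 - i))) < 67108864
  omega

theorem fb_lt {e p i : ℕ} (he : e ≤ 10) : fb e p i < 67108864 := by
  have h := fa_lt (e := e) (p := p) (q := 0) (i := i) he
  have e1 : fa e p 0 i = lk OWN i + lk p i + (lk 0 (60 - e - i) + 3 * (40 - e) * (i * (40 - i))) :=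
    rfl
  have e2 : fb e p i = lk OWN i + lk p i + 3 * (40 - e) * (i * (40 - i)) := rfl
  omega

theorem plB_lt {e l h p : ℕ} (he : e ≤ 10) (i : ℕ) : plB e l h p i < 67108864 := by
  unfold plB
  cases inb l h i
  · exact Nat.lt_of_lt_of_le Nat.zero_lt_one (by norm_num)
  · exact fb_lt he

theorem plR_lt {e l h ll hh p q : ℕ} (he : e ≤ 10) (j : ℕ) : plR e l h ll hh p q j < 67108864 := by
  unfold plR
  cases inb l h (Nat.sub (Nat.sub 80 e) j) <;>
    cases inb ll hh (Nat.sub (Nat.sub 60 e) (Nat.sub (Nat.sub 80 e) j)) <;>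
      cases Nat.ble j (Nat.sub 80 e)
  all_goals first | exact fa_lt he | exact Nat.lt_of_lt_of_le Nat.zero_lt_one (by norm_num)

theorem inb_false_of_lt {l h i : ℕ} (hi : h < i) : inb l h i = false := by
  unfold inb
  have : Nat.ble i h = false := by
    rw [Bool.eq_false_iff]
    intro hc
    have := Nat.le_of_ble_eq_true hc
    omega
  rw [this]
  cases Nat.ble l i <;> rfl

theorem rowE_sound {M l1 h1 l2 h2 l3 h3 l12 h12 l23 h23 p1 p2 p3 p12 p23 s e : ℕ}
    (h : rowE M l1 h1 l2 h2 l3 h3 l12 h12 l23 h23 p1 p2 p3 p12 p23 s e = true) (he : e ≤ 10)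
    (hM : M ≤ 1073741823) (hs : s < 16777216) (k1 : h1 ≤ 40) (k2 : h2 ≤ 40) {i1 i2 i3 : ℕ}
    (hi : i1 + i2 + i3 + e = 80) (a1 : l1 ≤ i1) (a2 : i1 ≤ h1) (b1 : l2 ≤ i2) (b2 : i2 ≤ h2)
    (c1 : l3 ≤ i3) (c2 : i3 ≤ h3) (d1 : l12 ≤ 60 - e - i3) (d2 : 60 - e - i3 ≤ h12)
    (f1 : l23 ≤ 60 - e - i1) (f2 : 60 - e - i1 ≤ h23) :
    fa e p1 p23 i1 + fb e p2 i2 + fa e p3 p12 i3 + (s + 120 * (e * e)) ≤
      M + 21003520 + 2400 * e + e * (e * e) := by
  unfold rowE at h
  simp only [frc_eq] at h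
  have h' := scan_true h i1 (by omega)
  beta_reduce at h'
  rw [inb_true a1 a2, show Nat.sub (Nat.sub 60 e) i1 = 60 - e - i1 from rfl, inb_true f1 f2] at h'
  dsimp only at h'
  have hee : e * e ≤ 100 := by nlinarith
  have heee : e * (e * e) ≤ 1000 := by nlinarith
  have hB : mk (plB e l2 h2 p2) 41 = pk 32 81 (plB e l2 h2 p2) := by
    rw [mk_eq]
    exact (pk_ext 40 fun n n1 _ => by
      unfold plB
      rw [inb_false_of_lt (by omega)]).symm
  have hR : Nat.shiftRight (mk (plR e l3 h3 l12 h12 p3 p12) 81) (Nat.mul 32 i1) =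
      pk 32 81 (fun n => bif Nat.ble 81 (n + i1) then 0 else plR e l3 h3 l12 h12 p3 p12 (n + i1)) := by
    rw [mk_eq]
    have e0 : pk 32 81 (plR e l3 h3 l12 h12 p3 p12) =
        pk 32 81 (fun n => bif Nat.ble 81 n then 0 else plR e l3 h3 l12 h12 p3 p12 n) :=
      pk_congr fun n hn => by
        have : Nat.ble 81 n = false := by
          rw [Bool.eq_false_iff]
          intro hc
          have := Nat.le_of_ble_eq_true hc
          omega
        rw [this]
        rfl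
    rw [e0]
    refine pk_shr (k := 32) (by omega) (fun n _ => ?_) fun n hn => ?_
    · have := plR_lt (l := l3) (h := h3) (ll := l12) (hh := h12) (p := p3) (q := p12) he n
      cases Nat.ble 81 n
      · exact this.trans (by norm_num)
      · exact Nat.lt_of_lt_of_le Nat.zero_lt_one (by norm_num)
    · rw [Nat.ble_eq_true_of_le hn]
      rfl
  have hF : Nat.add (Nat.add (mk (plB e l2 h2 p2) 41)
        (Nat.shiftRight (mk (plR e l3 h3 l12 h12 p3 p12) 81) (Nat.mul 32 i1)))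
        (Nat.mul (Nat.add (Nat.add s (Nat.mul 120 (Nat.mul e e))) (fa e p1 p23 i1)) ON) =
      pk 32 81 (fun n => plB e l2 h2 p2 n
        + (bif Nat.ble 81 (n + i1) then 0 else plR e l3 h3 l12 h12 p3 p12 (n + i1))
        + (s + 120 * (e * e) + fa e p1 p23 i1)) := by
    rw [pk_add, pk_add, pk_const, hB, hR, ON_eq, ← pk_ones (by norm_num)]
    rfl
  have hG : Nat.mul (Nat.add (Nat.add (Nat.add M 21003520) (Nat.mul 2400 e))
        (Nat.mul e (Nat.mul e e))) ON =
      pk 32 81 (fun _ => M + 21003520 + 2400 * e + e * (e * e)) := by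
    rw [pk_const, ON_eq, ← pk_ones (by norm_num)]
    rfl
  have hT : Nat.mul 2147483648 ON = top 31 81 := by
    have h1 := top_eq 31 81
    rw [show 31 + 1 = 32 from rfl, show (2 : ℕ) ^ 31 = 2147483648 by norm_num] at h1
    rw [h1, ON_eq, Nat.mul_eq]
  have hfa := fa_lt (e := e) (p := p1) (q := p23) (i := i1) he
  have key := le_of_leb (k := 31) hT hF hG (fun n _ => by
      have q1 := plB_lt (l := l2) (h := h2) (p := p2) he n
      have q2 := plR_lt (l := l3) (h := h3) (ll := l12) (hh := h12) (p := p3) (q := p12) he (n + i1)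
      have q3 : (bif Nat.ble 81 (n + i1) then 0 else plR e l3 h3 l12 h12 p3 p12 (n + i1)) <
          67108864 := by
        cases Nat.ble 81 (n + i1)
        · exact q2
        · exact Nat.lt_of_lt_of_le Nat.zero_lt_one (by norm_num)
      norm_num
      omega) (fun n _ => by
      norm_num
      omega) h' i2 (by omega)
  have g1 : plB e l2 h2 p2 i2 = fb e p2 i2 := by
    unfold plB
    rw [inb_true b1 b2]
  have g0 : Nat.ble 81 (i2 + i1) = false := by
    rw [Bool.eq_false_iff]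
    intro hc
    have := Nat.le_of_ble_eq_true hc
    omega
  have g2 : plR e l3 h3 l12 h12 p3 p12 (i2 + i1) = fa e p3 p12 i3 := by
    unfold plR
    have e3 : Nat.sub (Nat.sub 80 e) (i2 + i1) = i3 := by
      show 80 - e - (i2 + i1) = i3
      omega
    have e4 : Nat.ble (i2 + i1) (Nat.sub 80 e) = true := Nat.ble_eq_true_of_le (by
      show i2 + i1 ≤ 80 - e
      omega)
    rw [e3, inb_true c1 c2, e4, show Nat.sub (Nat.sub 60 e) i3 = 60 - e - i3 from rfl,
      inb_true d1 d2]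
  simp only [g0, g1, g2, cond_false] at key
  omega

/-! ### Real numbers -/

theorem own_real {i : ℕ} (hi : i < 61) : ((lk OWN i : ℕ) : ℝ) = ownv ((i : ℝ) - 20) := by
  have h := own_lk i hi
  obtain ⟨t, ht⟩ : ∃ t, t = 20 - i := ⟨_, rfl⟩
  rw [← ht] at h
  have e : (t : ℝ) = max (-((i : ℝ) - 20)) 0 := by
    rcases le_total i 20 with k | k
    · have k' : (i : ℝ) ≤ 20 := by exact_mod_cast k
      rw [max_eq_left (by linarith)]
      have : t + i = 20 := by omega
      have h2 : (t : ℝ) + i = 20 := by exact_mod_cast this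
      linarith
    · have k' : (20 : ℝ) ≤ i := by exact_mod_cast k
      rw [max_eq_right (by linarith)]
      have : t = 0 := by omega
      rw [this]
      norm_num
  have h' : (lk OWN i : ℝ) + min (t : ℝ) 13 ^ 3 =
      4 * (t : ℝ) ^ 3 + 1200 * min (t : ℝ) 13 + 120 * min (t : ℝ) 13 ^ 2 := by
    exact_mod_cast h
  rw [ownv, ← e]
  linarith

theorem mul_real {e i : ℕ} (he : e ≤ 40) (hi : i ≤ 40) :
    ((3 * (40 - e) * (i * (40 - i)) : ℕ) : ℝ) = 3 * (40 - (e : ℝ)) * (400 - ((i : ℝ) - 20) ^ 2) := by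
  push_cast [Nat.cast_sub he, Nat.cast_sub hi]
  ring

theorem fa_real {e p q i : ℕ} (he : e ≤ 40) (hi : i ≤ 40) : ((fa e p q i : ℕ) : ℝ) =
    ownv ((i : ℝ) - 20) + ((lk p i : ℕ) : ℝ) + ((lk q (60 - e - i) : ℕ) : ℝ)
      + 3 * (40 - (e : ℝ)) * (400 - ((i : ℝ) - 20) ^ 2) := by
  have e1 : fa e p q i = lk OWN i + lk p i + (lk q (60 - e - i) + 3 * (40 - e) * (i * (40 - i))) :=
    rfl
  rw [e1, Nat.cast_add, Nat.cast_add, Nat.cast_add, mul_real he hi, own_real (by omega)]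
  ring

theorem fb_real {e p i : ℕ} (he : e ≤ 40) (hi : i ≤ 40) : ((fb e p i : ℕ) : ℝ) =
    ownv ((i : ℝ) - 20) + ((lk p i : ℕ) : ℝ)
      + 3 * (40 - (e : ℝ)) * (400 - ((i : ℝ) - 20) ^ 2) := by
  have e1 : fb e p i = lk OWN i + lk p i + 3 * (40 - e) * (i * (40 - i)) := rfl
  rw [e1, Nat.cast_add, Nat.cast_add, mul_real he hi, own_real (by omega)]

theorem ltab_eq (l : List ℕ) {n : ℤ} {i : ℕ} (h : n + 20 = (i : ℤ)) :
    ((nth 0 l i : ℕ) : ℝ) = ltab l n + 4194304 := by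
  unfold ltab
  rw [h, Int.toNat_natCast]
  ring

/-- **The check of a row block is sound.** -/
theorem rowOK_sound {M l1 h1 l2 h2 l3 h3 l12 h12 l23 h23 lS hS : ℕ} {t1 t2 t3 t12 t23 tS : List ℕ}
    (h : rowOK M l1 h1 l2 h2 l3 h3 l12 h12 l23 h23 lS hS t1 t2 t3 t12 t23 tS = true)
    {a b c : ℤ} (a1 : (l1 : ℤ) - 20 ≤ a) (a2 : a ≤ (h1 : ℤ) - 20) (b1 : (l2 : ℤ) - 20 ≤ b)
    (b2 : b ≤ (h2 : ℤ) - 20) (c1 : (l3 : ℤ) - 20 ≤ c) (c2 : c ≤ (h3 : ℤ) - 20)
    (d1 : (l12 : ℤ) - 20 ≤ a + b) (d2 : a + b ≤ (h12 : ℤ) - 20) (f1 : (l23 : ℤ) - 20 ≤ b + c)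
    (f2 : b + c ≤ (h23 : ℤ) - 20) (s1 : (lS : ℤ) - 20 ≤ a + b + c)
    (s2 : a + b + c ≤ (hS : ℤ) - 20) (n1 : a - (b + c) ≤ 21) (n2 : b - (a + c) ≤ 22)
    (n3 : c - (a + b) ≤ 21) :
    Helper95.TS.Rw a b c + (ltab t1 a + ltab t2 b + ltab t3 c + ltab t12 (a + b)
      + ltab t23 (b + c) + ltab tS (a + b + c)) ≤ (M : ℝ) - 4194304 := by
  unfold rowOK at h
  simp only [Bool.and_eq_true, frc_eq] at h
  obtain ⟨⟨⟨⟨⟨⟨⟨⟨⟨⟨⟨⟨g1, g2⟩, g3⟩, g4⟩, g5⟩, g6⟩, gM⟩, k1⟩, k2⟩, k3⟩, kl⟩, kh⟩, h⟩ := h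
  have gM := Nat.le_of_ble_eq_true gM
  have k1 := Nat.le_of_ble_eq_true k1
  have k2 := Nat.le_of_ble_eq_true k2
  have k3 := Nat.le_of_ble_eq_true k3
  have kl := Nat.le_of_ble_eq_true kl
  have kh := Nat.le_of_ble_eq_true kh
  obtain ⟨i1, e1⟩ : ∃ i : ℕ, a + 20 = i := ⟨(a + 20).toNat, by omega⟩
  obtain ⟨i2, e2⟩ : ∃ i : ℕ, b + 20 = i := ⟨(b + 20).toNat, by omega⟩
  obtain ⟨i3, e3⟩ : ∃ i : ℕ, c + 20 = i := ⟨(c + 20).toNat, by omega⟩
  obtain ⟨e, e4⟩ : ∃ e : ℕ, a + b + c = 20 - e := ⟨(20 - (a + b + c)).toNat, by omega⟩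
  have he : e ≤ 10 := by omega
  have h' := scan_true h e (by omega)
  beta_reduce at h'
  rw [show Nat.sub 40 e = 40 - e from rfl, inb_true (by omega) (by omega)] at h'
  have m1 : i1 ≤ (81 - e) / 2 := by omega
  have m2 : i2 ≤ (82 - e) / 2 := by omega
  have m3 : i3 ≤ (81 - e) / 2 := by omega
  have key := rowE_sound h' he gM (lk_lt _ _) ((mn_le _ _).trans k1) ((mn_le _ _).trans k2)
    (i1 := i1) (i2 := i2) (i3 := i3) (by omega)
    (by omega) (le_mn (by omega) m1) (by omega) (le_mn (by omega) m2) (by omega)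
    (le_mn (by omega) m3) (by omega) (by omega) (by omega) (by omega)
  have hr : ((fa e (pkl t1) (pkl t23) i1 + fb e (pkl t2) i2 + fa e (pkl t3) (pkl t12) i3 +
      (lk (pkl tS) (40 - e) + 120 * (e * e)) : ℕ) : ℝ) ≤
      ((M + 21003520 + 2400 * e + e * (e * e) : ℕ) : ℝ) := Nat.cast_le.2 key
  rw [Nat.cast_add, Nat.cast_add, Nat.cast_add, fa_real (by omega) (by omega),
    fa_real (by omega) (by omega), fb_real (by omega) (by omega), lk_pkl g1, lk_pkl g2, lk_pkl g3,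
    lk_pkl g4, lk_pkl g5, Nat.cast_add (lk (pkl tS) (40 - e)), lk_pkl g6, ltab_eq t1 e1,
    ltab_eq t2 e2, ltab_eq t3 e3, ltab_eq t23 (n := b + c) (i := 60 - e - i1) (by omega),
    ltab_eq t12 (n := a + b) (i := 60 - e - i3) (by omega),
    ltab_eq tS (n := a + b + c) (i := 40 - e) (by omega)] at hr
  have r1 : ((i1 : ℕ) : ℝ) - 20 = a := by
    have : ((a + 20 : ℤ) : ℝ) = ((i1 : ℤ) : ℝ) := by rw [e1]
    push_cast at this
    linarith
  have r2 : ((i2 : ℕ) : ℝ) - 20 = b := by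
    have : ((b + 20 : ℤ) : ℝ) = ((i2 : ℤ) : ℝ) := by rw [e2]
    push_cast at this
    linarith
  have r3 : ((i3 : ℕ) : ℝ) - 20 = c := by
    have : ((c + 20 : ℤ) : ℝ) = ((i3 : ℤ) : ℝ) := by rw [e3]
    push_cast at this
    linarith
  rw [r1, r2, r3] at hr
  push_cast at hr
  have r4 : (a : ℝ) + b + c = 20 - e := by exact_mod_cast e4
  have r5 : (20 : ℝ) - (a + b + c) = e := by linarith
  rw [Helper95.TS.Rw, r5]
  linarith

theorem near_lo {x : ℝ} {m : ℤ} {l : ℕ} (k : Near x m) (h : (l : ℝ) - 20 ≤ x) :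
    (l : ℤ) - 20 ≤ m := k.ge_of_ge (by push_cast; exact h)

theorem near_hi {x : ℝ} {m : ℤ} {l : ℕ} (k : Near x m) (h : x ≤ (l : ℝ) - 20) :
    m ≤ (l : ℤ) - 20 := k.le_of_le (by push_cast; exact h)

theorem near_lt {x : ℝ} {m : ℤ} (k : Near x m) : x - 1 < m ∧ (m : ℝ) < x + 1 := by
  have h1 : (⌊x⌋ : ℝ) ≤ m := by exact_mod_cast k.1
  have h2 : (m : ℝ) ≤ ⌈x⌉ := by exact_mod_cast k.2
  have h3 := Int.lt_floor_add_one x
  have h4 := Int.ceil_lt_add_one x
  constructor <;> linarith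

/-- **The row block**, from the check to real configurations. -/
theorem row_block {M l1 h1 l2 h2 l3 h3 l12 h12 l23 h23 lS hS : ℕ} {t1 t2 t3 t12 t23 tS : List ℕ}
    (h : rowOK M l1 h1 l2 h2 l3 h3 l12 h12 l23 h23 lS hS t1 t2 t3 t12 t23 tS = true)
    {v1 v2 v3 : ℝ} (a1 : (l1 : ℝ) - 20 ≤ v1) (a2 : v1 ≤ (h1 : ℝ) - 20) (b1 : (l2 : ℝ) - 20 ≤ v2)
    (b2 : v2 ≤ (h2 : ℝ) - 20) (c1 : (l3 : ℝ) - 20 ≤ v3) (c2 : v3 ≤ (h3 : ℝ) - 20)
    (d1 : (l12 : ℝ) - 20 ≤ v1 + v2) (d2 : v1 + v2 ≤ (h12 : ℝ) - 20)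
    (f1 : (l23 : ℝ) - 20 ≤ v2 + v3) (f2 : v2 + v3 ≤ (h23 : ℝ) - 20)
    (s1 : (lS : ℝ) - 20 ≤ v1 + v2 + v3) (s2 : v1 + v2 + v3 ≤ (hS : ℝ) - 20)
    (w1 : v1 ≤ 20) (w2 : v2 ≤ 20) (w3 : v3 ≤ 20) (ws : v1 + v2 + v3 ≤ 20)
    (n1 : v1 - (v2 + v3) ≤ 20) (n2 : v2 - (v1 + v3) ≤ 20) (n3 : v3 - (v1 + v2) ≤ 20) :
    Helper95.TS.Rw v1 v2 v3 + (interp (ltab t1) v1 + interp (ltab t2) v2 + interp (ltab t3) v3
      + interp (ltab t12) (v1 + v2) + interp (ltab t23) (v2 + v3)
      + interp (ltab tS) (v1 + v2 + v3)) ≤ (M : ℝ) - 4194304 + 94 := by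
  refine row_real (rowRd_Rw w1 w2 w3 ws) _ _ _ _ _ _ fun a b c ka kb kc kab kbc ks => ?_
  have e1 := near_lt ka
  have e2 := near_lt kb
  have e3 := near_lt kc
  have e4 := near_lt kab
  have e5 := near_lt kbc
  have e6 := near_lt ks
  push_cast at e4 e5 e6
  refine rowOK_sound h (near_lo ka a1) (near_hi ka a2) (near_lo kb b1) (near_hi kb b2)
    (near_lo kc c1) (near_hi kc c2) (near_lo kab d1) (near_hi kab d2) (near_lo kbc f1)
    (near_hi kbc f2) (near_lo ks s1) (near_hi ks s2) ?_ ?_ ?_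
  · have : ((a - (b + c) : ℤ) : ℝ) < ((22 : ℤ) : ℝ) := by
      push_cast
      linarith [e1.2, e5.1]
    have : a - (b + c) < 22 := by exact_mod_cast this
    omega
  · have : ((b - (a + c) : ℤ) : ℝ) < ((23 : ℤ) : ℝ) := by
      push_cast
      linarith [e2.2, e6.1]
    have : b - (a + c) < 23 := by exact_mod_cast this
    omega
  · have : ((c - (a + b) : ℤ) : ℝ) < ((22 : ℤ) : ℝ) := by
      push_cast
      linarith [e3.2, e4.1]
    have : c - (a + b) < 22 := by exact_mod_cast this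
    omega

end Pool.Agent.Helper62.NE
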