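import Mathlib

/-!
# Rounding a cell with a common threshold

`Gc w A s` is `24000` times the volume of the cell with the width `w / 20`, the components `A / 20`,
`(20 + w - s) / 20`. The loss is the interpolation error on a Freudenthal simplex.
-/

set_option autoImplicit false

namespace Pool.Agent.Helper62.NE

/-- the cube of the positive part -/
noncomputable def cub (y : ℝ) : ℝ := (max y 0) ^ 3

/-- the volume in units of the grid -/
noncomputable def Gc (w A s : ℝ) : ℝ :=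
  3 * w * A * (20 + w - s) - w ^ 3 + (max (w - A) 0) ^ 3 + (max (s - 20) 0) ^ 3

/-- the polynomial part -/
def pG (w A s : ℝ) : ℝ := 3 * w * A * (20 + w - s) - w ^ 3

theorem Gc_eq (w A s : ℝ) : Gc w A s = pG w A s + cub (w - A) + cub (s - 20) := rfl

theorem convex_cub : ConvexOn ℝ Set.univ cub :=
  ((convexOn_id convex_univ).sup (convexOn_const (0 : ℝ) convex_univ)).pow
    (fun _ _ => le_max_right _ _) 3

theorem cub_le {x y θ : ℝ} (h0 : 0 ≤ θ) (h1 : θ ≤ 1) :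
    cub ((1 - θ) * x + θ * y) ≤ (1 - θ) * cub x + θ * cub y := by
  have := convex_cub.2 (Set.mem_univ x) (Set.mem_univ y) (by linarith : 0 ≤ 1 - θ) h0 (by ring)
  simpa using this

/-- four states in a chain: the correction is the gradient of the interpolation -/
theorem chain {F0 F1 F2 F3 x y z κ : ℝ}
    (h : 0 ≤ F0 + x * (F1 - F0) + y * (F2 - F1) + z * (F3 - F2) + κ) :
    ∃ c0 c1 c2 : ℝ, 0 ≤ F0 + κ + c0 * (0 - x) + c1 * (0 - y) + c2 * (0 - z) ∧
      0 ≤ F1 + κ + c0 * (1 - x) + c1 * (0 - y) + c2 * (0 - z) ∧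
      0 ≤ F2 + κ + c0 * (1 - x) + c1 * (1 - y) + c2 * (0 - z) ∧
      0 ≤ F3 + κ + c0 * (1 - x) + c1 * (1 - y) + c2 * (1 - z) :=
  ⟨F0 - F1, F1 - F2, F2 - F3, by linarith, by linarith, by linarith, by linarith⟩

theorem quarter {a b : ℝ} (hb : 0 ≤ b) (h : b ≤ a) (ha : a ≤ 1) :
    0 ≤ b * (1 - a) ∧ b * (1 - a) ≤ 1 / 4 := by
  constructor
  · exact mul_nonneg hb (by linarith)
  · nlinarith [sq_nonneg (2 * a - 1), mul_nonneg (sub_nonneg.2 h) (sub_nonneg.2 ha)]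

theorem prodb {u v : ℝ} (h0 : -1 ≤ u) (h1 : u ≤ 1) (v0 : 0 ≤ v) (v1 : v ≤ 1 / 4) :
    -(1 / 4) ≤ u * v ∧ u * v ≤ 1 / 4 := by
  constructor <;> nlinarith

theorem third {a b : ℝ} : (a - b) * (1 - a) + b * (1 - b) ≤ 1 / 3 := by
  nlinarith [sq_nonneg (a - b / 2 - 1 / 2), sq_nonneg (b - 1 / 3)]

/-- the mean of the polynomial part; `m1`, `m2`, `m3` the covariances of the pairs `(w, A)`,
`(w, s)`, `(A, s)`, `T` the third moment -/
theorem mean_ge {w A B a m1 m2 m3 T ε : ℝ} (hε : ε = 1 ∨ ε = -1) (w0 : 0 ≤ w) (w1 : w ≤ 20)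
    (A0 : 0 ≤ A) (B0 : 0 ≤ B) (a0 : 0 ≤ a) (a1 : a ≤ 1) (m10 : 0 ≤ m1) (m14 : m1 ≤ 1 / 4)
    (m2a : m2 ≤ a * (1 - a)) (m3a : a * (1 - a) + m3 - m1 ≤ 1 / 3) (T0 : -(1 / 4) ≤ T)
    (T1 : T ≤ 1 / 4) :
    0 ≤ 3 * ((A - w) * (a * (1 - a)) + (B + w) * m1 - A * m2 - w * m3)
      + ε * (3 * ((1 - 2 * a) * m1) - 3 * T - (1 - 2 * a) * (a * (1 - a))) + 22 := by
  have h1 := mul_nonneg A0 (sub_nonneg.2 m2a)
  have h2 := mul_nonneg B0 m10
  have h3 := mul_nonneg w0 (sub_nonneg.2 m3a)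
  obtain ⟨q0, q1⟩ := quarter a0 le_rfl a1
  obtain ⟨p0, p1⟩ := prodb (u := 1 - 2 * a) (by linarith) (by linarith) m10 m14
  obtain ⟨r0, r1⟩ := prodb (u := 1 - 2 * a) (by linarith) (by linarith) q0 q1
  rcases hε with rfl | rfl <;> linarith

section

variable {w A s a b c ε : ℝ}

/-- the point of a state -/
noncomputable def gS (w A s a b c ε I J K : ℝ) : ℝ :=
  Gc (w + ε * (I - a)) (A + ε * (J - b)) (s + ε * (K - c))

theorem gS_eq (I J K D : ℝ) (hD : I - J = D) : gS w A s a b c ε I J K =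
    pG (w + ε * (I - a)) (A + ε * (J - b)) (s + ε * (K - c))
      + cub (w - A + ε * (D - (a - b))) + cub (s - 20 + ε * (K - c)) := by
  subst hD
  unfold gS
  rw [Gc_eq]
  congr 2
  · congr 1; ring
  · ring

theorem cub_s (c0 : 0 ≤ c) (c1 : c ≤ 1) : cub (s - 20) ≤
    (1 - c) * cub (s - 20 + ε * (0 - c)) + c * cub (s - 20 + ε * (1 - c)) := by
  have := cub_le (x := s - 20 + ε * (0 - c)) (y := s - 20 + ε * (1 - c)) c0 c1
  rwa [show (1 - c) * (s - 20 + ε * (0 - c)) + c * (s - 20 + ε * (1 - c)) = s - 20 by ring] at this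

theorem cub_a (h : b ≤ a) (h1 : a - b ≤ 1) : cub (w - A) ≤
    (1 - (a - b)) * cub (w - A + ε * (0 - (a - b))) + (a - b) * cub (w - A + ε * (1 - (a - b))) := by
  have := cub_le (x := w - A + ε * (0 - (a - b))) (y := w - A + ε * (1 - (a - b)))
    (sub_nonneg.2 h) h1
  rwa [show (1 - (a - b)) * (w - A + ε * (0 - (a - b))) + (a - b) * (w - A + ε * (1 - (a - b))) =
    w - A by ring] at this

theorem cub_b (h : a ≤ b) (h1 : b - a ≤ 1) : cub (w - A) ≤
    (1 - (b - a)) * cub (w - A + ε * (0 - (a - b))) + (b - a) * cub (w - A + ε * (-1 - (a - b))) := by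
  have := cub_le (x := w - A + ε * (0 - (a - b))) (y := w - A + ε * (-1 - (a - b)))
    (sub_nonneg.2 h) h1
  rwa [show (1 - (b - a)) * (w - A + ε * (0 - (a - b))) + (b - a) * (w - A + ε * (-1 - (a - b))) =
    w - A by ring] at this

/-- the indicator of `1 ≤ a + t` -/
noncomputable def ind (a t : ℝ) : ℝ := if 1 ≤ a + t then 1 else 0

/-- the statement for one state -/
def Ok (w A s a b c ε c0 c1 c2 I J K : ℝ) : Prop :=
  0 ≤ gS w A s a b c ε I J K - Gc w A s + 22 + c0 * (I - a) + c1 * (J - b) + c2 * (K - c)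

theorem order_abc (hε : ε = 1 ∨ ε = -1) (w0 : 0 ≤ w) (w1 : w ≤ 20) (A0 : 0 ≤ A) (B0 : s ≤ 20 + w)
    (h0 : 0 ≤ c) (h1 : c ≤ b) (h2 : b ≤ a) (h3 : a ≤ 1) :
    ∃ c0 c1 c2 : ℝ, ∀ t : ℝ, Ok w A s a b c ε c0 c1 c2 (ind a t) (ind b t) (ind c t) := by
  have q1 := quarter h0 h1 (h2.trans h3)
  have q2 := quarter (h0.trans h1) h2 h3
  have q3 := quarter h0 (h1.trans h2) h3
  have qy := quarter (h0.trans h1) le_rfl (h2.trans h3)
  have qx := quarter (h0.trans (h1.trans h2)) le_rfl h3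
  have qz := quarter h0 le_rfl (h1.trans (h2.trans h3))
  have T0 := prodb (u := 1 - 2 * b) (by linarith only [h0, h1, h2, h3]) (by linarith only [h0, h1, h2, h3]) q3.1 q3.2
  have hm2 : c * (1 - a) ≤ a * (1 - a) :=
    mul_le_mul_of_nonneg_right (by linarith only [h0, h1, h2, h3]) (by linarith only [h0, h1, h2, h3])
  have hm3 : a * (1 - a) + c * (1 - b) - b * (1 - a) ≤ 1 / 3 := by
    have e : c * (1 - b) ≤ b * (1 - b) :=
      mul_le_mul_of_nonneg_right (by linarith only [h0, h1, h2, h3]) (by linarith only [h0, h1, h2, h3])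
    have := third (a := a) (b := b)
    linarith
  have hT : c * (1 - a) * (1 - 2 * b) = (1 - 2 * b) * (c * (1 - a)) := by ring
  have M := mean_ge (w := w) (A := A) (B := 20 + w - s) (a := a) (m1 := b * (1 - a)) (m2 := c * (1 - a))
    (m3 := c * (1 - b)) (T := c * (1 - a) * (1 - 2 * b)) hε w0 w1 A0
    (by linarith only [h0, h1, h2, h3, B0, w0, q1, q2, q3, qy, qx, qz]) (by linarith only [h0, h1, h2, h3, B0, w0, q1, q2, q3, qy, qx, qz]) (by linarith only [h0, h1, h2, h3, B0, w0, q1, q2, q3, qy, qx, qz]) (by linarith only [h0, h1, h2, h3, B0, w0, q1, q2, q3, qy, qx, qz]) (by linarith only [h0, h1, h2, h3, B0, w0, q1, q2, q3, qy, qx, qz]) hm2 hm3 (by linarith [T0.1])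
    (by linarith [T0.2])
  have P : pG (w + ε * (0 - a)) (A + ε * (0 - b)) (s + ε * (0 - c))
    + a * (pG (w + ε * (1 - a)) (A + ε * (0 - b)) (s + ε * (0 - c)) - pG (w + ε * (0 - a)) (A + ε * (0 - b)) (s + ε * (0 - c)))
    + b * (pG (w + ε * (1 - a)) (A + ε * (1 - b)) (s + ε * (0 - c)) - pG (w + ε * (1 - a)) (A + ε * (0 - b)) (s + ε * (0 - c)))
    + c * (pG (w + ε * (1 - a)) (A + ε * (1 - b)) (s + ε * (1 - c)) - pG (w + ε * (1 - a)) (A + ε * (1 - b)) (s + ε * (0 - c))) - pG w A s =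
    3 * ((A - w) * (a * (1 - a)) + (20 + w - s + w) * (b * (1 - a)) - A * (c * (1 - a)) - w * (c * (1 - b)))
      + ε * (3 * ((1 - 2 * a) * (b * (1 - a))) - 3 * (c * (1 - a) * (1 - 2 * b)) - (1 - 2 * a) * (a * (1 - a))) := by
    unfold pG
    rcases hε with rfl | rfl <;> ring
  have k1 := cub_s (s := s) (ε := ε) (c := c) (by linarith only [h0, h1, h2, h3]) (by linarith only [h0, h1, h2, h3])
  have k2 := cub_a (w := w) (A := A) (ε := ε) (a := a) (b := b) (by linarith only [h0, h1, h2, h3]) (by linarith only [h0, h1, h2, h3])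
  have e0 := gS_eq (w := w) (A := A) (s := s) (a := a) (b := b) (c := c) (ε := ε) 0 0 0 0 (by norm_num)
  have e1 := gS_eq (w := w) (A := A) (s := s) (a := a) (b := b) (c := c) (ε := ε) 1 0 0 1 (by norm_num)
  have e2 := gS_eq (w := w) (A := A) (s := s) (a := a) (b := b) (c := c) (ε := ε) 1 1 0 0 (by norm_num)
  have e3 := gS_eq (w := w) (A := A) (s := s) (a := a) (b := b) (c := c) (ε := ε) 1 1 1 0 (by norm_num)
  obtain ⟨c0, c1, c2, r0, r1, r2, r3⟩ := chain (F0 := (gS w A s a b c ε 0 0 0) - Gc w A s)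
    (F1 := (gS w A s a b c ε 1 0 0) - Gc w A s) (F2 := (gS w A s a b c ε 1 1 0) - Gc w A s)
    (F3 := (gS w A s a b c ε 1 1 1) - Gc w A s) (x := a) (y := b) (z := c)
    (κ := 22) (by
      rw [e0, e1, e2, e3, Gc_eq]
      linarith only [M, P, k1, k2])
  refine ⟨c0, c1, c2, fun t => ?_⟩
  unfold Ok ind
  by_cases i1 : 1 ≤ c + t
  · rw [if_pos (show 1 ≤ a + t by linarith only [h0, h1, h2, h3, i1]), if_pos (show 1 ≤ b + t by linarith only [h0, h1, h2, h3, i1]),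
      if_pos (show 1 ≤ c + t by linarith only [h0, h1, h2, h3, i1])]
    linarith only [r0, r1, r2, r3]
  by_cases i2 : 1 ≤ b + t
  · rw [if_pos (show 1 ≤ a + t by linarith only [h0, h1, h2, h3, i1, i2]),
      if_pos (show 1 ≤ b + t by linarith only [h0, h1, h2, h3, i1, i2]),
      if_neg (show ¬ 1 ≤ c + t by linarith only [h0, h1, h2, h3, i1, i2])]
    linarith only [r0, r1, r2, r3]
  by_cases i3 : 1 ≤ a + t
  · rw [if_pos (show 1 ≤ a + t by linarith only [h0, h1, h2, h3, i1, i2, i3]),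
      if_neg (show ¬ 1 ≤ b + t by linarith only [h0, h1, h2, h3, i1, i2, i3]),
      if_neg (show ¬ 1 ≤ c + t by linarith only [h0, h1, h2, h3, i1, i2, i3])]
    linarith only [r0, r1, r2, r3]
  · rw [if_neg (show ¬ 1 ≤ a + t by linarith only [h0, h1, h2, h3, i1, i2, i3]),
      if_neg (show ¬ 1 ≤ b + t by linarith only [h0, h1, h2, h3, i1, i2, i3]),
      if_neg (show ¬ 1 ≤ c + t by linarith only [h0, h1, h2, h3, i1, i2, i3])]
    linarith only [r0, r1, r2, r3]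

theorem order_acb (hε : ε = 1 ∨ ε = -1) (w0 : 0 ≤ w) (w1 : w ≤ 20) (A0 : 0 ≤ A) (B0 : s ≤ 20 + w)
    (h0 : 0 ≤ b) (h1 : b ≤ c) (h2 : c ≤ a) (h3 : a ≤ 1) :
    ∃ c0 c1 c2 : ℝ, ∀ t : ℝ, Ok w A s a b c ε c0 c1 c2 (ind a t) (ind b t) (ind c t) := by
  have q1 := quarter h0 h1 (h2.trans h3)
  have q2 := quarter (h0.trans h1) h2 h3
  have q3 := quarter h0 (h1.trans h2) h3
  have qy := quarter (h0.trans h1) le_rfl (h2.trans h3)
  have qx := quarter (h0.trans (h1.trans h2)) le_rfl h3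
  have qz := quarter h0 le_rfl (h1.trans (h2.trans h3))
  have T0 := prodb (u := 1 - 2 * c) (by linarith only [h0, h1, h2, h3]) (by linarith only [h0, h1, h2, h3]) q3.1 q3.2
  have hm2 : c * (1 - a) ≤ a * (1 - a) :=
    mul_le_mul_of_nonneg_right (by linarith only [h0, h1, h2, h3]) (by linarith only [h0, h1, h2, h3])
  have hm3 : a * (1 - a) + b * (1 - c) - b * (1 - a) ≤ 1 / 3 := by
    have e : b * (1 - c) ≤ b * (1 - b) :=
      mul_le_mul_of_nonneg_left (by linarith only [h0, h1, h2, h3]) (by linarith only [h0, h1, h2, h3])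
    have := third (a := a) (b := b)
    linarith
  have hT : b * (1 - a) * (1 - 2 * c) = (1 - 2 * c) * (b * (1 - a)) := by ring
  have M := mean_ge (w := w) (A := A) (B := 20 + w - s) (a := a) (m1 := b * (1 - a)) (m2 := c * (1 - a))
    (m3 := b * (1 - c)) (T := b * (1 - a) * (1 - 2 * c)) hε w0 w1 A0
    (by linarith only [h0, h1, h2, h3, B0, w0, q1, q2, q3, qy, qx, qz]) (by linarith only [h0, h1, h2, h3, B0, w0, q1, q2, q3, qy, qx, qz]) (by linarith only [h0, h1, h2, h3, B0, w0, q1, q2, q3, qy, qx, qz]) (by linarith only [h0, h1, h2, h3, B0, w0, q1, q2, q3, qy, qx, qz]) (by linarith only [h0, h1, h2, h3, B0, w0, q1, q2, q3, qy, qx, qz]) hm2 hm3 (by linarith [T0.1])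
    (by linarith [T0.2])
  have P : pG (w + ε * (0 - a)) (A + ε * (0 - b)) (s + ε * (0 - c))
    + a * (pG (w + ε * (1 - a)) (A + ε * (0 - b)) (s + ε * (0 - c)) - pG (w + ε * (0 - a)) (A + ε * (0 - b)) (s + ε * (0 - c)))
    + c * (pG (w + ε * (1 - a)) (A + ε * (0 - b)) (s + ε * (1 - c)) - pG (w + ε * (1 - a)) (A + ε * (0 - b)) (s + ε * (0 - c)))
    + b * (pG (w + ε * (1 - a)) (A + ε * (1 - b)) (s + ε * (1 - c)) - pG (w + ε * (1 - a)) (A + ε * (0 - b)) (s + ε * (1 - c))) - pG w A s =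
    3 * ((A - w) * (a * (1 - a)) + (20 + w - s + w) * (b * (1 - a)) - A * (c * (1 - a)) - w * (b * (1 - c)))
      + ε * (3 * ((1 - 2 * a) * (b * (1 - a))) - 3 * (b * (1 - a) * (1 - 2 * c)) - (1 - 2 * a) * (a * (1 - a))) := by
    unfold pG
    rcases hε with rfl | rfl <;> ring
  have k1 := cub_s (s := s) (ε := ε) (c := c) (by linarith only [h0, h1, h2, h3]) (by linarith only [h0, h1, h2, h3])
  have k2 := cub_a (w := w) (A := A) (ε := ε) (a := a) (b := b) (by linarith only [h0, h1, h2, h3]) (by linarith only [h0, h1, h2, h3])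
  have e0 := gS_eq (w := w) (A := A) (s := s) (a := a) (b := b) (c := c) (ε := ε) 0 0 0 0 (by norm_num)
  have e1 := gS_eq (w := w) (A := A) (s := s) (a := a) (b := b) (c := c) (ε := ε) 1 0 0 1 (by norm_num)
  have e2 := gS_eq (w := w) (A := A) (s := s) (a := a) (b := b) (c := c) (ε := ε) 1 0 1 1 (by norm_num)
  have e3 := gS_eq (w := w) (A := A) (s := s) (a := a) (b := b) (c := c) (ε := ε) 1 1 1 0 (by norm_num)
  obtain ⟨c0, c1, c2, r0, r1, r2, r3⟩ := chain (F0 := (gS w A s a b c ε 0 0 0) - Gc w A s)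
    (F1 := (gS w A s a b c ε 1 0 0) - Gc w A s) (F2 := (gS w A s a b c ε 1 0 1) - Gc w A s)
    (F3 := (gS w A s a b c ε 1 1 1) - Gc w A s) (x := a) (y := c) (z := b)
    (κ := 22) (by
      rw [e0, e1, e2, e3, Gc_eq]
      linarith only [M, P, k1, k2])
  refine ⟨c0, c2, c1, fun t => ?_⟩
  unfold Ok ind
  by_cases i1 : 1 ≤ b + t
  · rw [if_pos (show 1 ≤ a + t by linarith only [h0, h1, h2, h3, i1]), if_pos (show 1 ≤ b + t by linarith only [h0, h1, h2, h3, i1]),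
      if_pos (show 1 ≤ c + t by linarith only [h0, h1, h2, h3, i1])]
    linarith only [r0, r1, r2, r3]
  by_cases i2 : 1 ≤ c + t
  · rw [if_pos (show 1 ≤ a + t by linarith only [h0, h1, h2, h3, i1, i2]),
      if_neg (show ¬ 1 ≤ b + t by linarith only [h0, h1, h2, h3, i1, i2]),
      if_pos (show 1 ≤ c + t by linarith only [h0, h1, h2, h3, i1, i2])]
    linarith only [r0, r1, r2, r3]
  by_cases i3 : 1 ≤ a + t
  · rw [if_pos (show 1 ≤ a + t by linarith only [h0, h1, h2, h3, i1, i2, i3]),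
      if_neg (show ¬ 1 ≤ b + t by linarith only [h0, h1, h2, h3, i1, i2, i3]),
      if_neg (show ¬ 1 ≤ c + t by linarith only [h0, h1, h2, h3, i1, i2, i3])]
    linarith only [r0, r1, r2, r3]
  · rw [if_neg (show ¬ 1 ≤ a + t by linarith only [h0, h1, h2, h3, i1, i2, i3]),
      if_neg (show ¬ 1 ≤ b + t by linarith only [h0, h1, h2, h3, i1, i2, i3]),
      if_neg (show ¬ 1 ≤ c + t by linarith only [h0, h1, h2, h3, i1, i2, i3])]
    linarith only [r0, r1, r2, r3]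

theorem order_bac (hε : ε = 1 ∨ ε = -1) (w0 : 0 ≤ w) (w1 : w ≤ 20) (A0 : 0 ≤ A) (B0 : s ≤ 20 + w)
    (h0 : 0 ≤ c) (h1 : c ≤ a) (h2 : a ≤ b) (h3 : b ≤ 1) :
    ∃ c0 c1 c2 : ℝ, ∀ t : ℝ, Ok w A s a b c ε c0 c1 c2 (ind a t) (ind b t) (ind c t) := by
  have q1 := quarter h0 h1 (h2.trans h3)
  have q2 := quarter (h0.trans h1) h2 h3
  have q3 := quarter h0 (h1.trans h2) h3
  have qy := quarter (h0.trans h1) le_rfl (h2.trans h3)
  have qx := quarter (h0.trans (h1.trans h2)) le_rfl h3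
  have qz := quarter h0 le_rfl (h1.trans (h2.trans h3))
  have T0 := prodb (u := 1 - 2 * a) (by linarith only [h0, h1, h2, h3]) (by linarith only [h0, h1, h2, h3]) q3.1 q3.2
  have hm2 : c * (1 - a) ≤ a * (1 - a) :=
    mul_le_mul_of_nonneg_right (by linarith only [h0, h1, h2, h3]) (by linarith only [h0, h1, h2, h3])
  have hm3 : a * (1 - a) + c * (1 - b) - a * (1 - b) ≤ 1 / 3 := by
    have e : c * (1 - b) ≤ b * (1 - b) :=
      mul_le_mul_of_nonneg_right (by linarith only [h0, h1, h2, h3]) (by linarith only [h0, h1, h2, h3])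
    have := third (a := 1 - a) (b := 1 - b)
    linarith
  have hT : c * (1 - b) * (1 - 2 * a) = (1 - 2 * a) * (c * (1 - b)) := by ring
  have M := mean_ge (w := w) (A := A) (B := 20 + w - s) (a := a) (m1 := a * (1 - b)) (m2 := c * (1 - a))
    (m3 := c * (1 - b)) (T := c * (1 - b) * (1 - 2 * a)) hε w0 w1 A0
    (by linarith only [h0, h1, h2, h3, B0, w0, q1, q2, q3, qy, qx, qz]) (by linarith only [h0, h1, h2, h3, B0, w0, q1, q2, q3, qy, qx, qz]) (by linarith only [h0, h1, h2, h3, B0, w0, q1, q2, q3, qy, qx, qz]) (by linarith only [h0, h1, h2, h3, B0, w0, q1, q2, q3, qy, qx, qz]) (by linarith only [h0, h1, h2, h3, B0, w0, q1, q2, q3, qy, qx, qz]) hm2 hm3 (by linarith [T0.1])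
    (by linarith [T0.2])
  have P : pG (w + ε * (0 - a)) (A + ε * (0 - b)) (s + ε * (0 - c))
    + b * (pG (w + ε * (0 - a)) (A + ε * (1 - b)) (s + ε * (0 - c)) - pG (w + ε * (0 - a)) (A + ε * (0 - b)) (s + ε * (0 - c)))
    + a * (pG (w + ε * (1 - a)) (A + ε * (1 - b)) (s + ε * (0 - c)) - pG (w + ε * (0 - a)) (A + ε * (1 - b)) (s + ε * (0 - c)))
    + c * (pG (w + ε * (1 - a)) (A + ε * (1 - b)) (s + ε * (1 - c)) - pG (w + ε * (1 - a)) (A + ε * (1 - b)) (s + ε * (0 - c))) - pG w A s =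
    3 * ((A - w) * (a * (1 - a)) + (20 + w - s + w) * (a * (1 - b)) - A * (c * (1 - a)) - w * (c * (1 - b)))
      + ε * (3 * ((1 - 2 * a) * (a * (1 - b))) - 3 * (c * (1 - b) * (1 - 2 * a)) - (1 - 2 * a) * (a * (1 - a))) := by
    unfold pG
    rcases hε with rfl | rfl <;> ring
  have k1 := cub_s (s := s) (ε := ε) (c := c) (by linarith only [h0, h1, h2, h3]) (by linarith only [h0, h1, h2, h3])
  have k2 := cub_b (w := w) (A := A) (ε := ε) (a := a) (b := b) (by linarith only [h0, h1, h2, h3]) (by linarith only [h0, h1, h2, h3])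
  have e0 := gS_eq (w := w) (A := A) (s := s) (a := a) (b := b) (c := c) (ε := ε) 0 0 0 0 (by norm_num)
  have e1 := gS_eq (w := w) (A := A) (s := s) (a := a) (b := b) (c := c) (ε := ε) 0 1 0 (-1) (by norm_num)
  have e2 := gS_eq (w := w) (A := A) (s := s) (a := a) (b := b) (c := c) (ε := ε) 1 1 0 0 (by norm_num)
  have e3 := gS_eq (w := w) (A := A) (s := s) (a := a) (b := b) (c := c) (ε := ε) 1 1 1 0 (by norm_num)
  obtain ⟨c0, c1, c2, r0, r1, r2, r3⟩ := chain (F0 := (gS w A s a b c ε 0 0 0) - Gc w A s)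
    (F1 := (gS w A s a b c ε 0 1 0) - Gc w A s) (F2 := (gS w A s a b c ε 1 1 0) - Gc w A s)
    (F3 := (gS w A s a b c ε 1 1 1) - Gc w A s) (x := b) (y := a) (z := c)
    (κ := 22) (by
      rw [e0, e1, e2, e3, Gc_eq]
      linarith only [M, P, k1, k2])
  refine ⟨c1, c0, c2, fun t => ?_⟩
  unfold Ok ind
  by_cases i1 : 1 ≤ c + t
  · rw [if_pos (show 1 ≤ a + t by linarith only [h0, h1, h2, h3, i1]), if_pos (show 1 ≤ b + t by linarith only [h0, h1, h2, h3, i1]),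
      if_pos (show 1 ≤ c + t by linarith only [h0, h1, h2, h3, i1])]
    linarith only [r0, r1, r2, r3]
  by_cases i2 : 1 ≤ a + t
  · rw [if_pos (show 1 ≤ a + t by linarith only [h0, h1, h2, h3, i1, i2]),
      if_pos (show 1 ≤ b + t by linarith only [h0, h1, h2, h3, i1, i2]),
      if_neg (show ¬ 1 ≤ c + t by linarith only [h0, h1, h2, h3, i1, i2])]
    linarith only [r0, r1, r2, r3]
  by_cases i3 : 1 ≤ b + t
  · rw [if_neg (show ¬ 1 ≤ a + t by linarith only [h0, h1, h2, h3, i1, i2, i3]),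
      if_pos (show 1 ≤ b + t by linarith only [h0, h1, h2, h3, i1, i2, i3]),
      if_neg (show ¬ 1 ≤ c + t by linarith only [h0, h1, h2, h3, i1, i2, i3])]
    linarith only [r0, r1, r2, r3]
  · rw [if_neg (show ¬ 1 ≤ a + t by linarith only [h0, h1, h2, h3, i1, i2, i3]),
      if_neg (show ¬ 1 ≤ b + t by linarith only [h0, h1, h2, h3, i1, i2, i3]),
      if_neg (show ¬ 1 ≤ c + t by linarith only [h0, h1, h2, h3, i1, i2, i3])]
    linarith only [r0, r1, r2, r3]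

theorem order_bca (hε : ε = 1 ∨ ε = -1) (w0 : 0 ≤ w) (w1 : w ≤ 20) (A0 : 0 ≤ A) (B0 : s ≤ 20 + w)
    (h0 : 0 ≤ a) (h1 : a ≤ c) (h2 : c ≤ b) (h3 : b ≤ 1) :
    ∃ c0 c1 c2 : ℝ, ∀ t : ℝ, Ok w A s a b c ε c0 c1 c2 (ind a t) (ind b t) (ind c t) := by
  have q1 := quarter h0 h1 (h2.trans h3)
  have q2 := quarter (h0.trans h1) h2 h3
  have q3 := quarter h0 (h1.trans h2) h3
  have qy := quarter (h0.trans h1) le_rfl (h2.trans h3)
  have qx := quarter (h0.trans (h1.trans h2)) le_rfl h3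
  have qz := quarter h0 le_rfl (h1.trans (h2.trans h3))
  have T0 := prodb (u := 1 - 2 * c) (by linarith only [h0, h1, h2, h3]) (by linarith only [h0, h1, h2, h3]) q3.1 q3.2
  have hm2 : a * (1 - c) ≤ a * (1 - a) :=
    mul_le_mul_of_nonneg_left (by linarith only [h0, h1, h2, h3]) (by linarith only [h0, h1, h2, h3])
  have hm3 : a * (1 - a) + c * (1 - b) - a * (1 - b) ≤ 1 / 3 := by
    have e : c * (1 - b) ≤ b * (1 - b) :=
      mul_le_mul_of_nonneg_right (by linarith only [h0, h1, h2, h3]) (by linarith only [h0, h1, h2, h3])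
    have := third (a := 1 - a) (b := 1 - b)
    linarith
  have hT : a * (1 - b) * (1 - 2 * c) = (1 - 2 * c) * (a * (1 - b)) := by ring
  have M := mean_ge (w := w) (A := A) (B := 20 + w - s) (a := a) (m1 := a * (1 - b)) (m2 := a * (1 - c))
    (m3 := c * (1 - b)) (T := a * (1 - b) * (1 - 2 * c)) hε w0 w1 A0
    (by linarith only [h0, h1, h2, h3, B0, w0, q1, q2, q3, qy, qx, qz]) (by linarith only [h0, h1, h2, h3, B0, w0, q1, q2, q3, qy, qx, qz]) (by linarith only [h0, h1, h2, h3, B0, w0, q1, q2, q3, qy, qx, qz]) (by linarith only [h0, h1, h2, h3, B0, w0, q1, q2, q3, qy, qx, qz]) (by linarith only [h0, h1, h2, h3, B0, w0, q1, q2, q3, qy, qx, qz]) hm2 hm3 (by linarith [T0.1])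
    (by linarith [T0.2])
  have P : pG (w + ε * (0 - a)) (A + ε * (0 - b)) (s + ε * (0 - c))
    + b * (pG (w + ε * (0 - a)) (A + ε * (1 - b)) (s + ε * (0 - c)) - pG (w + ε * (0 - a)) (A + ε * (0 - b)) (s + ε * (0 - c)))
    + c * (pG (w + ε * (0 - a)) (A + ε * (1 - b)) (s + ε * (1 - c)) - pG (w + ε * (0 - a)) (A + ε * (1 - b)) (s + ε * (0 - c)))
    + a * (pG (w + ε * (1 - a)) (A + ε * (1 - b)) (s + ε * (1 - c)) - pG (w + ε * (0 - a)) (A + ε * (1 - b)) (s + ε * (1 - c))) - pG w A s =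
    3 * ((A - w) * (a * (1 - a)) + (20 + w - s + w) * (a * (1 - b)) - A * (a * (1 - c)) - w * (c * (1 - b)))
      + ε * (3 * ((1 - 2 * a) * (a * (1 - b))) - 3 * (a * (1 - b) * (1 - 2 * c)) - (1 - 2 * a) * (a * (1 - a))) := by
    unfold pG
    rcases hε with rfl | rfl <;> ring
  have k1 := cub_s (s := s) (ε := ε) (c := c) (by linarith only [h0, h1, h2, h3]) (by linarith only [h0, h1, h2, h3])
  have k2 := cub_b (w := w) (A := A) (ε := ε) (a := a) (b := b) (by linarith only [h0, h1, h2, h3]) (by linarith only [h0, h1, h2, h3])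
  have e0 := gS_eq (w := w) (A := A) (s := s) (a := a) (b := b) (c := c) (ε := ε) 0 0 0 0 (by norm_num)
  have e1 := gS_eq (w := w) (A := A) (s := s) (a := a) (b := b) (c := c) (ε := ε) 0 1 0 (-1) (by norm_num)
  have e2 := gS_eq (w := w) (A := A) (s := s) (a := a) (b := b) (c := c) (ε := ε) 0 1 1 (-1) (by norm_num)
  have e3 := gS_eq (w := w) (A := A) (s := s) (a := a) (b := b) (c := c) (ε := ε) 1 1 1 0 (by norm_num)
  obtain ⟨c0, c1, c2, r0, r1, r2, r3⟩ := chain (F0 := (gS w A s a b c ε 0 0 0) - Gc w A s)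
    (F1 := (gS w A s a b c ε 0 1 0) - Gc w A s) (F2 := (gS w A s a b c ε 0 1 1) - Gc w A s)
    (F3 := (gS w A s a b c ε 1 1 1) - Gc w A s) (x := b) (y := c) (z := a)
    (κ := 22) (by
      rw [e0, e1, e2, e3, Gc_eq]
      linarith only [M, P, k1, k2])
  refine ⟨c2, c0, c1, fun t => ?_⟩
  unfold Ok ind
  by_cases i1 : 1 ≤ a + t
  · rw [if_pos (show 1 ≤ a + t by linarith only [h0, h1, h2, h3, i1]), if_pos (show 1 ≤ b + t by linarith only [h0, h1, h2, h3, i1]),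
      if_pos (show 1 ≤ c + t by linarith only [h0, h1, h2, h3, i1])]
    linarith only [r0, r1, r2, r3]
  by_cases i2 : 1 ≤ c + t
  · rw [if_neg (show ¬ 1 ≤ a + t by linarith only [h0, h1, h2, h3, i1, i2]),
      if_pos (show 1 ≤ b + t by linarith only [h0, h1, h2, h3, i1, i2]),
      if_pos (show 1 ≤ c + t by linarith only [h0, h1, h2, h3, i1, i2])]
    linarith only [r0, r1, r2, r3]
  by_cases i3 : 1 ≤ b + t
  · rw [if_neg (show ¬ 1 ≤ a + t by linarith only [h0, h1, h2, h3, i1, i2, i3]),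
      if_pos (show 1 ≤ b + t by linarith only [h0, h1, h2, h3, i1, i2, i3]),
      if_neg (show ¬ 1 ≤ c + t by linarith only [h0, h1, h2, h3, i1, i2, i3])]
    linarith only [r0, r1, r2, r3]
  · rw [if_neg (show ¬ 1 ≤ a + t by linarith only [h0, h1, h2, h3, i1, i2, i3]),
      if_neg (show ¬ 1 ≤ b + t by linarith only [h0, h1, h2, h3, i1, i2, i3]),
      if_neg (show ¬ 1 ≤ c + t by linarith only [h0, h1, h2, h3, i1, i2, i3])]
    linarith only [r0, r1, r2, r3]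

theorem order_cab (hε : ε = 1 ∨ ε = -1) (w0 : 0 ≤ w) (w1 : w ≤ 20) (A0 : 0 ≤ A) (B0 : s ≤ 20 + w)
    (h0 : 0 ≤ b) (h1 : b ≤ a) (h2 : a ≤ c) (h3 : c ≤ 1) :
    ∃ c0 c1 c2 : ℝ, ∀ t : ℝ, Ok w A s a b c ε c0 c1 c2 (ind a t) (ind b t) (ind c t) := by
  have q1 := quarter h0 h1 (h2.trans h3)
  have q2 := quarter (h0.trans h1) h2 h3
  have q3 := quarter h0 (h1.trans h2) h3
  have qy := quarter (h0.trans h1) le_rfl (h2.trans h3)
  have qx := quarter (h0.trans (h1.trans h2)) le_rfl h3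
  have qz := quarter h0 le_rfl (h1.trans (h2.trans h3))
  have T0 := prodb (u := 1 - 2 * a) (by linarith only [h0, h1, h2, h3]) (by linarith only [h0, h1, h2, h3]) q3.1 q3.2
  have hm2 : a * (1 - c) ≤ a * (1 - a) :=
    mul_le_mul_of_nonneg_left (by linarith only [h0, h1, h2, h3]) (by linarith only [h0, h1, h2, h3])
  have hm3 : a * (1 - a) + b * (1 - c) - b * (1 - a) ≤ 1 / 3 := by
    have e : b * (1 - c) ≤ b * (1 - b) :=
      mul_le_mul_of_nonneg_left (by linarith only [h0, h1, h2, h3]) (by linarith only [h0, h1, h2, h3])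
    have := third (a := a) (b := b)
    linarith
  have hT : b * (1 - c) * (1 - 2 * a) = (1 - 2 * a) * (b * (1 - c)) := by ring
  have M := mean_ge (w := w) (A := A) (B := 20 + w - s) (a := a) (m1 := b * (1 - a)) (m2 := a * (1 - c))
    (m3 := b * (1 - c)) (T := b * (1 - c) * (1 - 2 * a)) hε w0 w1 A0
    (by linarith only [h0, h1, h2, h3, B0, w0, q1, q2, q3, qy, qx, qz]) (by linarith only [h0, h1, h2, h3, B0, w0, q1, q2, q3, qy, qx, qz]) (by linarith only [h0, h1, h2, h3, B0, w0, q1, q2, q3, qy, qx, qz]) (by linarith only [h0, h1, h2, h3, B0, w0, q1, q2, q3, qy, qx, qz]) (by linarith only [h0, h1, h2, h3, B0, w0, q1, q2, q3, qy, qx, qz]) hm2 hm3 (by linarith [T0.1])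
    (by linarith [T0.2])
  have P : pG (w + ε * (0 - a)) (A + ε * (0 - b)) (s + ε * (0 - c))
    + c * (pG (w + ε * (0 - a)) (A + ε * (0 - b)) (s + ε * (1 - c)) - pG (w + ε * (0 - a)) (A + ε * (0 - b)) (s + ε * (0 - c)))
    + a * (pG (w + ε * (1 - a)) (A + ε * (0 - b)) (s + ε * (1 - c)) - pG (w + ε * (0 - a)) (A + ε * (0 - b)) (s + ε * (1 - c)))
    + b * (pG (w + ε * (1 - a)) (A + ε * (1 - b)) (s + ε * (1 - c)) - pG (w + ε * (1 - a)) (A + ε * (0 - b)) (s + ε * (1 - c))) - pG w A s =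
    3 * ((A - w) * (a * (1 - a)) + (20 + w - s + w) * (b * (1 - a)) - A * (a * (1 - c)) - w * (b * (1 - c)))
      + ε * (3 * ((1 - 2 * a) * (b * (1 - a))) - 3 * (b * (1 - c) * (1 - 2 * a)) - (1 - 2 * a) * (a * (1 - a))) := by
    unfold pG
    rcases hε with rfl | rfl <;> ring
  have k1 := cub_s (s := s) (ε := ε) (c := c) (by linarith only [h0, h1, h2, h3]) (by linarith only [h0, h1, h2, h3])
  have k2 := cub_a (w := w) (A := A) (ε := ε) (a := a) (b := b) (by linarith only [h0, h1, h2, h3]) (by linarith only [h0, h1, h2, h3])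
  have e0 := gS_eq (w := w) (A := A) (s := s) (a := a) (b := b) (c := c) (ε := ε) 0 0 0 0 (by norm_num)
  have e1 := gS_eq (w := w) (A := A) (s := s) (a := a) (b := b) (c := c) (ε := ε) 0 0 1 0 (by norm_num)
  have e2 := gS_eq (w := w) (A := A) (s := s) (a := a) (b := b) (c := c) (ε := ε) 1 0 1 1 (by norm_num)
  have e3 := gS_eq (w := w) (A := A) (s := s) (a := a) (b := b) (c := c) (ε := ε) 1 1 1 0 (by norm_num)
  obtain ⟨c0, c1, c2, r0, r1, r2, r3⟩ := chain (F0 := (gS w A s a b c ε 0 0 0) - Gc w A s)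
    (F1 := (gS w A s a b c ε 0 0 1) - Gc w A s) (F2 := (gS w A s a b c ε 1 0 1) - Gc w A s)
    (F3 := (gS w A s a b c ε 1 1 1) - Gc w A s) (x := c) (y := a) (z := b)
    (κ := 22) (by
      rw [e0, e1, e2, e3, Gc_eq]
      linarith only [M, P, k1, k2])
  refine ⟨c1, c2, c0, fun t => ?_⟩
  unfold Ok ind
  by_cases i1 : 1 ≤ b + t
  · rw [if_pos (show 1 ≤ a + t by linarith only [h0, h1, h2, h3, i1]), if_pos (show 1 ≤ b + t by linarith only [h0, h1, h2, h3, i1]),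
      if_pos (show 1 ≤ c + t by linarith only [h0, h1, h2, h3, i1])]
    linarith only [r0, r1, r2, r3]
  by_cases i2 : 1 ≤ a + t
  · rw [if_pos (show 1 ≤ a + t by linarith only [h0, h1, h2, h3, i1, i2]),
      if_neg (show ¬ 1 ≤ b + t by linarith only [h0, h1, h2, h3, i1, i2]),
      if_pos (show 1 ≤ c + t by linarith only [h0, h1, h2, h3, i1, i2])]
    linarith only [r0, r1, r2, r3]
  by_cases i3 : 1 ≤ c + t
  · rw [if_neg (show ¬ 1 ≤ a + t by linarith only [h0, h1, h2, h3, i1, i2, i3]),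
      if_neg (show ¬ 1 ≤ b + t by linarith only [h0, h1, h2, h3, i1, i2, i3]),
      if_pos (show 1 ≤ c + t by linarith only [h0, h1, h2, h3, i1, i2, i3])]
    linarith only [r0, r1, r2, r3]
  · rw [if_neg (show ¬ 1 ≤ a + t by linarith only [h0, h1, h2, h3, i1, i2, i3]),
      if_neg (show ¬ 1 ≤ b + t by linarith only [h0, h1, h2, h3, i1, i2, i3]),
      if_neg (show ¬ 1 ≤ c + t by linarith only [h0, h1, h2, h3, i1, i2, i3])]
    linarith only [r0, r1, r2, r3]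

theorem order_cba (hε : ε = 1 ∨ ε = -1) (w0 : 0 ≤ w) (w1 : w ≤ 20) (A0 : 0 ≤ A) (B0 : s ≤ 20 + w)
    (h0 : 0 ≤ a) (h1 : a ≤ b) (h2 : b ≤ c) (h3 : c ≤ 1) :
    ∃ c0 c1 c2 : ℝ, ∀ t : ℝ, Ok w A s a b c ε c0 c1 c2 (ind a t) (ind b t) (ind c t) := by
  have q1 := quarter h0 h1 (h2.trans h3)
  have q2 := quarter (h0.trans h1) h2 h3
  have q3 := quarter h0 (h1.trans h2) h3
  have qy := quarter (h0.trans h1) le_rfl (h2.trans h3)
  have qx := quarter (h0.trans (h1.trans h2)) le_rfl h3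
  have qz := quarter h0 le_rfl (h1.trans (h2.trans h3))
  have T0 := prodb (u := 1 - 2 * b) (by linarith only [h0, h1, h2, h3]) (by linarith only [h0, h1, h2, h3]) q3.1 q3.2
  have hm2 : a * (1 - c) ≤ a * (1 - a) :=
    mul_le_mul_of_nonneg_left (by linarith only [h0, h1, h2, h3]) (by linarith only [h0, h1, h2, h3])
  have hm3 : a * (1 - a) + b * (1 - c) - a * (1 - b) ≤ 1 / 3 := by
    have e : b * (1 - c) ≤ b * (1 - b) :=
      mul_le_mul_of_nonneg_left (by linarith only [h0, h1, h2, h3]) (by linarith only [h0, h1, h2, h3])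
    have := third (a := 1 - a) (b := 1 - b)
    linarith
  have hT : a * (1 - c) * (1 - 2 * b) = (1 - 2 * b) * (a * (1 - c)) := by ring
  have M := mean_ge (w := w) (A := A) (B := 20 + w - s) (a := a) (m1 := a * (1 - b)) (m2 := a * (1 - c))
    (m3 := b * (1 - c)) (T := a * (1 - c) * (1 - 2 * b)) hε w0 w1 A0
    (by linarith only [h0, h1, h2, h3, B0, w0, q1, q2, q3, qy, qx, qz]) (by linarith only [h0, h1, h2, h3, B0, w0, q1, q2, q3, qy, qx, qz]) (by linarith only [h0, h1, h2, h3, B0, w0, q1, q2, q3, qy, qx, qz]) (by linarith only [h0, h1, h2, h3, B0, w0, q1, q2, q3, qy, qx, qz]) (by linarith only [h0, h1, h2, h3, B0, w0, q1, q2, q3, qy, qx, qz]) hm2 hm3 (by linarith [T0.1])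
    (by linarith [T0.2])
  have P : pG (w + ε * (0 - a)) (A + ε * (0 - b)) (s + ε * (0 - c))
    + c * (pG (w + ε * (0 - a)) (A + ε * (0 - b)) (s + ε * (1 - c)) - pG (w + ε * (0 - a)) (A + ε * (0 - b)) (s + ε * (0 - c)))
    + b * (pG (w + ε * (0 - a)) (A + ε * (1 - b)) (s + ε * (1 - c)) - pG (w + ε * (0 - a)) (A + ε * (0 - b)) (s + ε * (1 - c)))
    + a * (pG (w + ε * (1 - a)) (A + ε * (1 - b)) (s + ε * (1 - c)) - pG (w + ε * (0 - a)) (A + ε * (1 - b)) (s + ε * (1 - c))) - pG w A s =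
    3 * ((A - w) * (a * (1 - a)) + (20 + w - s + w) * (a * (1 - b)) - A * (a * (1 - c)) - w * (b * (1 - c)))
      + ε * (3 * ((1 - 2 * a) * (a * (1 - b))) - 3 * (a * (1 - c) * (1 - 2 * b)) - (1 - 2 * a) * (a * (1 - a))) := by
    unfold pG
    rcases hε with rfl | rfl <;> ring
  have k1 := cub_s (s := s) (ε := ε) (c := c) (by linarith only [h0, h1, h2, h3]) (by linarith only [h0, h1, h2, h3])
  have k2 := cub_b (w := w) (A := A) (ε := ε) (a := a) (b := b) (by linarith only [h0, h1, h2, h3]) (by linarith only [h0, h1, h2, h3])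
  have e0 := gS_eq (w := w) (A := A) (s := s) (a := a) (b := b) (c := c) (ε := ε) 0 0 0 0 (by norm_num)
  have e1 := gS_eq (w := w) (A := A) (s := s) (a := a) (b := b) (c := c) (ε := ε) 0 0 1 0 (by norm_num)
  have e2 := gS_eq (w := w) (A := A) (s := s) (a := a) (b := b) (c := c) (ε := ε) 0 1 1 (-1) (by norm_num)
  have e3 := gS_eq (w := w) (A := A) (s := s) (a := a) (b := b) (c := c) (ε := ε) 1 1 1 0 (by norm_num)
  obtain ⟨c0, c1, c2, r0, r1, r2, r3⟩ := chain (F0 := (gS w A s a b c ε 0 0 0) - Gc w A s)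
    (F1 := (gS w A s a b c ε 0 0 1) - Gc w A s) (F2 := (gS w A s a b c ε 0 1 1) - Gc w A s)
    (F3 := (gS w A s a b c ε 1 1 1) - Gc w A s) (x := c) (y := b) (z := a)
    (κ := 22) (by
      rw [e0, e1, e2, e3, Gc_eq]
      linarith only [M, P, k1, k2])
  refine ⟨c2, c1, c0, fun t => ?_⟩
  unfold Ok ind
  by_cases i1 : 1 ≤ a + t
  · rw [if_pos (show 1 ≤ a + t by linarith only [h0, h1, h2, h3, i1]), if_pos (show 1 ≤ b + t by linarith only [h0, h1, h2, h3, i1]),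
      if_pos (show 1 ≤ c + t by linarith only [h0, h1, h2, h3, i1])]
    linarith only [r0, r1, r2, r3]
  by_cases i2 : 1 ≤ b + t
  · rw [if_neg (show ¬ 1 ≤ a + t by linarith only [h0, h1, h2, h3, i1, i2]),
      if_pos (show 1 ≤ b + t by linarith only [h0, h1, h2, h3, i1, i2]),
      if_pos (show 1 ≤ c + t by linarith only [h0, h1, h2, h3, i1, i2])]
    linarith only [r0, r1, r2, r3]
  by_cases i3 : 1 ≤ c + t
  · rw [if_neg (show ¬ 1 ≤ a + t by linarith only [h0, h1, h2, h3, i1, i2, i3]),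
      if_neg (show ¬ 1 ≤ b + t by linarith only [h0, h1, h2, h3, i1, i2, i3]),
      if_pos (show 1 ≤ c + t by linarith only [h0, h1, h2, h3, i1, i2, i3])]
    linarith only [r0, r1, r2, r3]
  · rw [if_neg (show ¬ 1 ≤ a + t by linarith only [h0, h1, h2, h3, i1, i2, i3]),
      if_neg (show ¬ 1 ≤ b + t by linarith only [h0, h1, h2, h3, i1, i2, i3]),
      if_neg (show ¬ 1 ≤ c + t by linarith only [h0, h1, h2, h3, i1, i2, i3])]
    linarith only [r0, r1, r2, r3]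

theorem states (hε : ε = 1 ∨ ε = -1) (w0 : 0 ≤ w) (w1 : w ≤ 20) (A0 : 0 ≤ A) (B0 : s ≤ 20 + w)
    (a0 : 0 ≤ a) (a1 : a ≤ 1) (b0 : 0 ≤ b) (b1 : b ≤ 1) (c0 : 0 ≤ c) (c1 : c ≤ 1) :
    ∃ c0 c1 c2 : ℝ, ∀ t : ℝ, Ok w A s a b c ε c0 c1 c2 (ind a t) (ind b t) (ind c t) := by
  rcases le_total a b with h1 | h1 <;> rcases le_total a c with h2 | h2 <;>
    rcases le_total b c with h3 | h3
  · exact order_cba hε w0 w1 A0 B0 a0 h1 h3 c1
  · exact order_bca hε w0 w1 A0 B0 a0 h2 h3 b1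
  · exact order_cba hε w0 w1 A0 B0 a0 h1 h3 c1
  · exact order_bac hε w0 w1 A0 B0 c0 h2 h1 b1
  · exact order_cab hε w0 w1 A0 B0 b0 h1 h2 c1
  · exact order_cab hε w0 w1 A0 B0 b0 h1 h2 c1
  · exact order_acb hε w0 w1 A0 B0 b0 h3 h2 a1
  · exact order_abc hε w0 w1 A0 B0 c0 h3 h1 a1

end

/-- rounding with the threshold `t`; `ε = 1`: `⌊z + t⌋`, `ε = -1`: `-⌊-z + t⌋` -/
noncomputable def rnd (ε t z : ℝ) : ℝ := ε * (⌊ε * z + t⌋ : ℝ)

theorem rnd_eq {ε t z : ℝ} (hε : ε = 1 ∨ ε = -1) (t0 : 0 ≤ t) (t1 : t < 1) :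
    rnd ε t z = z + ε * (ind (Int.fract (ε * z)) t - Int.fract (ε * z)) := by
  have h0 := Int.fract_nonneg (ε * z)
  have h1 := Int.fract_lt_one (ε * z)
  have h2 := Int.self_sub_fract (ε * z)
  have e : (⌊ε * z + t⌋ : ℝ) = (⌊ε * z⌋ : ℝ) + ind (Int.fract (ε * z)) t := by
    unfold ind
    by_cases h : 1 ≤ Int.fract (ε * z) + t
    · rw [if_pos h]
      have : ⌊ε * z + t⌋ = ⌊ε * z⌋ + 1 := by
        rw [Int.floor_eq_iff]
        push_cast
        constructor <;> linarith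
      rw [this]
      push_cast
      ring
    · rw [if_neg h]
      have : ⌊ε * z + t⌋ = ⌊ε * z⌋ := by
        rw [Int.floor_eq_iff]
        constructor <;> linarith [not_le.1 h]
      rw [this]
      ring
  have hε2 : ε * ε = 1 := by rcases hε with rfl | rfl <;> norm_num
  unfold rnd
  rw [e, ← h2]
  linear_combination z * hε2

/-- **The cell lemma**, with both roundings. -/
theorem cell_round {w A s ε : ℝ} (hε : ε = 1 ∨ ε = -1) (w0 : 0 ≤ w) (w1 : w ≤ 20) (A0 : 0 ≤ A)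
    (B0 : s ≤ 20 + w) : ∃ c : Fin 3 → ℝ, ∀ t : ℝ, 0 ≤ t → t < 1 →
      Gc w A s ≤ Gc (rnd ε t w) (rnd ε t A) (rnd ε t s) + 22 + c 0 * (rnd ε t w - w)
        + c 1 * (rnd ε t A - A) + c 2 * (rnd ε t s - s) := by
  obtain ⟨c0, c1, c2, h⟩ := states (w := w) (A := A) (s := s) (a := Int.fract (ε * w))
    (b := Int.fract (ε * A)) (c := Int.fract (ε * s)) hε w0 w1 A0 B0 (Int.fract_nonneg _)
    (Int.fract_lt_one _).le (Int.fract_nonneg _) (Int.fract_lt_one _).le (Int.fract_nonneg _)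
    (Int.fract_lt_one _).le
  have hε2 : ε * ε = 1 := by rcases hε with rfl | rfl <;> norm_num
  refine ⟨![ε * c0, ε * c1, ε * c2], fun t t0 t1 => ?_⟩
  have h1 := h t
  unfold Ok gS at h1
  rw [← rnd_eq hε t0 t1, ← rnd_eq hε t0 t1, ← rnd_eq hε t0 t1] at h1
  have e : ∀ z : ℝ, ind (Int.fract (ε * z)) t - Int.fract (ε * z) = ε * (rnd ε t z - z) := by
    intro z
    rw [rnd_eq hε t0 t1]
    linear_combination (-(ind (Int.fract (ε * z)) t - Int.fract (ε * z))) * hε2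
  rw [e, e, e] at h1
  simp only [Matrix.cons_val_zero, Matrix.cons_val_one, Matrix.cons_val]
  linarith

theorem rnd_one {t z : ℝ} : rnd 1 t z = (⌊z + t⌋ : ℝ) := by
  unfold rnd
  rw [one_mul, one_mul]

theorem rnd_neg_one {t z : ℝ} : rnd (-1) t z = -(⌊-z + t⌋ : ℝ) := by
  unfold rnd
  rw [neg_one_mul, neg_one_mul]

/-- rounding down -/
theorem cell_floor {w A s : ℝ} (w0 : 0 ≤ w) (w1 : w ≤ 20) (A0 : 0 ≤ A) (B0 : s ≤ 20 + w) :
    ∃ c : Fin 3 → ℝ, ∀ t : ℝ, 0 ≤ t → t < 1 →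
      Gc w A s ≤ Gc ⌊w + t⌋ ⌊A + t⌋ ⌊s + t⌋ + 22 + c 0 * (⌊w + t⌋ - w) + c 1 * (⌊A + t⌋ - A)
        + c 2 * (⌊s + t⌋ - s) := by
  obtain ⟨c, h⟩ := cell_round (w := w) (A := A) (s := s) (Or.inl rfl) w0 w1 A0 B0
  exact ⟨c, fun t t0 t1 => by simpa only [rnd_one] using h t t0 t1⟩

/-- rounding up -/
theorem cell_ceil {w A s : ℝ} (w0 : 0 ≤ w) (w1 : w ≤ 20) (A0 : 0 ≤ A) (B0 : s ≤ 20 + w) :
    ∃ c : Fin 3 → ℝ, ∀ t : ℝ, 0 ≤ t → t < 1 →
      Gc w A s ≤ Gc (-⌊-w + t⌋) (-⌊-A + t⌋) (-⌊-s + t⌋) + 22 + c 0 * (-⌊-w + t⌋ - w)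
        + c 1 * (-⌊-A + t⌋ - A) + c 2 * (-⌊-s + t⌋ - s) := by
  obtain ⟨c, h⟩ := cell_round (w := w) (A := A) (s := s) (Or.inr rfl) w0 w1 A0 B0
  exact ⟨c, fun t t0 t1 => by simpa only [rnd_neg_one] using h t t0 t1⟩

end Pool.Agent.Helper62.NE
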