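import Pool.Agent.Helper53.NE.Rels

/-!
# `TwoLowNE`: slots, function relations, linear relations of a leaf

`sl c s`, `s < 36`, are the real numbers on which a leaf puts price tables (index `i = n + 20`, `n` in `-20 .. 40`).
Function relation `k` (numbers of `Helper53.NE.rel`): `lo ≤ hi`, both in `-20 .. 40`. Linear relation `k`: `0 ≤ LV c k`.
-/

set_option autoImplicit false

namespace Pool.Agent.Helper62.NE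

open Pool.Agent.Helper90.TS Pool.Agent.Helper53.NE

/-- the `k`-th entry of a list -/
def nth {α : Type} (d : α) (l : List α) : ℕ → α :=
  List.rec (motive := fun _ => ℕ → α) (fun _ => d)
    (fun a _ ih k => Nat.rec (motive := fun _ => α) a (fun n _ => ih n) k) l

theorem nth_nil {α : Type} (d : α) (k : ℕ) : nth d [] k = d := rfl
theorem nth_zero {α : Type} (d a : α) (l : List α) : nth d (a :: l) 0 = a := rfl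
theorem nth_succ {α : Type} (d a : α) (l : List α) (k : ℕ) : nth d (a :: l) (k + 1) = nth d l k := rfl

/-- the slots: `0 - 5` row 2, `6 - 11` row 3, then four for every cell `(0;1) (0;2) (0;3) (1;0) (1;2) (1;3)` -/
def sl (c : Cu) : ℕ → ℝ
  | 0 => c.v 2 1
  | 1 => c.v 2 3
  | 2 => c.v 2 0
  | 3 => c.v 2 1 + c.v 2 3
  | 4 => c.v 2 3 + c.v 2 0
  | 5 => 20 - c.e 2
  | 6 => c.v 3 0
  | 7 => c.v 3 2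
  | 8 => c.v 3 1
  | 9 => c.v 3 0 + c.v 3 2
  | 10 => c.v 3 2 + c.v 3 1
  | 11 => 20 - c.e 3
  | 12 => c.w 0 1
  | 13 => c.X 0 1 2
  | 14 => c.X 0 1 3
  | 15 => c.D 0 1
  | 16 => c.w 0 2
  | 17 => c.X 0 2 1
  | 18 => c.X 0 2 3
  | 19 => c.D 0 2
  | 20 => c.w 0 3
  | 21 => c.X 0 3 1
  | 22 => c.X 0 3 2
  | 23 => c.D 0 3
  | 24 => c.w 1 0
  | 25 => c.X 1 0 2
  | 26 => c.X 1 0 3
  | 27 => c.D 1 0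
  | 28 => c.w 1 2
  | 29 => c.X 1 2 0
  | 30 => c.X 1 2 3
  | 31 => c.D 1 2
  | 32 => c.w 1 3
  | 33 => c.X 1 3 0
  | 34 => c.X 1 3 2
  | 35 => c.D 1 3
  | _ => 0

/-- a function relation: `hs`, `ls` the slots, `hc`, `lc` the codes (`0`: `x`, `1`: the constant `20`,
else `C - 40 - x`), `cap`: `hi = 20` (code `1`) unless the depth of the cell of `hs` is smaller than `11` -/
structure FR where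
  hs : ℕ
  hc : ℕ
  cap : Bool
  ls : ℕ
  lc : ℕ

/-- the trivial function relation -/
def fr0 : FR := ⟨5, 0, false, 5, 0⟩

/-- the function relations -/
def frs : List FR := [
  ⟨13, 60, true, 0, 0⟩,
  ⟨14, 60, true, 8, 0⟩,
  ⟨18, 60, true, 7, 0⟩,
  ⟨22, 60, true, 1, 0⟩,
  ⟨25, 60, true, 2, 0⟩,
  ⟨26, 60, true, 6, 0⟩,
  ⟨30, 60, true, 7, 0⟩,
  ⟨34, 60, true, 1, 0⟩,
  ⟨15, 0, false, 3, 0⟩,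
  ⟨15, 0, false, 10, 0⟩,
  ⟨19, 0, false, 10, 0⟩,
  ⟨23, 0, false, 3, 0⟩,
  ⟨27, 0, false, 4, 0⟩,
  ⟨27, 0, false, 9, 0⟩,
  ⟨31, 0, false, 9, 0⟩,
  ⟨35, 0, false, 4, 0⟩,
  ⟨0, 0, false, 13, 60⟩,
  ⟨8, 0, false, 14, 60⟩,
  ⟨7, 0, false, 18, 60⟩,
  ⟨1, 0, false, 22, 60⟩,
  ⟨2, 0, false, 25, 60⟩,
  ⟨6, 0, false, 26, 60⟩,
  ⟨7, 0, false, 30, 60⟩,
  ⟨1, 0, false, 34, 60⟩,
  ⟨0, 40, false, 6, 0⟩,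
  ⟨8, 40, false, 2, 0⟩,
  fr0,
  fr0,
  fr0,
  fr0,
  fr0,
  fr0,
  fr0,
  fr0,
  fr0,
  fr0,
  fr0,
  fr0,
  fr0,
  fr0,
  fr0,
  fr0,
  fr0,
  fr0,
  ⟨33, 80, false, 17, 0⟩,
  ⟨29, 80, false, 21, 0⟩,
  ⟨31, 0, false, 17, 0⟩,
  ⟨19, 0, false, 29, 0⟩,
  ⟨35, 0, false, 21, 0⟩,
  ⟨23, 0, false, 33, 0⟩]

/-- the function relation `k` -/
def fr (k : ℕ) : FR := nth fr0 frs k

/-- the value of a coded slot -/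
def cv (C : ℕ) (x : ℝ) : ℝ := if C = 0 then x else if C = 1 then 20 else (C : ℝ) - 40 - x

/-- the depth slot of the cell of a slot -/
def ds (s : ℕ) : ℕ := 4 * (s / 4) + 3

/-- the cell of the slot has depth smaller than `11` -/
def Capd (c : Cu) (s : ℕ) : Prop := sl c (ds s) < 11

/-- the lower side of the function relation `k` -/
def loV (c : Cu) (k : ℕ) : ℝ := cv (fr k).lc (sl c (fr k).ls)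

/-- the code of the upper side in a cell which is capped or not -/
def hcode (μ : Bool) (k : ℕ) : ℕ := bif (fr k).cap && !μ then 1 else (fr k).hc

open Classical in
/-- the same as a Boolean -/
noncomputable def cpd (c : Cu) (s : ℕ) : Bool := decide (Capd c s)

open Classical in
theorem cpd_true {c : Cu} {s : ℕ} (h : sl c (ds s) < 11) : cpd c s = true := decide_eq_true h

open Classical in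
theorem cpd_false {c : Cu} {s : ℕ} (h : ¬ sl c (ds s) < 11) : cpd c s = false := decide_eq_false h

/-- the upper side of the function relation `k` -/
noncomputable def hiV (c : Cu) (k : ℕ) : ℝ := cv (hcode (cpd c (fr k).hs) k) (sl c (fr k).hs)

/-- the function relation `k` holds -/
def FHold (c : Cu) (k : ℕ) : Prop := loV c k ≤ hiV c k

/-- the linear relations: `(slot, a, b)` stands for `(a - b) * slot`, then `p - q` -/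
def lrs : List (List (ℕ × ℕ × ℕ) × ℕ × ℕ) := [
  ([(0, 0, 1), (13, 0, 1)], 20, 0),
  ([(8, 0, 1), (14, 0, 1)], 20, 0),
  ([(7, 0, 1), (18, 0, 1)], 20, 0),
  ([(1, 0, 1), (22, 0, 1)], 20, 0),
  ([(2, 0, 1), (25, 0, 1)], 20, 0),
  ([(6, 0, 1), (26, 0, 1)], 20, 0),
  ([(7, 0, 1), (30, 0, 1)], 20, 0),
  ([(1, 0, 1), (34, 0, 1)], 20, 0),
  ([(0, 0, 1), (1, 0, 1), (2, 1, 0), (15, 2, 0)], 0, 20),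
  ([(8, 0, 1), (7, 0, 1), (6, 1, 0), (15, 2, 0)], 0, 20),
  ([(7, 0, 1), (8, 0, 1), (6, 1, 0), (19, 2, 0)], 0, 20),
  ([(1, 0, 1), (0, 0, 1), (2, 1, 0), (23, 2, 0)], 0, 20),
  ([(2, 0, 1), (1, 0, 1), (0, 1, 0), (27, 2, 0)], 0, 20),
  ([(6, 0, 1), (7, 0, 1), (8, 1, 0), (27, 2, 0)], 0, 20),
  ([(7, 0, 1), (6, 0, 1), (8, 1, 0), (31, 2, 0)], 0, 20),
  ([(1, 0, 1), (2, 0, 1), (0, 1, 0), (35, 2, 0)], 0, 20),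
  ([(0, 1, 0), (13, 1, 0)], 0, 20),
  ([(8, 1, 0), (14, 1, 0)], 0, 20),
  ([(7, 1, 0), (18, 1, 0)], 0, 20),
  ([(1, 1, 0), (22, 1, 0)], 0, 20),
  ([(2, 1, 0), (25, 1, 0)], 0, 20),
  ([(6, 1, 0), (26, 1, 0)], 0, 20),
  ([(7, 1, 0), (30, 1, 0)], 0, 20),
  ([(1, 1, 0), (34, 1, 0)], 0, 20),
  ([(6, 0, 1), (0, 0, 1)], 0, 0),
  ([(2, 0, 1), (8, 0, 1)], 0, 0),
  ([(6, 0, 2), (8, 0, 2), (11, 1, 0), (5, 0, 1)], 0, 0),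
  ([(2, 0, 2), (0, 0, 2), (5, 1, 0), (11, 0, 1)], 0, 0),
  ([(6, 0, 2), (11, 1, 0), (2, 2, 0), (5, 0, 1)], 0, 0),
  ([(2, 0, 2), (5, 1, 0), (6, 2, 0), (11, 0, 1)], 0, 0),
  ([(8, 0, 2), (11, 1, 0), (0, 2, 0), (5, 0, 1)], 0, 0),
  ([(0, 0, 2), (5, 1, 0), (8, 2, 0), (11, 0, 1)], 0, 0),
  ([(14, 0, 1), (16, 0, 1)], 20, 0),
  ([(18, 0, 1), (12, 0, 1)], 20, 0),
  ([(13, 0, 1), (20, 0, 1)], 20, 0),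
  ([(22, 0, 1), (12, 0, 1)], 20, 0),
  ([(17, 0, 1), (20, 0, 1)], 20, 0),
  ([(21, 0, 1), (16, 0, 1)], 20, 0),
  ([(26, 0, 1), (28, 0, 1)], 20, 0),
  ([(30, 0, 1), (24, 0, 1)], 20, 0),
  ([(25, 0, 1), (32, 0, 1)], 20, 0),
  ([(34, 0, 1), (24, 0, 1)], 20, 0),
  ([(29, 0, 1), (32, 0, 1)], 20, 0),
  ([(33, 0, 1), (28, 0, 1)], 20, 0),
  ([(17, 0, 1), (33, 0, 1)], 40, 0),
  ([(21, 0, 1), (29, 0, 1)], 40, 0),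
  ([(17, 0, 1), (31, 1, 0)], 0, 0),
  ([(29, 0, 1), (19, 1, 0)], 0, 0),
  ([(21, 0, 1), (35, 1, 0)], 0, 0),
  ([(33, 0, 1), (23, 1, 0)], 0, 0),
  ([(16, 0, 1), (28, 1, 0)], 0, 0),
  ([(17, 0, 1), (31, 1, 0), (28, 1, 0)], 0, 20),
  ([(29, 0, 1), (19, 1, 0), (28, 1, 0)], 0, 20),
  ([(28, 0, 1), (16, 1, 0)], 0, 0),
  ([(17, 0, 1), (31, 1, 0), (16, 1, 0)], 0, 20),
  ([(29, 0, 1), (19, 1, 0), (16, 1, 0)], 0, 20),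
  ([(20, 0, 1), (32, 1, 0)], 0, 0),
  ([(21, 0, 1), (35, 1, 0), (32, 1, 0)], 0, 20),
  ([(33, 0, 1), (23, 1, 0), (32, 1, 0)], 0, 20),
  ([(32, 0, 1), (20, 1, 0)], 0, 0),
  ([(21, 0, 1), (35, 1, 0), (20, 1, 0)], 0, 20),
  ([(33, 0, 1), (23, 1, 0), (20, 1, 0)], 0, 20),
  ([(5, 25, 0), (11, 25, 0)], 0, 774)]

/-- the linear relation `k` -/
def lr (k : ℕ) : List (ℕ × ℕ × ℕ) × ℕ × ℕ := nth ([], 0, 0) lrs k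

/-- the value of the linear relation `k` -/
def LV (c : Cu) (k : ℕ) : ℝ :=
  ((lr k).1.map fun t => ((t.2.1 : ℝ) - t.2.2) * sl c t.1).sum + (((lr k).2.1 : ℝ) - (lr k).2.2)

private theorem holds2 {c : Cu} {r : Rel} (i j : ℕ) (a b K : ℤ) (hr : r = ⟨[(i, a), (j, b)], K⟩) (h : r.holds c) :
    (a : ℝ) * ft c i + (b : ℝ) * ft c j ≤ K := by
  subst hr
  simp only [Rel.holds, List.map_cons, List.map_nil, List.sum_cons, List.sum_nil, add_zero] at h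
  linarith only [h]

private theorem holds3 {c : Cu} {r : Rel} (i j k : ℕ) (a b d K : ℤ) (hr : r = ⟨[(i, a), (j, b), (k, d)], K⟩) (h : r.holds c) :
    (a : ℝ) * ft c i + (b : ℝ) * ft c j + (d : ℝ) * ft c k ≤ K := by
  subst hr
  simp only [Rel.holds, List.map_cons, List.map_nil, List.sum_cons, List.sum_nil, add_zero] at h
  linarith only [h]

private theorem holds4 {c : Cu} {r : Rel} (i j k l : ℕ) (a b d e K : ℤ) (hr : r = ⟨[(i, a), (j, b), (k, d), (l, e)], K⟩) (h : r.holds c) :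
    (a : ℝ) * ft c i + (b : ℝ) * ft c j + (d : ℝ) * ft c k + (e : ℝ) * ft c l ≤ K := by
  subst hr
  simp only [Rel.holds, List.map_cons, List.map_nil, List.sum_cons, List.sum_nil, add_zero] at h
  linarith only [h]

private theorem LV2 (c : Cu) (k s a a' t b b' m n : ℕ) (hk : lr k = ([(s, a, a'), (t, b, b')], m, n)) :
    LV c k = (((a : ℕ) : ℝ) - ((a' : ℕ) : ℝ)) * sl c s + (((b : ℕ) : ℝ) - ((b' : ℕ) : ℝ)) * sl c t + (((m : ℕ) : ℝ) - ((n : ℕ) : ℝ)) := by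
  unfold LV
  rw [hk]
  simp only [List.map_cons, List.map_nil, List.sum_cons, List.sum_nil, add_zero]
  first | done | ring

private theorem LV3 (c : Cu) (k s a a' t b b' u d d' m n : ℕ) (hk : lr k = ([(s, a, a'), (t, b, b'), (u, d, d')], m, n)) :
    LV c k = (((a : ℕ) : ℝ) - ((a' : ℕ) : ℝ)) * sl c s + (((b : ℕ) : ℝ) - ((b' : ℕ) : ℝ)) * sl c t + (((d : ℕ) : ℝ) - ((d' : ℕ) : ℝ)) * sl c u + (((m : ℕ) : ℝ) - ((n : ℕ) : ℝ)) := by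
  unfold LV
  rw [hk]
  simp only [List.map_cons, List.map_nil, List.sum_cons, List.sum_nil, add_zero]
  first | done | ring

private theorem LV4 (c : Cu) (k s a a' t b b' u d d' v e e' m n : ℕ) (hk : lr k = ([(s, a, a'), (t, b, b'), (u, d, d'), (v, e, e')], m, n)) :
    LV c k = (((a : ℕ) : ℝ) - ((a' : ℕ) : ℝ)) * sl c s + (((b : ℕ) : ℝ) - ((b' : ℕ) : ℝ)) * sl c t + (((d : ℕ) : ℝ) - ((d' : ℕ) : ℝ)) * sl c u + (((e : ℕ) : ℝ) - ((e' : ℕ) : ℝ)) * sl c v + (((m : ℕ) : ℝ) - ((n : ℕ) : ℝ)) := by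
  unfold LV
  rw [hk]
  simp only [List.map_cons, List.map_nil, List.sum_cons, List.sum_nil, add_zero]
  first | done | ring

private theorem lhc0 {c : Cu} (h : (rel 0).holds c) : 0 ≤ LV c 0 := by
  have h1 : ((1 : ℤ) : ℝ) * c.v 2 1 + ((1 : ℤ) : ℝ) * c.X 0 1 2 ≤ ((20 : ℤ) : ℝ) :=
    holds2 1 9 1 1 20 rfl h
  have h2 : LV c 0 = (((0 : ℕ) : ℝ) - ((1 : ℕ) : ℝ)) * c.v 2 1 + (((0 : ℕ) : ℝ) - ((1 : ℕ) : ℝ)) * c.X 0 1 2 + (((20 : ℕ) : ℝ) - ((0 : ℕ) : ℝ)) :=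
    LV2 c 0 0 0 1 13 0 1 20 0 rfl
  rw [h2]
  push_cast at h1 ⊢
  linarith only [h1]

private theorem lhc1 {c : Cu} (h : (rel 1).holds c) : 0 ≤ LV c 1 := by
  have h1 : ((1 : ℤ) : ℝ) * c.v 3 1 + ((1 : ℤ) : ℝ) * c.X 0 1 3 ≤ ((20 : ℤ) : ℝ) :=
    holds2 5 10 1 1 20 rfl h
  have h2 : LV c 1 = (((0 : ℕ) : ℝ) - ((1 : ℕ) : ℝ)) * c.v 3 1 + (((0 : ℕ) : ℝ) - ((1 : ℕ) : ℝ)) * c.X 0 1 3 + (((20 : ℕ) : ℝ) - ((0 : ℕ) : ℝ)) :=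
    LV2 c 1 8 0 1 14 0 1 20 0 rfl
  rw [h2]
  push_cast at h1 ⊢
  linarith only [h1]

private theorem lhc2 {c : Cu} (h : (rel 2).holds c) : 0 ≤ LV c 2 := by
  have h1 : ((1 : ℤ) : ℝ) * c.v 3 2 + ((1 : ℤ) : ℝ) * c.X 0 2 3 ≤ ((20 : ℤ) : ℝ) :=
    holds2 6 14 1 1 20 rfl h
  have h2 : LV c 2 = (((0 : ℕ) : ℝ) - ((1 : ℕ) : ℝ)) * c.v 3 2 + (((0 : ℕ) : ℝ) - ((1 : ℕ) : ℝ)) * c.X 0 2 3 + (((20 : ℕ) : ℝ) - ((0 : ℕ) : ℝ)) :=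
    LV2 c 2 7 0 1 18 0 1 20 0 rfl
  rw [h2]
  push_cast at h1 ⊢
  linarith only [h1]

private theorem lhc3 {c : Cu} (h : (rel 3).holds c) : 0 ≤ LV c 3 := by
  have h1 : ((1 : ℤ) : ℝ) * c.v 2 3 + ((1 : ℤ) : ℝ) * c.X 0 3 2 ≤ ((20 : ℤ) : ℝ) :=
    holds2 2 18 1 1 20 rfl h
  have h2 : LV c 3 = (((0 : ℕ) : ℝ) - ((1 : ℕ) : ℝ)) * c.v 2 3 + (((0 : ℕ) : ℝ) - ((1 : ℕ) : ℝ)) * c.X 0 3 2 + (((20 : ℕ) : ℝ) - ((0 : ℕ) : ℝ)) :=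
    LV2 c 3 1 0 1 22 0 1 20 0 rfl
  rw [h2]
  push_cast at h1 ⊢
  linarith only [h1]

private theorem lhc4 {c : Cu} (h : (rel 4).holds c) : 0 ≤ LV c 4 := by
  have h1 : ((1 : ℤ) : ℝ) * c.v 2 0 + ((1 : ℤ) : ℝ) * c.X 1 0 2 ≤ ((20 : ℤ) : ℝ) :=
    holds2 0 21 1 1 20 rfl h
  have h2 : LV c 4 = (((0 : ℕ) : ℝ) - ((1 : ℕ) : ℝ)) * c.v 2 0 + (((0 : ℕ) : ℝ) - ((1 : ℕ) : ℝ)) * c.X 1 0 2 + (((20 : ℕ) : ℝ) - ((0 : ℕ) : ℝ)) :=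
    LV2 c 4 2 0 1 25 0 1 20 0 rfl
  rw [h2]
  push_cast at h1 ⊢
  linarith only [h1]

private theorem lhc5 {c : Cu} (h : (rel 5).holds c) : 0 ≤ LV c 5 := by
  have h1 : ((1 : ℤ) : ℝ) * c.v 3 0 + ((1 : ℤ) : ℝ) * c.X 1 0 3 ≤ ((20 : ℤ) : ℝ) :=
    holds2 4 22 1 1 20 rfl h
  have h2 : LV c 5 = (((0 : ℕ) : ℝ) - ((1 : ℕ) : ℝ)) * c.v 3 0 + (((0 : ℕ) : ℝ) - ((1 : ℕ) : ℝ)) * c.X 1 0 3 + (((20 : ℕ) : ℝ) - ((0 : ℕ) : ℝ)) :=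
    LV2 c 5 6 0 1 26 0 1 20 0 rfl
  rw [h2]
  push_cast at h1 ⊢
  linarith only [h1]

private theorem lhc6 {c : Cu} (h : (rel 6).holds c) : 0 ≤ LV c 6 := by
  have h1 : ((1 : ℤ) : ℝ) * c.v 3 2 + ((1 : ℤ) : ℝ) * c.X 1 2 3 ≤ ((20 : ℤ) : ℝ) :=
    holds2 6 26 1 1 20 rfl h
  have h2 : LV c 6 = (((0 : ℕ) : ℝ) - ((1 : ℕ) : ℝ)) * c.v 3 2 + (((0 : ℕ) : ℝ) - ((1 : ℕ) : ℝ)) * c.X 1 2 3 + (((20 : ℕ) : ℝ) - ((0 : ℕ) : ℝ)) :=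
    LV2 c 6 7 0 1 30 0 1 20 0 rfl
  rw [h2]
  push_cast at h1 ⊢
  linarith only [h1]

private theorem lhc7 {c : Cu} (h : (rel 7).holds c) : 0 ≤ LV c 7 := by
  have h1 : ((1 : ℤ) : ℝ) * c.v 2 3 + ((1 : ℤ) : ℝ) * c.X 1 3 2 ≤ ((20 : ℤ) : ℝ) :=
    holds2 2 30 1 1 20 rfl h
  have h2 : LV c 7 = (((0 : ℕ) : ℝ) - ((1 : ℕ) : ℝ)) * c.v 2 3 + (((0 : ℕ) : ℝ) - ((1 : ℕ) : ℝ)) * c.X 1 3 2 + (((20 : ℕ) : ℝ) - ((0 : ℕ) : ℝ)) :=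
    LV2 c 7 1 0 1 34 0 1 20 0 rfl
  rw [h2]
  push_cast at h1 ⊢
  linarith only [h1]

private theorem lhc8 {c : Cu} (h : (rel 8).holds c) : 0 ≤ LV c 8 := by
  have h1 : ((1 : ℤ) : ℝ) * c.v 2 1 + ((1 : ℤ) : ℝ) * c.v 2 3 + ((-1 : ℤ) : ℝ) * c.v 2 0 + ((-2 : ℤ) : ℝ) * c.D 0 1 ≤ ((-20 : ℤ) : ℝ) :=
    holds4 1 2 0 11 1 1 (-1) (-2) (-20) rfl h
  have h2 : LV c 8 = (((0 : ℕ) : ℝ) - ((1 : ℕ) : ℝ)) * c.v 2 1 + (((0 : ℕ) : ℝ) - ((1 : ℕ) : ℝ)) * c.v 2 3 + (((1 : ℕ) : ℝ) - ((0 : ℕ) : ℝ)) * c.v 2 0 + (((2 : ℕ) : ℝ) - ((0 : ℕ) : ℝ)) * c.D 0 1 + (((0 : ℕ) : ℝ) - ((20 : ℕ) : ℝ)) :=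
    LV4 c 8 0 0 1 1 0 1 2 1 0 15 2 0 0 20 rfl
  rw [h2]
  push_cast at h1 ⊢
  linarith only [h1]

private theorem lhc9 {c : Cu} (h : (rel 9).holds c) : 0 ≤ LV c 9 := by
  have h1 : ((1 : ℤ) : ℝ) * c.v 3 1 + ((1 : ℤ) : ℝ) * c.v 3 2 + ((-1 : ℤ) : ℝ) * c.v 3 0 + ((-2 : ℤ) : ℝ) * c.D 0 1 ≤ ((-20 : ℤ) : ℝ) :=
    holds4 5 6 4 11 1 1 (-1) (-2) (-20) rfl h
  have h2 : LV c 9 = (((0 : ℕ) : ℝ) - ((1 : ℕ) : ℝ)) * c.v 3 1 + (((0 : ℕ) : ℝ) - ((1 : ℕ) : ℝ)) * c.v 3 2 + (((1 : ℕ) : ℝ) - ((0 : ℕ) : ℝ)) * c.v 3 0 + (((2 : ℕ) : ℝ) - ((0 : ℕ) : ℝ)) * c.D 0 1 + (((0 : ℕ) : ℝ) - ((20 : ℕ) : ℝ)) :=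
    LV4 c 9 8 0 1 7 0 1 6 1 0 15 2 0 0 20 rfl
  rw [h2]
  push_cast at h1 ⊢
  linarith only [h1]

private theorem lhc10 {c : Cu} (h : (rel 10).holds c) : 0 ≤ LV c 10 := by
  have h1 : ((1 : ℤ) : ℝ) * c.v 3 2 + ((1 : ℤ) : ℝ) * c.v 3 1 + ((-1 : ℤ) : ℝ) * c.v 3 0 + ((-2 : ℤ) : ℝ) * c.D 0 2 ≤ ((-20 : ℤ) : ℝ) :=
    holds4 6 5 4 15 1 1 (-1) (-2) (-20) rfl h
  have h2 : LV c 10 = (((0 : ℕ) : ℝ) - ((1 : ℕ) : ℝ)) * c.v 3 2 + (((0 : ℕ) : ℝ) - ((1 : ℕ) : ℝ)) * c.v 3 1 + (((1 : ℕ) : ℝ) - ((0 : ℕ) : ℝ)) * c.v 3 0 + (((2 : ℕ) : ℝ) - ((0 : ℕ) : ℝ)) * c.D 0 2 + (((0 : ℕ) : ℝ) - ((20 : ℕ) : ℝ)) :=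
    LV4 c 10 7 0 1 8 0 1 6 1 0 19 2 0 0 20 rfl
  rw [h2]
  push_cast at h1 ⊢
  linarith only [h1]

private theorem lhc11 {c : Cu} (h : (rel 11).holds c) : 0 ≤ LV c 11 := by
  have h1 : ((1 : ℤ) : ℝ) * c.v 2 3 + ((1 : ℤ) : ℝ) * c.v 2 1 + ((-1 : ℤ) : ℝ) * c.v 2 0 + ((-2 : ℤ) : ℝ) * c.D 0 3 ≤ ((-20 : ℤ) : ℝ) :=
    holds4 2 1 0 19 1 1 (-1) (-2) (-20) rfl h
  have h2 : LV c 11 = (((0 : ℕ) : ℝ) - ((1 : ℕ) : ℝ)) * c.v 2 3 + (((0 : ℕ) : ℝ) - ((1 : ℕ) : ℝ)) * c.v 2 1 + (((1 : ℕ) : ℝ) - ((0 : ℕ) : ℝ)) * c.v 2 0 + (((2 : ℕ) : ℝ) - ((0 : ℕ) : ℝ)) * c.D 0 3 + (((0 : ℕ) : ℝ) - ((20 : ℕ) : ℝ)) :=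
    LV4 c 11 1 0 1 0 0 1 2 1 0 23 2 0 0 20 rfl
  rw [h2]
  push_cast at h1 ⊢
  linarith only [h1]

private theorem lhc12 {c : Cu} (h : (rel 12).holds c) : 0 ≤ LV c 12 := by
  have h1 : ((1 : ℤ) : ℝ) * c.v 2 0 + ((1 : ℤ) : ℝ) * c.v 2 3 + ((-1 : ℤ) : ℝ) * c.v 2 1 + ((-2 : ℤ) : ℝ) * c.D 1 0 ≤ ((-20 : ℤ) : ℝ) :=
    holds4 0 2 1 23 1 1 (-1) (-2) (-20) rfl h
  have h2 : LV c 12 = (((0 : ℕ) : ℝ) - ((1 : ℕ) : ℝ)) * c.v 2 0 + (((0 : ℕ) : ℝ) - ((1 : ℕ) : ℝ)) * c.v 2 3 + (((1 : ℕ) : ℝ) - ((0 : ℕ) : ℝ)) * c.v 2 1 + (((2 : ℕ) : ℝ) - ((0 : ℕ) : ℝ)) * c.D 1 0 + (((0 : ℕ) : ℝ) - ((20 : ℕ) : ℝ)) :=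
    LV4 c 12 2 0 1 1 0 1 0 1 0 27 2 0 0 20 rfl
  rw [h2]
  push_cast at h1 ⊢
  linarith only [h1]

private theorem lhc13 {c : Cu} (h : (rel 13).holds c) : 0 ≤ LV c 13 := by
  have h1 : ((1 : ℤ) : ℝ) * c.v 3 0 + ((1 : ℤ) : ℝ) * c.v 3 2 + ((-1 : ℤ) : ℝ) * c.v 3 1 + ((-2 : ℤ) : ℝ) * c.D 1 0 ≤ ((-20 : ℤ) : ℝ) :=
    holds4 4 6 5 23 1 1 (-1) (-2) (-20) rfl h
  have h2 : LV c 13 = (((0 : ℕ) : ℝ) - ((1 : ℕ) : ℝ)) * c.v 3 0 + (((0 : ℕ) : ℝ) - ((1 : ℕ) : ℝ)) * c.v 3 2 + (((1 : ℕ) : ℝ) - ((0 : ℕ) : ℝ)) * c.v 3 1 + (((2 : ℕ) : ℝ) - ((0 : ℕ) : ℝ)) * c.D 1 0 + (((0 : ℕ) : ℝ) - ((20 : ℕ) : ℝ)) :=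
    LV4 c 13 6 0 1 7 0 1 8 1 0 27 2 0 0 20 rfl
  rw [h2]
  push_cast at h1 ⊢
  linarith only [h1]

private theorem lhc14 {c : Cu} (h : (rel 14).holds c) : 0 ≤ LV c 14 := by
  have h1 : ((1 : ℤ) : ℝ) * c.v 3 2 + ((1 : ℤ) : ℝ) * c.v 3 0 + ((-1 : ℤ) : ℝ) * c.v 3 1 + ((-2 : ℤ) : ℝ) * c.D 1 2 ≤ ((-20 : ℤ) : ℝ) :=
    holds4 6 4 5 27 1 1 (-1) (-2) (-20) rfl h
  have h2 : LV c 14 = (((0 : ℕ) : ℝ) - ((1 : ℕ) : ℝ)) * c.v 3 2 + (((0 : ℕ) : ℝ) - ((1 : ℕ) : ℝ)) * c.v 3 0 + (((1 : ℕ) : ℝ) - ((0 : ℕ) : ℝ)) * c.v 3 1 + (((2 : ℕ) : ℝ) - ((0 : ℕ) : ℝ)) * c.D 1 2 + (((0 : ℕ) : ℝ) - ((20 : ℕ) : ℝ)) :=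
    LV4 c 14 7 0 1 6 0 1 8 1 0 31 2 0 0 20 rfl
  rw [h2]
  push_cast at h1 ⊢
  linarith only [h1]

private theorem lhc15 {c : Cu} (h : (rel 15).holds c) : 0 ≤ LV c 15 := by
  have h1 : ((1 : ℤ) : ℝ) * c.v 2 3 + ((1 : ℤ) : ℝ) * c.v 2 0 + ((-1 : ℤ) : ℝ) * c.v 2 1 + ((-2 : ℤ) : ℝ) * c.D 1 3 ≤ ((-20 : ℤ) : ℝ) :=
    holds4 2 0 1 31 1 1 (-1) (-2) (-20) rfl h
  have h2 : LV c 15 = (((0 : ℕ) : ℝ) - ((1 : ℕ) : ℝ)) * c.v 2 3 + (((0 : ℕ) : ℝ) - ((1 : ℕ) : ℝ)) * c.v 2 0 + (((1 : ℕ) : ℝ) - ((0 : ℕ) : ℝ)) * c.v 2 1 + (((2 : ℕ) : ℝ) - ((0 : ℕ) : ℝ)) * c.D 1 3 + (((0 : ℕ) : ℝ) - ((20 : ℕ) : ℝ)) :=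
    LV4 c 15 1 0 1 2 0 1 0 1 0 35 2 0 0 20 rfl
  rw [h2]
  push_cast at h1 ⊢
  linarith only [h1]

private theorem lhc16 {c : Cu} (h : (rel 16).holds c) : 0 ≤ LV c 16 := by
  have h1 : ((-1 : ℤ) : ℝ) * c.v 2 1 + ((-1 : ℤ) : ℝ) * c.X 0 1 2 ≤ ((-20 : ℤ) : ℝ) :=
    holds2 1 9 (-1) (-1) (-20) rfl h
  have h2 : LV c 16 = (((1 : ℕ) : ℝ) - ((0 : ℕ) : ℝ)) * c.v 2 1 + (((1 : ℕ) : ℝ) - ((0 : ℕ) : ℝ)) * c.X 0 1 2 + (((0 : ℕ) : ℝ) - ((20 : ℕ) : ℝ)) :=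
    LV2 c 16 0 1 0 13 1 0 0 20 rfl
  rw [h2]
  push_cast at h1 ⊢
  linarith only [h1]

private theorem lhc17 {c : Cu} (h : (rel 17).holds c) : 0 ≤ LV c 17 := by
  have h1 : ((-1 : ℤ) : ℝ) * c.v 3 1 + ((-1 : ℤ) : ℝ) * c.X 0 1 3 ≤ ((-20 : ℤ) : ℝ) :=
    holds2 5 10 (-1) (-1) (-20) rfl h
  have h2 : LV c 17 = (((1 : ℕ) : ℝ) - ((0 : ℕ) : ℝ)) * c.v 3 1 + (((1 : ℕ) : ℝ) - ((0 : ℕ) : ℝ)) * c.X 0 1 3 + (((0 : ℕ) : ℝ) - ((20 : ℕ) : ℝ)) :=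
    LV2 c 17 8 1 0 14 1 0 0 20 rfl
  rw [h2]
  push_cast at h1 ⊢
  linarith only [h1]

private theorem lhc18 {c : Cu} (h : (rel 18).holds c) : 0 ≤ LV c 18 := by
  have h1 : ((-1 : ℤ) : ℝ) * c.v 3 2 + ((-1 : ℤ) : ℝ) * c.X 0 2 3 ≤ ((-20 : ℤ) : ℝ) :=
    holds2 6 14 (-1) (-1) (-20) rfl h
  have h2 : LV c 18 = (((1 : ℕ) : ℝ) - ((0 : ℕ) : ℝ)) * c.v 3 2 + (((1 : ℕ) : ℝ) - ((0 : ℕ) : ℝ)) * c.X 0 2 3 + (((0 : ℕ) : ℝ) - ((20 : ℕ) : ℝ)) :=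
    LV2 c 18 7 1 0 18 1 0 0 20 rfl
  rw [h2]
  push_cast at h1 ⊢
  linarith only [h1]

private theorem lhc19 {c : Cu} (h : (rel 19).holds c) : 0 ≤ LV c 19 := by
  have h1 : ((-1 : ℤ) : ℝ) * c.v 2 3 + ((-1 : ℤ) : ℝ) * c.X 0 3 2 ≤ ((-20 : ℤ) : ℝ) :=
    holds2 2 18 (-1) (-1) (-20) rfl h
  have h2 : LV c 19 = (((1 : ℕ) : ℝ) - ((0 : ℕ) : ℝ)) * c.v 2 3 + (((1 : ℕ) : ℝ) - ((0 : ℕ) : ℝ)) * c.X 0 3 2 + (((0 : ℕ) : ℝ) - ((20 : ℕ) : ℝ)) :=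
    LV2 c 19 1 1 0 22 1 0 0 20 rfl
  rw [h2]
  push_cast at h1 ⊢
  linarith only [h1]

private theorem lhc20 {c : Cu} (h : (rel 20).holds c) : 0 ≤ LV c 20 := by
  have h1 : ((-1 : ℤ) : ℝ) * c.v 2 0 + ((-1 : ℤ) : ℝ) * c.X 1 0 2 ≤ ((-20 : ℤ) : ℝ) :=
    holds2 0 21 (-1) (-1) (-20) rfl h
  have h2 : LV c 20 = (((1 : ℕ) : ℝ) - ((0 : ℕ) : ℝ)) * c.v 2 0 + (((1 : ℕ) : ℝ) - ((0 : ℕ) : ℝ)) * c.X 1 0 2 + (((0 : ℕ) : ℝ) - ((20 : ℕ) : ℝ)) :=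
    LV2 c 20 2 1 0 25 1 0 0 20 rfl
  rw [h2]
  push_cast at h1 ⊢
  linarith only [h1]

private theorem lhc21 {c : Cu} (h : (rel 21).holds c) : 0 ≤ LV c 21 := by
  have h1 : ((-1 : ℤ) : ℝ) * c.v 3 0 + ((-1 : ℤ) : ℝ) * c.X 1 0 3 ≤ ((-20 : ℤ) : ℝ) :=
    holds2 4 22 (-1) (-1) (-20) rfl h
  have h2 : LV c 21 = (((1 : ℕ) : ℝ) - ((0 : ℕ) : ℝ)) * c.v 3 0 + (((1 : ℕ) : ℝ) - ((0 : ℕ) : ℝ)) * c.X 1 0 3 + (((0 : ℕ) : ℝ) - ((20 : ℕ) : ℝ)) :=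
    LV2 c 21 6 1 0 26 1 0 0 20 rfl
  rw [h2]
  push_cast at h1 ⊢
  linarith only [h1]

private theorem lhc22 {c : Cu} (h : (rel 22).holds c) : 0 ≤ LV c 22 := by
  have h1 : ((-1 : ℤ) : ℝ) * c.v 3 2 + ((-1 : ℤ) : ℝ) * c.X 1 2 3 ≤ ((-20 : ℤ) : ℝ) :=
    holds2 6 26 (-1) (-1) (-20) rfl h
  have h2 : LV c 22 = (((1 : ℕ) : ℝ) - ((0 : ℕ) : ℝ)) * c.v 3 2 + (((1 : ℕ) : ℝ) - ((0 : ℕ) : ℝ)) * c.X 1 2 3 + (((0 : ℕ) : ℝ) - ((20 : ℕ) : ℝ)) :=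
    LV2 c 22 7 1 0 30 1 0 0 20 rfl
  rw [h2]
  push_cast at h1 ⊢
  linarith only [h1]

private theorem lhc23 {c : Cu} (h : (rel 23).holds c) : 0 ≤ LV c 23 := by
  have h1 : ((-1 : ℤ) : ℝ) * c.v 2 3 + ((-1 : ℤ) : ℝ) * c.X 1 3 2 ≤ ((-20 : ℤ) : ℝ) :=
    holds2 2 30 (-1) (-1) (-20) rfl h
  have h2 : LV c 23 = (((1 : ℕ) : ℝ) - ((0 : ℕ) : ℝ)) * c.v 2 3 + (((1 : ℕ) : ℝ) - ((0 : ℕ) : ℝ)) * c.X 1 3 2 + (((0 : ℕ) : ℝ) - ((20 : ℕ) : ℝ)) :=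
    LV2 c 23 1 1 0 34 1 0 0 20 rfl
  rw [h2]
  push_cast at h1 ⊢
  linarith only [h1]

private theorem lhc24 {c : Cu} (h : (rel 24).holds c) : 0 ≤ LV c 24 := by
  have h1 : ((1 : ℤ) : ℝ) * c.v 3 0 + ((1 : ℤ) : ℝ) * c.v 2 1 ≤ ((0 : ℤ) : ℝ) :=
    holds2 4 1 1 1 0 rfl h
  have h2 : LV c 24 = (((0 : ℕ) : ℝ) - ((1 : ℕ) : ℝ)) * c.v 3 0 + (((0 : ℕ) : ℝ) - ((1 : ℕ) : ℝ)) * c.v 2 1 + (((0 : ℕ) : ℝ) - ((0 : ℕ) : ℝ)) :=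
    LV2 c 24 6 0 1 0 0 1 0 0 rfl
  rw [h2]
  push_cast at h1 ⊢
  linarith only [h1]

private theorem lhc25 {c : Cu} (h : (rel 25).holds c) : 0 ≤ LV c 25 := by
  have h1 : ((1 : ℤ) : ℝ) * c.v 2 0 + ((1 : ℤ) : ℝ) * c.v 3 1 ≤ ((0 : ℤ) : ℝ) :=
    holds2 0 5 1 1 0 rfl h
  have h2 : LV c 25 = (((0 : ℕ) : ℝ) - ((1 : ℕ) : ℝ)) * c.v 2 0 + (((0 : ℕ) : ℝ) - ((1 : ℕ) : ℝ)) * c.v 3 1 + (((0 : ℕ) : ℝ) - ((0 : ℕ) : ℝ)) :=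
    LV2 c 25 2 0 1 8 0 1 0 0 rfl
  rw [h2]
  push_cast at h1 ⊢
  linarith only [h1]

private theorem lhc26 {c : Cu} (h : (rel 26).holds c) : 0 ≤ LV c 26 := by
  have h1 : ((2 : ℤ) : ℝ) * c.v 3 0 + ((2 : ℤ) : ℝ) * c.v 3 1 + ((1 : ℤ) : ℝ) * c.e 3 + ((-1 : ℤ) : ℝ) * c.e 2 ≤ ((0 : ℤ) : ℝ) :=
    holds4 4 5 7 3 2 2 1 (-1) 0 rfl h
  have h2 : LV c 26 = (((0 : ℕ) : ℝ) - ((2 : ℕ) : ℝ)) * c.v 3 0 + (((0 : ℕ) : ℝ) - ((2 : ℕ) : ℝ)) * c.v 3 1 + (((1 : ℕ) : ℝ) - ((0 : ℕ) : ℝ)) * (20 - c.e 3) + (((0 : ℕ) : ℝ) - ((1 : ℕ) : ℝ)) * (20 - c.e 2) + (((0 : ℕ) : ℝ) - ((0 : ℕ) : ℝ)) :=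
    LV4 c 26 6 0 2 8 0 2 11 1 0 5 0 1 0 0 rfl
  rw [h2]
  push_cast at h1 ⊢
  linarith only [h1]

private theorem lhc27 {c : Cu} (h : (rel 27).holds c) : 0 ≤ LV c 27 := by
  have h1 : ((2 : ℤ) : ℝ) * c.v 2 0 + ((2 : ℤ) : ℝ) * c.v 2 1 + ((1 : ℤ) : ℝ) * c.e 2 + ((-1 : ℤ) : ℝ) * c.e 3 ≤ ((0 : ℤ) : ℝ) :=
    holds4 0 1 3 7 2 2 1 (-1) 0 rfl h
  have h2 : LV c 27 = (((0 : ℕ) : ℝ) - ((2 : ℕ) : ℝ)) * c.v 2 0 + (((0 : ℕ) : ℝ) - ((2 : ℕ) : ℝ)) * c.v 2 1 + (((1 : ℕ) : ℝ) - ((0 : ℕ) : ℝ)) * (20 - c.e 2) + (((0 : ℕ) : ℝ) - ((1 : ℕ) : ℝ)) * (20 - c.e 3) + (((0 : ℕ) : ℝ) - ((0 : ℕ) : ℝ)) :=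
    LV4 c 27 2 0 2 0 0 2 5 1 0 11 0 1 0 0 rfl
  rw [h2]
  push_cast at h1 ⊢
  linarith only [h1]

private theorem lhc28 {c : Cu} (h : (rel 28).holds c) : 0 ≤ LV c 28 := by
  have h1 : ((2 : ℤ) : ℝ) * c.v 3 0 + ((1 : ℤ) : ℝ) * c.e 3 + ((-2 : ℤ) : ℝ) * c.v 2 0 + ((-1 : ℤ) : ℝ) * c.e 2 ≤ ((0 : ℤ) : ℝ) :=
    holds4 4 7 0 3 2 1 (-2) (-1) 0 rfl h
  have h2 : LV c 28 = (((0 : ℕ) : ℝ) - ((2 : ℕ) : ℝ)) * c.v 3 0 + (((1 : ℕ) : ℝ) - ((0 : ℕ) : ℝ)) * (20 - c.e 3) + (((2 : ℕ) : ℝ) - ((0 : ℕ) : ℝ)) * c.v 2 0 + (((0 : ℕ) : ℝ) - ((1 : ℕ) : ℝ)) * (20 - c.e 2) + (((0 : ℕ) : ℝ) - ((0 : ℕ) : ℝ)) :=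
    LV4 c 28 6 0 2 11 1 0 2 2 0 5 0 1 0 0 rfl
  rw [h2]
  push_cast at h1 ⊢
  linarith only [h1]

private theorem lhc29 {c : Cu} (h : (rel 29).holds c) : 0 ≤ LV c 29 := by
  have h1 : ((2 : ℤ) : ℝ) * c.v 2 0 + ((1 : ℤ) : ℝ) * c.e 2 + ((-2 : ℤ) : ℝ) * c.v 3 0 + ((-1 : ℤ) : ℝ) * c.e 3 ≤ ((0 : ℤ) : ℝ) :=
    holds4 0 3 4 7 2 1 (-2) (-1) 0 rfl h
  have h2 : LV c 29 = (((0 : ℕ) : ℝ) - ((2 : ℕ) : ℝ)) * c.v 2 0 + (((1 : ℕ) : ℝ) - ((0 : ℕ) : ℝ)) * (20 - c.e 2) + (((2 : ℕ) : ℝ) - ((0 : ℕ) : ℝ)) * c.v 3 0 + (((0 : ℕ) : ℝ) - ((1 : ℕ) : ℝ)) * (20 - c.e 3) + (((0 : ℕ) : ℝ) - ((0 : ℕ) : ℝ)) :=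
    LV4 c 29 2 0 2 5 1 0 6 2 0 11 0 1 0 0 rfl
  rw [h2]
  push_cast at h1 ⊢
  linarith only [h1]

private theorem lhc30 {c : Cu} (h : (rel 30).holds c) : 0 ≤ LV c 30 := by
  have h1 : ((2 : ℤ) : ℝ) * c.v 3 1 + ((1 : ℤ) : ℝ) * c.e 3 + ((-2 : ℤ) : ℝ) * c.v 2 1 + ((-1 : ℤ) : ℝ) * c.e 2 ≤ ((0 : ℤ) : ℝ) :=
    holds4 5 7 1 3 2 1 (-2) (-1) 0 rfl h
  have h2 : LV c 30 = (((0 : ℕ) : ℝ) - ((2 : ℕ) : ℝ)) * c.v 3 1 + (((1 : ℕ) : ℝ) - ((0 : ℕ) : ℝ)) * (20 - c.e 3) + (((2 : ℕ) : ℝ) - ((0 : ℕ) : ℝ)) * c.v 2 1 + (((0 : ℕ) : ℝ) - ((1 : ℕ) : ℝ)) * (20 - c.e 2) + (((0 : ℕ) : ℝ) - ((0 : ℕ) : ℝ)) :=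
    LV4 c 30 8 0 2 11 1 0 0 2 0 5 0 1 0 0 rfl
  rw [h2]
  push_cast at h1 ⊢
  linarith only [h1]

private theorem lhc31 {c : Cu} (h : (rel 31).holds c) : 0 ≤ LV c 31 := by
  have h1 : ((2 : ℤ) : ℝ) * c.v 2 1 + ((1 : ℤ) : ℝ) * c.e 2 + ((-2 : ℤ) : ℝ) * c.v 3 1 + ((-1 : ℤ) : ℝ) * c.e 3 ≤ ((0 : ℤ) : ℝ) :=
    holds4 1 3 5 7 2 1 (-2) (-1) 0 rfl h
  have h2 : LV c 31 = (((0 : ℕ) : ℝ) - ((2 : ℕ) : ℝ)) * c.v 2 1 + (((1 : ℕ) : ℝ) - ((0 : ℕ) : ℝ)) * (20 - c.e 2) + (((2 : ℕ) : ℝ) - ((0 : ℕ) : ℝ)) * c.v 3 1 + (((0 : ℕ) : ℝ) - ((1 : ℕ) : ℝ)) * (20 - c.e 3) + (((0 : ℕ) : ℝ) - ((0 : ℕ) : ℝ)) :=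
    LV4 c 31 0 0 2 5 1 0 8 2 0 11 0 1 0 0 rfl
  rw [h2]
  push_cast at h1 ⊢
  linarith only [h1]

private theorem lhc32 {c : Cu} (h : (rel 32).holds c) : 0 ≤ LV c 32 := by
  have h1 : ((1 : ℤ) : ℝ) * c.X 0 1 3 + ((1 : ℤ) : ℝ) * c.w 0 2 ≤ ((20 : ℤ) : ℝ) :=
    holds2 10 12 1 1 20 rfl h
  have h2 : LV c 32 = (((0 : ℕ) : ℝ) - ((1 : ℕ) : ℝ)) * c.X 0 1 3 + (((0 : ℕ) : ℝ) - ((1 : ℕ) : ℝ)) * c.w 0 2 + (((20 : ℕ) : ℝ) - ((0 : ℕ) : ℝ)) :=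
    LV2 c 32 14 0 1 16 0 1 20 0 rfl
  rw [h2]
  push_cast at h1 ⊢
  linarith only [h1]

private theorem lhc33 {c : Cu} (h : (rel 33).holds c) : 0 ≤ LV c 33 := by
  have h1 : ((1 : ℤ) : ℝ) * c.X 0 2 3 + ((1 : ℤ) : ℝ) * c.w 0 1 ≤ ((20 : ℤ) : ℝ) :=
    holds2 14 8 1 1 20 rfl h
  have h2 : LV c 33 = (((0 : ℕ) : ℝ) - ((1 : ℕ) : ℝ)) * c.X 0 2 3 + (((0 : ℕ) : ℝ) - ((1 : ℕ) : ℝ)) * c.w 0 1 + (((20 : ℕ) : ℝ) - ((0 : ℕ) : ℝ)) :=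
    LV2 c 33 18 0 1 12 0 1 20 0 rfl
  rw [h2]
  push_cast at h1 ⊢
  linarith only [h1]

private theorem lhc34 {c : Cu} (h : (rel 34).holds c) : 0 ≤ LV c 34 := by
  have h1 : ((1 : ℤ) : ℝ) * c.X 0 1 2 + ((1 : ℤ) : ℝ) * c.w 0 3 ≤ ((20 : ℤ) : ℝ) :=
    holds2 9 16 1 1 20 rfl h
  have h2 : LV c 34 = (((0 : ℕ) : ℝ) - ((1 : ℕ) : ℝ)) * c.X 0 1 2 + (((0 : ℕ) : ℝ) - ((1 : ℕ) : ℝ)) * c.w 0 3 + (((20 : ℕ) : ℝ) - ((0 : ℕ) : ℝ)) :=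
    LV2 c 34 13 0 1 20 0 1 20 0 rfl
  rw [h2]
  push_cast at h1 ⊢
  linarith only [h1]

private theorem lhc35 {c : Cu} (h : (rel 35).holds c) : 0 ≤ LV c 35 := by
  have h1 : ((1 : ℤ) : ℝ) * c.X 0 3 2 + ((1 : ℤ) : ℝ) * c.w 0 1 ≤ ((20 : ℤ) : ℝ) :=
    holds2 18 8 1 1 20 rfl h
  have h2 : LV c 35 = (((0 : ℕ) : ℝ) - ((1 : ℕ) : ℝ)) * c.X 0 3 2 + (((0 : ℕ) : ℝ) - ((1 : ℕ) : ℝ)) * c.w 0 1 + (((20 : ℕ) : ℝ) - ((0 : ℕ) : ℝ)) :=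
    LV2 c 35 22 0 1 12 0 1 20 0 rfl
  rw [h2]
  push_cast at h1 ⊢
  linarith only [h1]

private theorem lhc36 {c : Cu} (h : (rel 36).holds c) : 0 ≤ LV c 36 := by
  have h1 : ((1 : ℤ) : ℝ) * c.X 0 2 1 + ((1 : ℤ) : ℝ) * c.w 0 3 ≤ ((20 : ℤ) : ℝ) :=
    holds2 13 16 1 1 20 rfl h
  have h2 : LV c 36 = (((0 : ℕ) : ℝ) - ((1 : ℕ) : ℝ)) * c.X 0 2 1 + (((0 : ℕ) : ℝ) - ((1 : ℕ) : ℝ)) * c.w 0 3 + (((20 : ℕ) : ℝ) - ((0 : ℕ) : ℝ)) :=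
    LV2 c 36 17 0 1 20 0 1 20 0 rfl
  rw [h2]
  push_cast at h1 ⊢
  linarith only [h1]

private theorem lhc37 {c : Cu} (h : (rel 37).holds c) : 0 ≤ LV c 37 := by
  have h1 : ((1 : ℤ) : ℝ) * c.X 0 3 1 + ((1 : ℤ) : ℝ) * c.w 0 2 ≤ ((20 : ℤ) : ℝ) :=
    holds2 17 12 1 1 20 rfl h
  have h2 : LV c 37 = (((0 : ℕ) : ℝ) - ((1 : ℕ) : ℝ)) * c.X 0 3 1 + (((0 : ℕ) : ℝ) - ((1 : ℕ) : ℝ)) * c.w 0 2 + (((20 : ℕ) : ℝ) - ((0 : ℕ) : ℝ)) :=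
    LV2 c 37 21 0 1 16 0 1 20 0 rfl
  rw [h2]
  push_cast at h1 ⊢
  linarith only [h1]

private theorem lhc38 {c : Cu} (h : (rel 38).holds c) : 0 ≤ LV c 38 := by
  have h1 : ((1 : ℤ) : ℝ) * c.X 1 0 3 + ((1 : ℤ) : ℝ) * c.w 1 2 ≤ ((20 : ℤ) : ℝ) :=
    holds2 22 24 1 1 20 rfl h
  have h2 : LV c 38 = (((0 : ℕ) : ℝ) - ((1 : ℕ) : ℝ)) * c.X 1 0 3 + (((0 : ℕ) : ℝ) - ((1 : ℕ) : ℝ)) * c.w 1 2 + (((20 : ℕ) : ℝ) - ((0 : ℕ) : ℝ)) :=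
    LV2 c 38 26 0 1 28 0 1 20 0 rfl
  rw [h2]
  push_cast at h1 ⊢
  linarith only [h1]

private theorem lhc39 {c : Cu} (h : (rel 39).holds c) : 0 ≤ LV c 39 := by
  have h1 : ((1 : ℤ) : ℝ) * c.X 1 2 3 + ((1 : ℤ) : ℝ) * c.w 1 0 ≤ ((20 : ℤ) : ℝ) :=
    holds2 26 20 1 1 20 rfl h
  have h2 : LV c 39 = (((0 : ℕ) : ℝ) - ((1 : ℕ) : ℝ)) * c.X 1 2 3 + (((0 : ℕ) : ℝ) - ((1 : ℕ) : ℝ)) * c.w 1 0 + (((20 : ℕ) : ℝ) - ((0 : ℕ) : ℝ)) :=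
    LV2 c 39 30 0 1 24 0 1 20 0 rfl
  rw [h2]
  push_cast at h1 ⊢
  linarith only [h1]

private theorem lhc40 {c : Cu} (h : (rel 40).holds c) : 0 ≤ LV c 40 := by
  have h1 : ((1 : ℤ) : ℝ) * c.X 1 0 2 + ((1 : ℤ) : ℝ) * c.w 1 3 ≤ ((20 : ℤ) : ℝ) :=
    holds2 21 28 1 1 20 rfl h
  have h2 : LV c 40 = (((0 : ℕ) : ℝ) - ((1 : ℕ) : ℝ)) * c.X 1 0 2 + (((0 : ℕ) : ℝ) - ((1 : ℕ) : ℝ)) * c.w 1 3 + (((20 : ℕ) : ℝ) - ((0 : ℕ) : ℝ)) :=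
    LV2 c 40 25 0 1 32 0 1 20 0 rfl
  rw [h2]
  push_cast at h1 ⊢
  linarith only [h1]

private theorem lhc41 {c : Cu} (h : (rel 41).holds c) : 0 ≤ LV c 41 := by
  have h1 : ((1 : ℤ) : ℝ) * c.X 1 3 2 + ((1 : ℤ) : ℝ) * c.w 1 0 ≤ ((20 : ℤ) : ℝ) :=
    holds2 30 20 1 1 20 rfl h
  have h2 : LV c 41 = (((0 : ℕ) : ℝ) - ((1 : ℕ) : ℝ)) * c.X 1 3 2 + (((0 : ℕ) : ℝ) - ((1 : ℕ) : ℝ)) * c.w 1 0 + (((20 : ℕ) : ℝ) - ((0 : ℕ) : ℝ)) :=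
    LV2 c 41 34 0 1 24 0 1 20 0 rfl
  rw [h2]
  push_cast at h1 ⊢
  linarith only [h1]

private theorem lhc42 {c : Cu} (h : (rel 42).holds c) : 0 ≤ LV c 42 := by
  have h1 : ((1 : ℤ) : ℝ) * c.X 1 2 0 + ((1 : ℤ) : ℝ) * c.w 1 3 ≤ ((20 : ℤ) : ℝ) :=
    holds2 25 28 1 1 20 rfl h
  have h2 : LV c 42 = (((0 : ℕ) : ℝ) - ((1 : ℕ) : ℝ)) * c.X 1 2 0 + (((0 : ℕ) : ℝ) - ((1 : ℕ) : ℝ)) * c.w 1 3 + (((20 : ℕ) : ℝ) - ((0 : ℕ) : ℝ)) :=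
    LV2 c 42 29 0 1 32 0 1 20 0 rfl
  rw [h2]
  push_cast at h1 ⊢
  linarith only [h1]

private theorem lhc43 {c : Cu} (h : (rel 43).holds c) : 0 ≤ LV c 43 := by
  have h1 : ((1 : ℤ) : ℝ) * c.X 1 3 0 + ((1 : ℤ) : ℝ) * c.w 1 2 ≤ ((20 : ℤ) : ℝ) :=
    holds2 29 24 1 1 20 rfl h
  have h2 : LV c 43 = (((0 : ℕ) : ℝ) - ((1 : ℕ) : ℝ)) * c.X 1 3 0 + (((0 : ℕ) : ℝ) - ((1 : ℕ) : ℝ)) * c.w 1 2 + (((20 : ℕ) : ℝ) - ((0 : ℕ) : ℝ)) :=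
    LV2 c 43 33 0 1 28 0 1 20 0 rfl
  rw [h2]
  push_cast at h1 ⊢
  linarith only [h1]

private theorem lhc44 {c : Cu} (h : (rel 44).holds c) : 0 ≤ LV c 44 := by
  have h1 : ((1 : ℤ) : ℝ) * c.X 0 2 1 + ((1 : ℤ) : ℝ) * c.X 1 3 0 ≤ ((40 : ℤ) : ℝ) :=
    holds2 13 29 1 1 40 rfl h
  have h2 : LV c 44 = (((0 : ℕ) : ℝ) - ((1 : ℕ) : ℝ)) * c.X 0 2 1 + (((0 : ℕ) : ℝ) - ((1 : ℕ) : ℝ)) * c.X 1 3 0 + (((40 : ℕ) : ℝ) - ((0 : ℕ) : ℝ)) :=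
    LV2 c 44 17 0 1 33 0 1 40 0 rfl
  rw [h2]
  push_cast at h1 ⊢
  linarith only [h1]

private theorem lhc45 {c : Cu} (h : (rel 45).holds c) : 0 ≤ LV c 45 := by
  have h1 : ((1 : ℤ) : ℝ) * c.X 0 3 1 + ((1 : ℤ) : ℝ) * c.X 1 2 0 ≤ ((40 : ℤ) : ℝ) :=
    holds2 17 25 1 1 40 rfl h
  have h2 : LV c 45 = (((0 : ℕ) : ℝ) - ((1 : ℕ) : ℝ)) * c.X 0 3 1 + (((0 : ℕ) : ℝ) - ((1 : ℕ) : ℝ)) * c.X 1 2 0 + (((40 : ℕ) : ℝ) - ((0 : ℕ) : ℝ)) :=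
    LV2 c 45 21 0 1 29 0 1 40 0 rfl
  rw [h2]
  push_cast at h1 ⊢
  linarith only [h1]

private theorem lhc46 {c : Cu} (h : (rel 46).holds c) : 0 ≤ LV c 46 := by
  have h1 : ((1 : ℤ) : ℝ) * c.X 0 2 1 + ((-1 : ℤ) : ℝ) * c.D 1 2 ≤ ((0 : ℤ) : ℝ) :=
    holds2 13 27 1 (-1) 0 rfl h
  have h2 : LV c 46 = (((0 : ℕ) : ℝ) - ((1 : ℕ) : ℝ)) * c.X 0 2 1 + (((1 : ℕ) : ℝ) - ((0 : ℕ) : ℝ)) * c.D 1 2 + (((0 : ℕ) : ℝ) - ((0 : ℕ) : ℝ)) :=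
    LV2 c 46 17 0 1 31 1 0 0 0 rfl
  rw [h2]
  push_cast at h1 ⊢
  linarith only [h1]

private theorem lhc47 {c : Cu} (h : (rel 47).holds c) : 0 ≤ LV c 47 := by
  have h1 : ((1 : ℤ) : ℝ) * c.X 1 2 0 + ((-1 : ℤ) : ℝ) * c.D 0 2 ≤ ((0 : ℤ) : ℝ) :=
    holds2 25 15 1 (-1) 0 rfl h
  have h2 : LV c 47 = (((0 : ℕ) : ℝ) - ((1 : ℕ) : ℝ)) * c.X 1 2 0 + (((1 : ℕ) : ℝ) - ((0 : ℕ) : ℝ)) * c.D 0 2 + (((0 : ℕ) : ℝ) - ((0 : ℕ) : ℝ)) :=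
    LV2 c 47 29 0 1 19 1 0 0 0 rfl
  rw [h2]
  push_cast at h1 ⊢
  linarith only [h1]

private theorem lhc48 {c : Cu} (h : (rel 48).holds c) : 0 ≤ LV c 48 := by
  have h1 : ((1 : ℤ) : ℝ) * c.X 0 3 1 + ((-1 : ℤ) : ℝ) * c.D 1 3 ≤ ((0 : ℤ) : ℝ) :=
    holds2 17 31 1 (-1) 0 rfl h
  have h2 : LV c 48 = (((0 : ℕ) : ℝ) - ((1 : ℕ) : ℝ)) * c.X 0 3 1 + (((1 : ℕ) : ℝ) - ((0 : ℕ) : ℝ)) * c.D 1 3 + (((0 : ℕ) : ℝ) - ((0 : ℕ) : ℝ)) :=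
    LV2 c 48 21 0 1 35 1 0 0 0 rfl
  rw [h2]
  push_cast at h1 ⊢
  linarith only [h1]

private theorem lhc49 {c : Cu} (h : (rel 49).holds c) : 0 ≤ LV c 49 := by
  have h1 : ((1 : ℤ) : ℝ) * c.X 1 3 0 + ((-1 : ℤ) : ℝ) * c.D 0 3 ≤ ((0 : ℤ) : ℝ) :=
    holds2 29 19 1 (-1) 0 rfl h
  have h2 : LV c 49 = (((0 : ℕ) : ℝ) - ((1 : ℕ) : ℝ)) * c.X 1 3 0 + (((1 : ℕ) : ℝ) - ((0 : ℕ) : ℝ)) * c.D 0 3 + (((0 : ℕ) : ℝ) - ((0 : ℕ) : ℝ)) :=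
    LV2 c 49 33 0 1 23 1 0 0 0 rfl
  rw [h2]
  push_cast at h1 ⊢
  linarith only [h1]

private theorem lhc50 {c : Cu} (h : (rel 50).holds c) : 0 ≤ LV c 50 := by
  have h1 : ((1 : ℤ) : ℝ) * c.w 0 2 + ((-1 : ℤ) : ℝ) * c.w 1 2 ≤ ((0 : ℤ) : ℝ) :=
    holds2 12 24 1 (-1) 0 rfl h
  have h2 : LV c 50 = (((0 : ℕ) : ℝ) - ((1 : ℕ) : ℝ)) * c.w 0 2 + (((1 : ℕ) : ℝ) - ((0 : ℕ) : ℝ)) * c.w 1 2 + (((0 : ℕ) : ℝ) - ((0 : ℕ) : ℝ)) :=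
    LV2 c 50 16 0 1 28 1 0 0 0 rfl
  rw [h2]
  push_cast at h1 ⊢
  linarith only [h1]

private theorem lhc51 {c : Cu} (h : (rel 51).holds c) : 0 ≤ LV c 51 := by
  have h1 : ((1 : ℤ) : ℝ) * c.X 0 2 1 + ((-1 : ℤ) : ℝ) * c.D 1 2 + ((-1 : ℤ) : ℝ) * c.w 1 2 ≤ ((-20 : ℤ) : ℝ) :=
    holds3 13 27 24 1 (-1) (-1) (-20) rfl h
  have h2 : LV c 51 = (((0 : ℕ) : ℝ) - ((1 : ℕ) : ℝ)) * c.X 0 2 1 + (((1 : ℕ) : ℝ) - ((0 : ℕ) : ℝ)) * c.D 1 2 + (((1 : ℕ) : ℝ) - ((0 : ℕ) : ℝ)) * c.w 1 2 + (((0 : ℕ) : ℝ) - ((20 : ℕ) : ℝ)) :=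
    LV3 c 51 17 0 1 31 1 0 28 1 0 0 20 rfl
  rw [h2]
  push_cast at h1 ⊢
  linarith only [h1]

private theorem lhc52 {c : Cu} (h : (rel 52).holds c) : 0 ≤ LV c 52 := by
  have h1 : ((1 : ℤ) : ℝ) * c.X 1 2 0 + ((-1 : ℤ) : ℝ) * c.D 0 2 + ((-1 : ℤ) : ℝ) * c.w 1 2 ≤ ((-20 : ℤ) : ℝ) :=
    holds3 25 15 24 1 (-1) (-1) (-20) rfl h
  have h2 : LV c 52 = (((0 : ℕ) : ℝ) - ((1 : ℕ) : ℝ)) * c.X 1 2 0 + (((1 : ℕ) : ℝ) - ((0 : ℕ) : ℝ)) * c.D 0 2 + (((1 : ℕ) : ℝ) - ((0 : ℕ) : ℝ)) * c.w 1 2 + (((0 : ℕ) : ℝ) - ((20 : ℕ) : ℝ)) :=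
    LV3 c 52 29 0 1 19 1 0 28 1 0 0 20 rfl
  rw [h2]
  push_cast at h1 ⊢
  linarith only [h1]

private theorem lhc53 {c : Cu} (h : (rel 53).holds c) : 0 ≤ LV c 53 := by
  have h1 : ((1 : ℤ) : ℝ) * c.w 1 2 + ((-1 : ℤ) : ℝ) * c.w 0 2 ≤ ((0 : ℤ) : ℝ) :=
    holds2 24 12 1 (-1) 0 rfl h
  have h2 : LV c 53 = (((0 : ℕ) : ℝ) - ((1 : ℕ) : ℝ)) * c.w 1 2 + (((1 : ℕ) : ℝ) - ((0 : ℕ) : ℝ)) * c.w 0 2 + (((0 : ℕ) : ℝ) - ((0 : ℕ) : ℝ)) :=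
    LV2 c 53 28 0 1 16 1 0 0 0 rfl
  rw [h2]
  push_cast at h1 ⊢
  linarith only [h1]

private theorem lhc54 {c : Cu} (h : (rel 54).holds c) : 0 ≤ LV c 54 := by
  have h1 : ((1 : ℤ) : ℝ) * c.X 0 2 1 + ((-1 : ℤ) : ℝ) * c.D 1 2 + ((-1 : ℤ) : ℝ) * c.w 0 2 ≤ ((-20 : ℤ) : ℝ) :=
    holds3 13 27 12 1 (-1) (-1) (-20) rfl h
  have h2 : LV c 54 = (((0 : ℕ) : ℝ) - ((1 : ℕ) : ℝ)) * c.X 0 2 1 + (((1 : ℕ) : ℝ) - ((0 : ℕ) : ℝ)) * c.D 1 2 + (((1 : ℕ) : ℝ) - ((0 : ℕ) : ℝ)) * c.w 0 2 + (((0 : ℕ) : ℝ) - ((20 : ℕ) : ℝ)) :=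
    LV3 c 54 17 0 1 31 1 0 16 1 0 0 20 rfl
  rw [h2]
  push_cast at h1 ⊢
  linarith only [h1]

private theorem lhc55 {c : Cu} (h : (rel 55).holds c) : 0 ≤ LV c 55 := by
  have h1 : ((1 : ℤ) : ℝ) * c.X 1 2 0 + ((-1 : ℤ) : ℝ) * c.D 0 2 + ((-1 : ℤ) : ℝ) * c.w 0 2 ≤ ((-20 : ℤ) : ℝ) :=
    holds3 25 15 12 1 (-1) (-1) (-20) rfl h
  have h2 : LV c 55 = (((0 : ℕ) : ℝ) - ((1 : ℕ) : ℝ)) * c.X 1 2 0 + (((1 : ℕ) : ℝ) - ((0 : ℕ) : ℝ)) * c.D 0 2 + (((1 : ℕ) : ℝ) - ((0 : ℕ) : ℝ)) * c.w 0 2 + (((0 : ℕ) : ℝ) - ((20 : ℕ) : ℝ)) :=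
    LV3 c 55 29 0 1 19 1 0 16 1 0 0 20 rfl
  rw [h2]
  push_cast at h1 ⊢
  linarith only [h1]

private theorem lhc56 {c : Cu} (h : (rel 56).holds c) : 0 ≤ LV c 56 := by
  have h1 : ((1 : ℤ) : ℝ) * c.w 0 3 + ((-1 : ℤ) : ℝ) * c.w 1 3 ≤ ((0 : ℤ) : ℝ) :=
    holds2 16 28 1 (-1) 0 rfl h
  have h2 : LV c 56 = (((0 : ℕ) : ℝ) - ((1 : ℕ) : ℝ)) * c.w 0 3 + (((1 : ℕ) : ℝ) - ((0 : ℕ) : ℝ)) * c.w 1 3 + (((0 : ℕ) : ℝ) - ((0 : ℕ) : ℝ)) :=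
    LV2 c 56 20 0 1 32 1 0 0 0 rfl
  rw [h2]
  push_cast at h1 ⊢
  linarith only [h1]

private theorem lhc57 {c : Cu} (h : (rel 57).holds c) : 0 ≤ LV c 57 := by
  have h1 : ((1 : ℤ) : ℝ) * c.X 0 3 1 + ((-1 : ℤ) : ℝ) * c.D 1 3 + ((-1 : ℤ) : ℝ) * c.w 1 3 ≤ ((-20 : ℤ) : ℝ) :=
    holds3 17 31 28 1 (-1) (-1) (-20) rfl h
  have h2 : LV c 57 = (((0 : ℕ) : ℝ) - ((1 : ℕ) : ℝ)) * c.X 0 3 1 + (((1 : ℕ) : ℝ) - ((0 : ℕ) : ℝ)) * c.D 1 3 + (((1 : ℕ) : ℝ) - ((0 : ℕ) : ℝ)) * c.w 1 3 + (((0 : ℕ) : ℝ) - ((20 : ℕ) : ℝ)) :=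
    LV3 c 57 21 0 1 35 1 0 32 1 0 0 20 rfl
  rw [h2]
  push_cast at h1 ⊢
  linarith only [h1]

private theorem lhc58 {c : Cu} (h : (rel 58).holds c) : 0 ≤ LV c 58 := by
  have h1 : ((1 : ℤ) : ℝ) * c.X 1 3 0 + ((-1 : ℤ) : ℝ) * c.D 0 3 + ((-1 : ℤ) : ℝ) * c.w 1 3 ≤ ((-20 : ℤ) : ℝ) :=
    holds3 29 19 28 1 (-1) (-1) (-20) rfl h
  have h2 : LV c 58 = (((0 : ℕ) : ℝ) - ((1 : ℕ) : ℝ)) * c.X 1 3 0 + (((1 : ℕ) : ℝ) - ((0 : ℕ) : ℝ)) * c.D 0 3 + (((1 : ℕ) : ℝ) - ((0 : ℕ) : ℝ)) * c.w 1 3 + (((0 : ℕ) : ℝ) - ((20 : ℕ) : ℝ)) :=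
    LV3 c 58 33 0 1 23 1 0 32 1 0 0 20 rfl
  rw [h2]
  push_cast at h1 ⊢
  linarith only [h1]

private theorem lhc59 {c : Cu} (h : (rel 59).holds c) : 0 ≤ LV c 59 := by
  have h1 : ((1 : ℤ) : ℝ) * c.w 1 3 + ((-1 : ℤ) : ℝ) * c.w 0 3 ≤ ((0 : ℤ) : ℝ) :=
    holds2 28 16 1 (-1) 0 rfl h
  have h2 : LV c 59 = (((0 : ℕ) : ℝ) - ((1 : ℕ) : ℝ)) * c.w 1 3 + (((1 : ℕ) : ℝ) - ((0 : ℕ) : ℝ)) * c.w 0 3 + (((0 : ℕ) : ℝ) - ((0 : ℕ) : ℝ)) :=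
    LV2 c 59 32 0 1 20 1 0 0 0 rfl
  rw [h2]
  push_cast at h1 ⊢
  linarith only [h1]

private theorem lhc60 {c : Cu} (h : (rel 60).holds c) : 0 ≤ LV c 60 := by
  have h1 : ((1 : ℤ) : ℝ) * c.X 0 3 1 + ((-1 : ℤ) : ℝ) * c.D 1 3 + ((-1 : ℤ) : ℝ) * c.w 0 3 ≤ ((-20 : ℤ) : ℝ) :=
    holds3 17 31 16 1 (-1) (-1) (-20) rfl h
  have h2 : LV c 60 = (((0 : ℕ) : ℝ) - ((1 : ℕ) : ℝ)) * c.X 0 3 1 + (((1 : ℕ) : ℝ) - ((0 : ℕ) : ℝ)) * c.D 1 3 + (((1 : ℕ) : ℝ) - ((0 : ℕ) : ℝ)) * c.w 0 3 + (((0 : ℕ) : ℝ) - ((20 : ℕ) : ℝ)) :=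
    LV3 c 60 21 0 1 35 1 0 20 1 0 0 20 rfl
  rw [h2]
  push_cast at h1 ⊢
  linarith only [h1]

private theorem lhc61 {c : Cu} (h : (rel 61).holds c) : 0 ≤ LV c 61 := by
  have h1 : ((1 : ℤ) : ℝ) * c.X 1 3 0 + ((-1 : ℤ) : ℝ) * c.D 0 3 + ((-1 : ℤ) : ℝ) * c.w 0 3 ≤ ((-20 : ℤ) : ℝ) :=
    holds3 29 19 16 1 (-1) (-1) (-20) rfl h
  have h2 : LV c 61 = (((0 : ℕ) : ℝ) - ((1 : ℕ) : ℝ)) * c.X 1 3 0 + (((1 : ℕ) : ℝ) - ((0 : ℕ) : ℝ)) * c.D 0 3 + (((1 : ℕ) : ℝ) - ((0 : ℕ) : ℝ)) * c.w 0 3 + (((0 : ℕ) : ℝ) - ((20 : ℕ) : ℝ)) :=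
    LV3 c 61 33 0 1 23 1 0 20 1 0 0 20 rfl
  rw [h2]
  push_cast at h1 ⊢
  linarith only [h1]

private theorem lhc62 {c : Cu} (h : (rel 62).holds c) : 0 ≤ LV c 62 := by
  have h1 : ((25 : ℤ) : ℝ) * c.e 2 + ((25 : ℤ) : ℝ) * c.e 3 ≤ ((226 : ℤ) : ℝ) :=
    holds2 3 7 25 25 226 rfl h
  have h2 : LV c 62 = (((25 : ℕ) : ℝ) - ((0 : ℕ) : ℝ)) * (20 - c.e 2) + (((25 : ℕ) : ℝ) - ((0 : ℕ) : ℝ)) * (20 - c.e 3) + (((0 : ℕ) : ℝ) - ((774 : ℕ) : ℝ)) :=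
    LV2 c 62 5 25 0 11 25 0 0 774 rfl
  rw [h2]
  push_cast at h1 ⊢
  linarith only [h1]

theorem lh_of_rel {c : Cu} : ∀ k, (rel k).holds c → 0 ≤ LV c k
  | 0 => lhc0
  | 1 => lhc1
  | 2 => lhc2
  | 3 => lhc3
  | 4 => lhc4
  | 5 => lhc5
  | 6 => lhc6
  | 7 => lhc7
  | 8 => lhc8
  | 9 => lhc9
  | 10 => lhc10
  | 11 => lhc11
  | 12 => lhc12
  | 13 => lhc13
  | 14 => lhc14
  | 15 => lhc15
  | 16 => lhc16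
  | 17 => lhc17
  | 18 => lhc18
  | 19 => lhc19
  | 20 => lhc20
  | 21 => lhc21
  | 22 => lhc22
  | 23 => lhc23
  | 24 => lhc24
  | 25 => lhc25
  | 26 => lhc26
  | 27 => lhc27
  | 28 => lhc28
  | 29 => lhc29
  | 30 => lhc30
  | 31 => lhc31
  | 32 => lhc32
  | 33 => lhc33
  | 34 => lhc34
  | 35 => lhc35
  | 36 => lhc36
  | 37 => lhc37
  | 38 => lhc38
  | 39 => lhc39
  | 40 => lhc40
  | 41 => lhc41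
  | 42 => lhc42
  | 43 => lhc43
  | 44 => lhc44
  | 45 => lhc45
  | 46 => lhc46
  | 47 => lhc47
  | 48 => lhc48
  | 49 => lhc49
  | 50 => lhc50
  | 51 => lhc51
  | 52 => lhc52
  | 53 => lhc53
  | 54 => lhc54
  | 55 => lhc55
  | 56 => lhc56
  | 57 => lhc57
  | 58 => lhc58
  | 59 => lhc59
  | 60 => lhc60
  | 61 => lhc61
  | 62 => lhc62
  | k + 63 => fun _ => by
    have e : lr (k + 63) = ([], 0, 0) := rfl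
    norm_num [LV, e]

private theorem cv_zero (x : ℝ) : cv 0 x = x := if_pos rfl

private theorem cv_one (x : ℝ) : cv 1 x = 20 := by
  unfold cv
  norm_num

private theorem cv_big (C : ℕ) (hC : 2 ≤ C) (x : ℝ) : cv C x = (C : ℝ) - 40 - x := by
  unfold cv
  rw [if_neg (by omega), if_neg (by omega)]

private theorem fhold_of {c : Cu} (k hs hd ls lc : ℕ) (e : fr k = ⟨hs, hd, false, ls, lc⟩)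
    (h : cv lc (sl c ls) ≤ cv hd (sl c hs)) : FHold c k := by
  unfold FHold loV hiV hcode
  rw [e]
  exact h

theorem fhold_zero {c : Cu} {k : ℕ} (h : fr k = fr0) : FHold c k := by
  unfold FHold loV hiV hcode
  rw [h]
  norm_num [fr0, cv]

section

variable {c : Cu}

/-- kind A of `(0; 1)` on the row `2`, for `D < 11` only -/
theorem fh0 (hc : c.Ok) (h : c.D 0 1 < 11 → c.v 2 1 + c.X 0 1 2 ≤ 20) : FHold c 0 := by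
  have h1 := hc.hi 2 1 (by decide) (by decide)
  have h2 := hc.e0 2 (by decide)
  by_cases h3 : c.D 0 1 < 11
  · have h4 : cpd c (fr 0).hs = true := cpd_true h3
    have := h h3
    unfold FHold loV hiV
    rw [h4]
    change cv 0 (c.v 2 1) ≤ cv 60 (c.X 0 1 2)
    rw [cv_zero, cv_big 60 (by norm_num)]
    push_cast
    linarith
  · have h4 : cpd c (fr 0).hs = false := cpd_false h3
    unfold FHold loV hiV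
    rw [h4]
    change cv 0 (c.v 2 1) ≤ cv 1 (c.X 0 1 2)
    rw [cv_zero, cv_one]
    linarith

/-- kind A of `(0; 1)` on the row `3`, for `D < 11` only -/
theorem fh1 (hc : c.Ok) (h : c.D 0 1 < 11 → c.v 3 1 + c.X 0 1 3 ≤ 20) : FHold c 1 := by
  have h1 := hc.hi 3 1 (by decide) (by decide)
  have h2 := hc.e0 3 (by decide)
  by_cases h3 : c.D 0 1 < 11
  · have h4 : cpd c (fr 1).hs = true := cpd_true h3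
    have := h h3
    unfold FHold loV hiV
    rw [h4]
    change cv 0 (c.v 3 1) ≤ cv 60 (c.X 0 1 3)
    rw [cv_zero, cv_big 60 (by norm_num)]
    push_cast
    linarith
  · have h4 : cpd c (fr 1).hs = false := cpd_false h3
    unfold FHold loV hiV
    rw [h4]
    change cv 0 (c.v 3 1) ≤ cv 1 (c.X 0 1 3)
    rw [cv_zero, cv_one]
    linarith

/-- kind A of `(0; 2)` on the row `3`, for `D < 11` only -/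
theorem fh2 (hc : c.Ok) (h : c.D 0 2 < 11 → c.v 3 2 + c.X 0 2 3 ≤ 20) : FHold c 2 := by
  have h1 := hc.hi 3 2 (by decide) (by decide)
  have h2 := hc.e0 3 (by decide)
  by_cases h3 : c.D 0 2 < 11
  · have h4 : cpd c (fr 2).hs = true := cpd_true h3
    have := h h3
    unfold FHold loV hiV
    rw [h4]
    change cv 0 (c.v 3 2) ≤ cv 60 (c.X 0 2 3)
    rw [cv_zero, cv_big 60 (by norm_num)]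
    push_cast
    linarith
  · have h4 : cpd c (fr 2).hs = false := cpd_false h3
    unfold FHold loV hiV
    rw [h4]
    change cv 0 (c.v 3 2) ≤ cv 1 (c.X 0 2 3)
    rw [cv_zero, cv_one]
    linarith

/-- kind A of `(0; 3)` on the row `2`, for `D < 11` only -/
theorem fh3 (hc : c.Ok) (h : c.D 0 3 < 11 → c.v 2 3 + c.X 0 3 2 ≤ 20) : FHold c 3 := by
  have h1 := hc.hi 2 3 (by decide) (by decide)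
  have h2 := hc.e0 2 (by decide)
  by_cases h3 : c.D 0 3 < 11
  · have h4 : cpd c (fr 3).hs = true := cpd_true h3
    have := h h3
    unfold FHold loV hiV
    rw [h4]
    change cv 0 (c.v 2 3) ≤ cv 60 (c.X 0 3 2)
    rw [cv_zero, cv_big 60 (by norm_num)]
    push_cast
    linarith
  · have h4 : cpd c (fr 3).hs = false := cpd_false h3
    unfold FHold loV hiV
    rw [h4]
    change cv 0 (c.v 2 3) ≤ cv 1 (c.X 0 3 2)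
    rw [cv_zero, cv_one]
    linarith

/-- kind A of `(1; 0)` on the row `2`, for `D < 11` only -/
theorem fh4 (hc : c.Ok) (h : c.D 1 0 < 11 → c.v 2 0 + c.X 1 0 2 ≤ 20) : FHold c 4 := by
  have h1 := hc.hi 2 0 (by decide) (by decide)
  have h2 := hc.e0 2 (by decide)
  by_cases h3 : c.D 1 0 < 11
  · have h4 : cpd c (fr 4).hs = true := cpd_true h3
    have := h h3
    unfold FHold loV hiV
    rw [h4]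
    change cv 0 (c.v 2 0) ≤ cv 60 (c.X 1 0 2)
    rw [cv_zero, cv_big 60 (by norm_num)]
    push_cast
    linarith
  · have h4 : cpd c (fr 4).hs = false := cpd_false h3
    unfold FHold loV hiV
    rw [h4]
    change cv 0 (c.v 2 0) ≤ cv 1 (c.X 1 0 2)
    rw [cv_zero, cv_one]
    linarith

/-- kind A of `(1; 0)` on the row `3`, for `D < 11` only -/
theorem fh5 (hc : c.Ok) (h : c.D 1 0 < 11 → c.v 3 0 + c.X 1 0 3 ≤ 20) : FHold c 5 := by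
  have h1 := hc.hi 3 0 (by decide) (by decide)
  have h2 := hc.e0 3 (by decide)
  by_cases h3 : c.D 1 0 < 11
  · have h4 : cpd c (fr 5).hs = true := cpd_true h3
    have := h h3
    unfold FHold loV hiV
    rw [h4]
    change cv 0 (c.v 3 0) ≤ cv 60 (c.X 1 0 3)
    rw [cv_zero, cv_big 60 (by norm_num)]
    push_cast
    linarith
  · have h4 : cpd c (fr 5).hs = false := cpd_false h3
    unfold FHold loV hiV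
    rw [h4]
    change cv 0 (c.v 3 0) ≤ cv 1 (c.X 1 0 3)
    rw [cv_zero, cv_one]
    linarith

/-- kind A of `(1; 2)` on the row `3`, for `D < 11` only -/
theorem fh6 (hc : c.Ok) (h : c.D 1 2 < 11 → c.v 3 2 + c.X 1 2 3 ≤ 20) : FHold c 6 := by
  have h1 := hc.hi 3 2 (by decide) (by decide)
  have h2 := hc.e0 3 (by decide)
  by_cases h3 : c.D 1 2 < 11
  · have h4 : cpd c (fr 6).hs = true := cpd_true h3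
    have := h h3
    unfold FHold loV hiV
    rw [h4]
    change cv 0 (c.v 3 2) ≤ cv 60 (c.X 1 2 3)
    rw [cv_zero, cv_big 60 (by norm_num)]
    push_cast
    linarith
  · have h4 : cpd c (fr 6).hs = false := cpd_false h3
    unfold FHold loV hiV
    rw [h4]
    change cv 0 (c.v 3 2) ≤ cv 1 (c.X 1 2 3)
    rw [cv_zero, cv_one]
    linarith

/-- kind A of `(1; 3)` on the row `2`, for `D < 11` only -/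
theorem fh7 (hc : c.Ok) (h : c.D 1 3 < 11 → c.v 2 3 + c.X 1 3 2 ≤ 20) : FHold c 7 := by
  have h1 := hc.hi 2 3 (by decide) (by decide)
  have h2 := hc.e0 2 (by decide)
  by_cases h3 : c.D 1 3 < 11
  · have h4 : cpd c (fr 7).hs = true := cpd_true h3
    have := h h3
    unfold FHold loV hiV
    rw [h4]
    change cv 0 (c.v 2 3) ≤ cv 60 (c.X 1 3 2)
    rw [cv_zero, cv_big 60 (by norm_num)]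
    push_cast
    linarith
  · have h4 : cpd c (fr 7).hs = false := cpd_false h3
    unfold FHold loV hiV
    rw [h4]
    change cv 0 (c.v 2 3) ≤ cv 1 (c.X 1 3 2)
    rw [cv_zero, cv_one]
    linarith

private theorem fhr0 (hc : c.Ok) (h : (rel 0).holds c) : FHold c 0 := by
  have h1 : ((1 : ℤ) : ℝ) * c.v 2 1 + ((1 : ℤ) : ℝ) * c.X 0 1 2 ≤ ((20 : ℤ) : ℝ) :=
    holds2 1 9 1 1 20 rfl h
  push_cast at h1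
  exact fh0 hc fun _ => by linarith only [h1]

private theorem fhr1 (hc : c.Ok) (h : (rel 1).holds c) : FHold c 1 := by
  have h1 : ((1 : ℤ) : ℝ) * c.v 3 1 + ((1 : ℤ) : ℝ) * c.X 0 1 3 ≤ ((20 : ℤ) : ℝ) :=
    holds2 5 10 1 1 20 rfl h
  push_cast at h1
  exact fh1 hc fun _ => by linarith only [h1]

private theorem fhr2 (hc : c.Ok) (h : (rel 2).holds c) : FHold c 2 := by
  have h1 : ((1 : ℤ) : ℝ) * c.v 3 2 + ((1 : ℤ) : ℝ) * c.X 0 2 3 ≤ ((20 : ℤ) : ℝ) :=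
    holds2 6 14 1 1 20 rfl h
  push_cast at h1
  exact fh2 hc fun _ => by linarith only [h1]

private theorem fhr3 (hc : c.Ok) (h : (rel 3).holds c) : FHold c 3 := by
  have h1 : ((1 : ℤ) : ℝ) * c.v 2 3 + ((1 : ℤ) : ℝ) * c.X 0 3 2 ≤ ((20 : ℤ) : ℝ) :=
    holds2 2 18 1 1 20 rfl h
  push_cast at h1
  exact fh3 hc fun _ => by linarith only [h1]

private theorem fhr4 (hc : c.Ok) (h : (rel 4).holds c) : FHold c 4 := by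
  have h1 : ((1 : ℤ) : ℝ) * c.v 2 0 + ((1 : ℤ) : ℝ) * c.X 1 0 2 ≤ ((20 : ℤ) : ℝ) :=
    holds2 0 21 1 1 20 rfl h
  push_cast at h1
  exact fh4 hc fun _ => by linarith only [h1]

private theorem fhr5 (hc : c.Ok) (h : (rel 5).holds c) : FHold c 5 := by
  have h1 : ((1 : ℤ) : ℝ) * c.v 3 0 + ((1 : ℤ) : ℝ) * c.X 1 0 3 ≤ ((20 : ℤ) : ℝ) :=
    holds2 4 22 1 1 20 rfl h
  push_cast at h1
  exact fh5 hc fun _ => by linarith only [h1]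

private theorem fhr6 (hc : c.Ok) (h : (rel 6).holds c) : FHold c 6 := by
  have h1 : ((1 : ℤ) : ℝ) * c.v 3 2 + ((1 : ℤ) : ℝ) * c.X 1 2 3 ≤ ((20 : ℤ) : ℝ) :=
    holds2 6 26 1 1 20 rfl h
  push_cast at h1
  exact fh6 hc fun _ => by linarith only [h1]

private theorem fhr7 (hc : c.Ok) (h : (rel 7).holds c) : FHold c 7 := by
  have h1 : ((1 : ℤ) : ℝ) * c.v 2 3 + ((1 : ℤ) : ℝ) * c.X 1 3 2 ≤ ((20 : ℤ) : ℝ) :=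
    holds2 2 30 1 1 20 rfl h
  push_cast at h1
  exact fh7 hc fun _ => by linarith only [h1]

private theorem fhr8 (hc : c.Ok) (h : (rel 8).holds c) : FHold c 8 := by
  have e1 := hc.vs 2 0 1 3 (by decide) (by decide)
  have e2 := hc.e0 2 (by decide)
  have h1 : ((1 : ℤ) : ℝ) * c.v 2 1 + ((1 : ℤ) : ℝ) * c.v 2 3 + ((-1 : ℤ) : ℝ) * c.v 2 0 + ((-2 : ℤ) : ℝ) * c.D 0 1 ≤ ((-20 : ℤ) : ℝ) :=
    holds4 1 2 0 11 1 1 (-1) (-2) (-20) rfl h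
  refine fhold_of 8 15 0 3 0 rfl ?_
  change cv 0 (c.v 2 1 + c.v 2 3) ≤ cv 0 (c.D 0 1)
  rw [cv_zero, cv_zero]
  push_cast at h1
  linarith only [h1, e1, e2]

private theorem fhr9 (hc : c.Ok) (h : (rel 9).holds c) : FHold c 9 := by
  have e1 := hc.vs 3 0 1 2 (by decide) (by decide)
  have e2 := hc.e0 3 (by decide)
  have h1 : ((1 : ℤ) : ℝ) * c.v 3 1 + ((1 : ℤ) : ℝ) * c.v 3 2 + ((-1 : ℤ) : ℝ) * c.v 3 0 + ((-2 : ℤ) : ℝ) * c.D 0 1 ≤ ((-20 : ℤ) : ℝ) :=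
    holds4 5 6 4 11 1 1 (-1) (-2) (-20) rfl h
  refine fhold_of 9 15 0 10 0 rfl ?_
  change cv 0 (c.v 3 2 + c.v 3 1) ≤ cv 0 (c.D 0 1)
  rw [cv_zero, cv_zero]
  push_cast at h1
  linarith only [h1, e1, e2]

private theorem fhr10 (hc : c.Ok) (h : (rel 10).holds c) : FHold c 10 := by
  have e1 := hc.vs 3 0 2 1 (by decide) (by decide)
  have e2 := hc.e0 3 (by decide)
  have h1 : ((1 : ℤ) : ℝ) * c.v 3 2 + ((1 : ℤ) : ℝ) * c.v 3 1 + ((-1 : ℤ) : ℝ) * c.v 3 0 + ((-2 : ℤ) : ℝ) * c.D 0 2 ≤ ((-20 : ℤ) : ℝ) :=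
    holds4 6 5 4 15 1 1 (-1) (-2) (-20) rfl h
  refine fhold_of 10 19 0 10 0 rfl ?_
  change cv 0 (c.v 3 2 + c.v 3 1) ≤ cv 0 (c.D 0 2)
  rw [cv_zero, cv_zero]
  push_cast at h1
  linarith only [h1, e1, e2]

private theorem fhr11 (hc : c.Ok) (h : (rel 11).holds c) : FHold c 11 := by
  have e1 := hc.vs 2 0 3 1 (by decide) (by decide)
  have e2 := hc.e0 2 (by decide)
  have h1 : ((1 : ℤ) : ℝ) * c.v 2 3 + ((1 : ℤ) : ℝ) * c.v 2 1 + ((-1 : ℤ) : ℝ) * c.v 2 0 + ((-2 : ℤ) : ℝ) * c.D 0 3 ≤ ((-20 : ℤ) : ℝ) :=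
    holds4 2 1 0 19 1 1 (-1) (-2) (-20) rfl h
  refine fhold_of 11 23 0 3 0 rfl ?_
  change cv 0 (c.v 2 1 + c.v 2 3) ≤ cv 0 (c.D 0 3)
  rw [cv_zero, cv_zero]
  push_cast at h1
  linarith only [h1, e1, e2]

private theorem fhr12 (hc : c.Ok) (h : (rel 12).holds c) : FHold c 12 := by
  have e1 := hc.vs 2 1 0 3 (by decide) (by decide)
  have e2 := hc.e0 2 (by decide)
  have h1 : ((1 : ℤ) : ℝ) * c.v 2 0 + ((1 : ℤ) : ℝ) * c.v 2 3 + ((-1 : ℤ) : ℝ) * c.v 2 1 + ((-2 : ℤ) : ℝ) * c.D 1 0 ≤ ((-20 : ℤ) : ℝ) :=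
    holds4 0 2 1 23 1 1 (-1) (-2) (-20) rfl h
  refine fhold_of 12 27 0 4 0 rfl ?_
  change cv 0 (c.v 2 3 + c.v 2 0) ≤ cv 0 (c.D 1 0)
  rw [cv_zero, cv_zero]
  push_cast at h1
  linarith only [h1, e1, e2]

private theorem fhr13 (hc : c.Ok) (h : (rel 13).holds c) : FHold c 13 := by
  have e1 := hc.vs 3 1 0 2 (by decide) (by decide)
  have e2 := hc.e0 3 (by decide)
  have h1 : ((1 : ℤ) : ℝ) * c.v 3 0 + ((1 : ℤ) : ℝ) * c.v 3 2 + ((-1 : ℤ) : ℝ) * c.v 3 1 + ((-2 : ℤ) : ℝ) * c.D 1 0 ≤ ((-20 : ℤ) : ℝ) :=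
    holds4 4 6 5 23 1 1 (-1) (-2) (-20) rfl h
  refine fhold_of 13 27 0 9 0 rfl ?_
  change cv 0 (c.v 3 0 + c.v 3 2) ≤ cv 0 (c.D 1 0)
  rw [cv_zero, cv_zero]
  push_cast at h1
  linarith only [h1, e1, e2]

private theorem fhr14 (hc : c.Ok) (h : (rel 14).holds c) : FHold c 14 := by
  have e1 := hc.vs 3 1 2 0 (by decide) (by decide)
  have e2 := hc.e0 3 (by decide)
  have h1 : ((1 : ℤ) : ℝ) * c.v 3 2 + ((1 : ℤ) : ℝ) * c.v 3 0 + ((-1 : ℤ) : ℝ) * c.v 3 1 + ((-2 : ℤ) : ℝ) * c.D 1 2 ≤ ((-20 : ℤ) : ℝ) :=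
    holds4 6 4 5 27 1 1 (-1) (-2) (-20) rfl h
  refine fhold_of 14 31 0 9 0 rfl ?_
  change cv 0 (c.v 3 0 + c.v 3 2) ≤ cv 0 (c.D 1 2)
  rw [cv_zero, cv_zero]
  push_cast at h1
  linarith only [h1, e1, e2]

private theorem fhr15 (hc : c.Ok) (h : (rel 15).holds c) : FHold c 15 := by
  have e1 := hc.vs 2 1 3 0 (by decide) (by decide)
  have e2 := hc.e0 2 (by decide)
  have h1 : ((1 : ℤ) : ℝ) * c.v 2 3 + ((1 : ℤ) : ℝ) * c.v 2 0 + ((-1 : ℤ) : ℝ) * c.v 2 1 + ((-2 : ℤ) : ℝ) * c.D 1 3 ≤ ((-20 : ℤ) : ℝ) :=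
    holds4 2 0 1 31 1 1 (-1) (-2) (-20) rfl h
  refine fhold_of 15 35 0 4 0 rfl ?_
  change cv 0 (c.v 2 3 + c.v 2 0) ≤ cv 0 (c.D 1 3)
  rw [cv_zero, cv_zero]
  push_cast at h1
  linarith only [h1, e1, e2]

private theorem fhr16 (hc : c.Ok) (h : (rel 16).holds c) : FHold c 16 := by
  have h1 : ((-1 : ℤ) : ℝ) * c.v 2 1 + ((-1 : ℤ) : ℝ) * c.X 0 1 2 ≤ ((-20 : ℤ) : ℝ) :=
    holds2 1 9 (-1) (-1) (-20) rfl h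
  refine fhold_of 16 0 0 13 60 rfl ?_
  change cv 60 (c.X 0 1 2) ≤ cv 0 (c.v 2 1)
  rw [cv_big 60 (by norm_num), cv_zero]
  push_cast at h1 ⊢
  linarith only [h1]

private theorem fhr17 (hc : c.Ok) (h : (rel 17).holds c) : FHold c 17 := by
  have h1 : ((-1 : ℤ) : ℝ) * c.v 3 1 + ((-1 : ℤ) : ℝ) * c.X 0 1 3 ≤ ((-20 : ℤ) : ℝ) :=
    holds2 5 10 (-1) (-1) (-20) rfl h
  refine fhold_of 17 8 0 14 60 rfl ?_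
  change cv 60 (c.X 0 1 3) ≤ cv 0 (c.v 3 1)
  rw [cv_big 60 (by norm_num), cv_zero]
  push_cast at h1 ⊢
  linarith only [h1]

private theorem fhr18 (hc : c.Ok) (h : (rel 18).holds c) : FHold c 18 := by
  have h1 : ((-1 : ℤ) : ℝ) * c.v 3 2 + ((-1 : ℤ) : ℝ) * c.X 0 2 3 ≤ ((-20 : ℤ) : ℝ) :=
    holds2 6 14 (-1) (-1) (-20) rfl h
  refine fhold_of 18 7 0 18 60 rfl ?_
  change cv 60 (c.X 0 2 3) ≤ cv 0 (c.v 3 2)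
  rw [cv_big 60 (by norm_num), cv_zero]
  push_cast at h1 ⊢
  linarith only [h1]

private theorem fhr19 (hc : c.Ok) (h : (rel 19).holds c) : FHold c 19 := by
  have h1 : ((-1 : ℤ) : ℝ) * c.v 2 3 + ((-1 : ℤ) : ℝ) * c.X 0 3 2 ≤ ((-20 : ℤ) : ℝ) :=
    holds2 2 18 (-1) (-1) (-20) rfl h
  refine fhold_of 19 1 0 22 60 rfl ?_
  change cv 60 (c.X 0 3 2) ≤ cv 0 (c.v 2 3)
  rw [cv_big 60 (by norm_num), cv_zero]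
  push_cast at h1 ⊢
  linarith only [h1]

private theorem fhr20 (hc : c.Ok) (h : (rel 20).holds c) : FHold c 20 := by
  have h1 : ((-1 : ℤ) : ℝ) * c.v 2 0 + ((-1 : ℤ) : ℝ) * c.X 1 0 2 ≤ ((-20 : ℤ) : ℝ) :=
    holds2 0 21 (-1) (-1) (-20) rfl h
  refine fhold_of 20 2 0 25 60 rfl ?_
  change cv 60 (c.X 1 0 2) ≤ cv 0 (c.v 2 0)
  rw [cv_big 60 (by norm_num), cv_zero]
  push_cast at h1 ⊢
  linarith only [h1]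

private theorem fhr21 (hc : c.Ok) (h : (rel 21).holds c) : FHold c 21 := by
  have h1 : ((-1 : ℤ) : ℝ) * c.v 3 0 + ((-1 : ℤ) : ℝ) * c.X 1 0 3 ≤ ((-20 : ℤ) : ℝ) :=
    holds2 4 22 (-1) (-1) (-20) rfl h
  refine fhold_of 21 6 0 26 60 rfl ?_
  change cv 60 (c.X 1 0 3) ≤ cv 0 (c.v 3 0)
  rw [cv_big 60 (by norm_num), cv_zero]
  push_cast at h1 ⊢
  linarith only [h1]

private theorem fhr22 (hc : c.Ok) (h : (rel 22).holds c) : FHold c 22 := by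
  have h1 : ((-1 : ℤ) : ℝ) * c.v 3 2 + ((-1 : ℤ) : ℝ) * c.X 1 2 3 ≤ ((-20 : ℤ) : ℝ) :=
    holds2 6 26 (-1) (-1) (-20) rfl h
  refine fhold_of 22 7 0 30 60 rfl ?_
  change cv 60 (c.X 1 2 3) ≤ cv 0 (c.v 3 2)
  rw [cv_big 60 (by norm_num), cv_zero]
  push_cast at h1 ⊢
  linarith only [h1]

private theorem fhr23 (hc : c.Ok) (h : (rel 23).holds c) : FHold c 23 := by
  have h1 : ((-1 : ℤ) : ℝ) * c.v 2 3 + ((-1 : ℤ) : ℝ) * c.X 1 3 2 ≤ ((-20 : ℤ) : ℝ) :=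
    holds2 2 30 (-1) (-1) (-20) rfl h
  refine fhold_of 23 1 0 34 60 rfl ?_
  change cv 60 (c.X 1 3 2) ≤ cv 0 (c.v 2 3)
  rw [cv_big 60 (by norm_num), cv_zero]
  push_cast at h1 ⊢
  linarith only [h1]

private theorem fhr24 (hc : c.Ok) (h : (rel 24).holds c) : FHold c 24 := by
  have h1 : ((1 : ℤ) : ℝ) * c.v 3 0 + ((1 : ℤ) : ℝ) * c.v 2 1 ≤ ((0 : ℤ) : ℝ) :=
    holds2 4 1 1 1 0 rfl h
  refine fhold_of 24 0 40 6 0 rfl ?_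
  change cv 0 (c.v 3 0) ≤ cv 40 (c.v 2 1)
  rw [cv_zero, cv_big 40 (by norm_num)]
  push_cast at h1 ⊢
  linarith only [h1]

private theorem fhr25 (hc : c.Ok) (h : (rel 25).holds c) : FHold c 25 := by
  have h1 : ((1 : ℤ) : ℝ) * c.v 2 0 + ((1 : ℤ) : ℝ) * c.v 3 1 ≤ ((0 : ℤ) : ℝ) :=
    holds2 0 5 1 1 0 rfl h
  refine fhold_of 25 8 40 2 0 rfl ?_
  change cv 0 (c.v 2 0) ≤ cv 40 (c.v 3 1)
  rw [cv_zero, cv_big 40 (by norm_num)]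
  push_cast at h1 ⊢
  linarith only [h1]

private theorem fhr44 (hc : c.Ok) (h : (rel 44).holds c) : FHold c 44 := by
  have h1 : ((1 : ℤ) : ℝ) * c.X 0 2 1 + ((1 : ℤ) : ℝ) * c.X 1 3 0 ≤ ((40 : ℤ) : ℝ) :=
    holds2 13 29 1 1 40 rfl h
  refine fhold_of 44 33 80 17 0 rfl ?_
  change cv 0 (c.X 0 2 1) ≤ cv 80 (c.X 1 3 0)
  rw [cv_zero, cv_big 80 (by norm_num)]
  push_cast at h1 ⊢
  linarith only [h1]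

private theorem fhr45 (hc : c.Ok) (h : (rel 45).holds c) : FHold c 45 := by
  have h1 : ((1 : ℤ) : ℝ) * c.X 0 3 1 + ((1 : ℤ) : ℝ) * c.X 1 2 0 ≤ ((40 : ℤ) : ℝ) :=
    holds2 17 25 1 1 40 rfl h
  refine fhold_of 45 29 80 21 0 rfl ?_
  change cv 0 (c.X 0 3 1) ≤ cv 80 (c.X 1 2 0)
  rw [cv_zero, cv_big 80 (by norm_num)]
  push_cast at h1 ⊢
  linarith only [h1]

private theorem fhr46 (hc : c.Ok) (h : (rel 46).holds c) : FHold c 46 := by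
  have h1 : ((1 : ℤ) : ℝ) * c.X 0 2 1 + ((-1 : ℤ) : ℝ) * c.D 1 2 ≤ ((0 : ℤ) : ℝ) :=
    holds2 13 27 1 (-1) 0 rfl h
  refine fhold_of 46 31 0 17 0 rfl ?_
  change cv 0 (c.X 0 2 1) ≤ cv 0 (c.D 1 2)
  rw [cv_zero, cv_zero]
  push_cast at h1
  linarith only [h1]

private theorem fhr47 (hc : c.Ok) (h : (rel 47).holds c) : FHold c 47 := by
  have h1 : ((1 : ℤ) : ℝ) * c.X 1 2 0 + ((-1 : ℤ) : ℝ) * c.D 0 2 ≤ ((0 : ℤ) : ℝ) :=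
    holds2 25 15 1 (-1) 0 rfl h
  refine fhold_of 47 19 0 29 0 rfl ?_
  change cv 0 (c.X 1 2 0) ≤ cv 0 (c.D 0 2)
  rw [cv_zero, cv_zero]
  push_cast at h1
  linarith only [h1]

private theorem fhr48 (hc : c.Ok) (h : (rel 48).holds c) : FHold c 48 := by
  have h1 : ((1 : ℤ) : ℝ) * c.X 0 3 1 + ((-1 : ℤ) : ℝ) * c.D 1 3 ≤ ((0 : ℤ) : ℝ) :=
    holds2 17 31 1 (-1) 0 rfl h
  refine fhold_of 48 35 0 21 0 rfl ?_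
  change cv 0 (c.X 0 3 1) ≤ cv 0 (c.D 1 3)
  rw [cv_zero, cv_zero]
  push_cast at h1
  linarith only [h1]

private theorem fhr49 (hc : c.Ok) (h : (rel 49).holds c) : FHold c 49 := by
  have h1 : ((1 : ℤ) : ℝ) * c.X 1 3 0 + ((-1 : ℤ) : ℝ) * c.D 0 3 ≤ ((0 : ℤ) : ℝ) :=
    holds2 29 19 1 (-1) 0 rfl h
  refine fhold_of 49 23 0 33 0 rfl ?_
  change cv 0 (c.X 1 3 0) ≤ cv 0 (c.D 0 3)
  rw [cv_zero, cv_zero]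
  push_cast at h1
  linarith only [h1]

theorem fh_of_rel (hc : c.Ok) : ∀ k, (rel k).holds c → FHold c k
  | 0 => fhr0 hc
  | 1 => fhr1 hc
  | 2 => fhr2 hc
  | 3 => fhr3 hc
  | 4 => fhr4 hc
  | 5 => fhr5 hc
  | 6 => fhr6 hc
  | 7 => fhr7 hc
  | 8 => fhr8 hc
  | 9 => fhr9 hc
  | 10 => fhr10 hc
  | 11 => fhr11 hc
  | 12 => fhr12 hc
  | 13 => fhr13 hc
  | 14 => fhr14 hc
  | 15 => fhr15 hc
  | 16 => fhr16 hc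
  | 17 => fhr17 hc
  | 18 => fhr18 hc
  | 19 => fhr19 hc
  | 20 => fhr20 hc
  | 21 => fhr21 hc
  | 22 => fhr22 hc
  | 23 => fhr23 hc
  | 24 => fhr24 hc
  | 25 => fhr25 hc
  | 26 => fun h => by
    exact fhold_zero rfl
  | 27 => fun h => by
    exact fhold_zero rfl
  | 28 => fun h => by
    exact fhold_zero rfl
  | 29 => fun h => by
    exact fhold_zero rfl
  | 30 => fun h => by
    exact fhold_zero rfl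
  | 31 => fun h => by
    exact fhold_zero rfl
  | 32 => fun h => by
    exact fhold_zero rfl
  | 33 => fun h => by
    exact fhold_zero rfl
  | 34 => fun h => by
    exact fhold_zero rfl
  | 35 => fun h => by
    exact fhold_zero rfl
  | 36 => fun h => by
    exact fhold_zero rfl
  | 37 => fun h => by
    exact fhold_zero rfl
  | 38 => fun h => by
    exact fhold_zero rfl
  | 39 => fun h => by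
    exact fhold_zero rfl
  | 40 => fun h => by
    exact fhold_zero rfl
  | 41 => fun h => by
    exact fhold_zero rfl
  | 42 => fun h => by
    exact fhold_zero rfl
  | 43 => fun h => by
    exact fhold_zero rfl
  | 44 => fhr44 hc
  | 45 => fhr45 hc
  | 46 => fhr46 hc
  | 47 => fhr47 hc
  | 48 => fhr48 hc
  | 49 => fhr49 hc
  | k + 50 => fun _ => fhold_zero rfl

end

end Pool.Agent.Helper62.NE
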