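import Pool.Agent.Helper62.NE.RowCheck
import Pool.Agent.Helper53.NE.Nodes
import Pool.Agent.Helper95.TS.BoxB
import Pool.Agent.Helper59.NE.Box
import Pool.Agent.Helper51.NE.ClassS
import Pool.Agent.Helper56.NE.MajNat

/-!
# `TwoLowNE`: the certificate of a leaf and its check
-/

set_option autoImplicit false

namespace Pool.Agent.Helper62.NE

open Pool.Agent.Helper90.TS Pool.Agent.Helper95.TS Pool.Agent.Helper53.NE Pool.Agent.Helper51.NE
  Pool.Agent.Helper59.NE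

/-- **The certificate of a leaf.** -/
structure Leaf where
  ats : List Atom
  fl : List (ℕ × ℕ)
  ll : List (ℕ × ℕ)
  s0 : ℕ
  s1 : ℕ
  C0 : ℕ
  C1 : ℕ
  M2 : ℕ
  M3 : ℕ
  m0 : ℕ × ℕ × ℕ × ℕ × ℕ
  m1 : ℕ × ℕ × ℕ × ℕ × ℕ

/-- the atom is `pr a b` -/
def isP (a b : ℕ) : Atom → Bool
  | .pr x y => Bool.rec false (Nat.beq y b) (Nat.beq x a)
  | .up _ _ => false
  | .lw _ _ => false

/-- the atom `pr a b` is in the list -/
def hasP (a b : ℕ) (l : List Atom) : Bool :=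
  List.rec (motive := fun _ => Bool) false (fun t _ ih => Bool.rec ih true (isP a b t)) l

/-- conjunction over a list -/
def allL {α : Type} (f : α → Bool) (l : List α) : Bool :=
  List.rec (motive := fun _ => Bool) true (fun t _ ih => Bool.rec false ih (f t)) l

/-- the lower box bound of a slot, shifted by `20` -/
def Leaf.lo (q : Leaf) (s : ℕ) : ℕ := loB s (lo0 s) q.ats

/-- the upper box bound of a slot, shifted by `20` -/
def Leaf.hi (q : Leaf) (s : ℕ) : ℕ := hiB s (hi0 s) q.ats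

/-- the table of a slot -/
def Leaf.tt (q : Leaf) (s : ℕ) (μ : Bool) : List ℕ := tl q.fl q.ll s μ

/-- the row with the slots `b .. b + 5` -/
def Leaf.row (q : Leaf) (M b : ℕ) : Bool :=
  rowOK M (q.lo b) (q.hi b) (q.lo (b + 1)) (q.hi (b + 1)) (q.lo (b + 2)) (q.hi (b + 2))
    (q.lo (b + 3)) (q.hi (b + 3)) (q.lo (b + 4)) (q.hi (b + 4)) (q.lo (b + 5)) (q.hi (b + 5))
    (q.tt b false) (q.tt (b + 1) false) (q.tt (b + 2) false) (q.tt (b + 3) false)
    (q.tt (b + 4) false) (q.tt (b + 5) false)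

/-- maximum -/
def mx (a b : ℕ) : ℕ := Bool.rec a b (Nat.ble a b)

/-- the variants of the cell with the slots `b` (width), `x`, `y` (components), `d` (depth) -/
def Leaf.cellD (q : Leaf) (b x y d : ℕ) : CellD where
  ab := Bool.rec none (some (q.tt b false, q.tt x false, q.tt y false, q.tt d false))
    (Nat.beq (q.lo b) 0 && inb (q.lo x) (q.hi x) 20 && inb (q.lo y) (q.hi y) 20 &&
      inb (q.lo d) (q.hi d) 60)
  pv := Bool.rec []
    ((Bool.rec (fun l => l) (fun l => ⟨Nat.sub (q.lo b) 20, Nat.sub (q.hi b) 20,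
        Nat.sub (q.lo x) 20, Nat.sub (q.hi x) 20, Nat.sub (q.lo y) 20, Nat.sub (q.hi y) 20,
        Nat.sub (q.lo d) 20, Nat.sub (mn (q.hi d) 31) 20, q.tt b true, q.tt x true, q.tt y true,
        q.tt d true⟩ :: l) (Nat.ble (q.lo d) 31) : List VarP → List VarP)
      (Bool.rec [] [⟨Nat.sub (q.lo b) 20, Nat.sub (q.hi b) 20,
        Nat.sub (q.lo x) 20, Nat.sub (q.hi x) 20, Nat.sub (q.lo y) 20, Nat.sub (q.hi y) 20,
        Nat.sub (mx (q.lo d) 31) 20, Nat.sub (mn (q.hi d) 40) 20, q.tt b false, q.tt x false,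
        q.tt y false, q.tt d false⟩] (Nat.ble 31 (q.hi d))))
    (Nat.ble 20 (q.hi b))

/-- the class `i` (`mf i = 0` and `mf i ≠ 0`) with the cells `c0, c1, c2` -/
def Leaf.cls (q : Leaf) (i s C : ℕ) (m : ℕ × ℕ × ℕ × ℕ × ℕ) (c0 c1 c2 : CellD) : Bool :=
  ((Nat.beq s 2 && hasP 3 i q.ats) || classOK C c0 c1 c2) &&
    ((Nat.beq s 1 && hasP 2 i q.ats) ||
      (Pool.Agent.Helper56.NE.majOK m.1 m.2.1 && mainOK m.2.2.1 m.2.2.2.1 m.2.2.2.2 m.2.1 c0 c1 c2 &&
        Nat.ble (m.1 + m.2.2.1 + m.2.2.2.1 + m.2.2.2.2) C))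

/-- **The check of a leaf.** -/
def leafOK (q : Leaf) : Bool :=
  allL (fun t => mono t.2 && hasP 0 t.1 q.ats) q.fl && allL (fun t => hasP 1 t.1 q.ats) q.ll &&
    q.row q.M2 0 && q.row q.M3 6 &&
    q.cls 0 q.s0 q.C0 q.m0 (q.cellD 12 14 13 15) (q.cellD 16 17 18 19) (q.cellD 20 22 21 23) &&
    q.cls 1 q.s1 q.C1 q.m1 (q.cellD 24 26 25 27) (q.cellD 28 29 30 31) (q.cellD 32 34 33 35) &&
    Nat.ble (q.C0 + q.C1 + q.M2 + q.M3 + ka q.ll + 716)
      (294240 + kb q.ll + 6 * 16809216 + 2 * 4194304)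

end Pool.Agent.Helper62.NE
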