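import Pool.Agent.Helper62.NE.CellRound

/-!
# Rounding a row with a common threshold

`Rw v1 v2 v3` is `96000` times (a bound of) the volume of a row, `v = 20 (u - d)`, `e = 40 d = 20 - sum v`. The
partial sums of `v` are rounded. The loss is at most `94`.
-/

set_option autoImplicit false

namespace Pool.Agent.Helper62.NE

/-- the own far cell of a column and the cube -/
noncomputable def own (v : ℝ) : ℝ :=
  4 * max (-v) 0 ^ 3 + 1200 * min (max (-v) 0) 13 + 120 * min (max (-v) 0) 13 ^ 2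
    - min (max (-v) 0) 13 ^ 3

/-- the polynomial part of the row -/
noncomputable def pR (v1 v2 v3 : ℝ) : ℝ :=
  112000 - 6000 * (20 - (v1 + v2 + v3)) + 120 * (20 - (v1 + v2 + v3)) ^ 2 - (20 - (v1 + v2 + v3)) ^ 3
    - 3 * (40 - (20 - (v1 + v2 + v3))) * (v1 ^ 2 + v2 ^ 2 + v3 ^ 2)

/-- the row -/
noncomputable def Rw (v1 v2 v3 : ℝ) : ℝ := pR v1 v2 v3 + own v1 + own v2 + own v3

theorem own_pos {v : ℝ} (h : 0 ≤ v) : own v = 0 := by
  unfold own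
  rw [max_eq_right (by linarith : -v ≤ 0), min_eq_left (by norm_num : (0 : ℝ) ≤ 13)]
  norm_num

theorem own_mid {v : ℝ} (h : v ≤ 0) (h2 : -13 ≤ v) :
    own v = 3 * (-v) ^ 3 + 1200 * (-v) + 120 * (-v) ^ 2 := by
  unfold own
  rw [max_eq_left (by linarith : 0 ≤ -v), min_eq_left (by linarith : -v ≤ 13)]
  ring

theorem own_low {v : ℝ} (h : v ≤ -13) : own v = 4 * (-v) ^ 3 + 33683 := by
  unfold own
  rw [max_eq_left (by linarith : 0 ≤ -v), min_eq_right (by linarith : 13 ≤ -v)]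
  ring

theorem tenth {x : ℝ} (h0 : 0 ≤ x) (h1 : x ≤ 1) : x * (1 - x) * (1 - 2 * x) ≤ 1 / 10 := by
  nlinarith [mul_nonneg (sub_nonneg.2 h1) (sq_nonneg (x - 21 / 100)), sq_nonneg (x - 9 / 40)]

/-- the own part is convex between integers; `θ (1 - θ)` is the variance -/
theorem own_up (n : ℤ) {x : ℝ} (h0 : 0 ≤ x) (h1 : x ≤ 1) :
    own (n + x) + 12 * max (-(n + x)) 0 * (x * (1 - x)) - 2 / 5 ≤
      (1 - x) * own (n + 0) + x * own (n + 1) := by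
  have hx := mul_nonneg h0 (sub_nonneg.2 h1)
  have ht := tenth h0 h1
  have hx4 : x * (1 - x) ≤ 1 / 4 := by nlinarith [sq_nonneg (2 * x - 1)]
  rcases le_or_gt 0 n with hn | hn
  · have hn' : (0 : ℝ) ≤ n := by exact_mod_cast hn
    rw [own_pos (by linarith), own_pos (by linarith), own_pos (by linarith),
      max_eq_right (by linarith)]
    linarith
  · have hn' : (n : ℝ) ≤ -1 := by exact_mod_cast (by omega : n ≤ -1)
    rw [max_eq_left (by linarith : 0 ≤ -((n : ℝ) + x))]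
    rcases le_or_gt n (-14) with h | h
    · have h' : (n : ℝ) ≤ -14 := by exact_mod_cast h
      rw [own_low (by linarith), own_low (by linarith), own_low (by linarith)]
      nlinarith
    · have h' : (-13 : ℝ) ≤ n := by exact_mod_cast (by omega : -13 ≤ n)
      rw [own_mid (by linarith) (by linarith), own_mid (by linarith) (by linarith),
        own_mid (by linarith) (by linarith)]
      nlinarith [mul_nonneg hx (by linarith : 0 ≤ 13 + ((n : ℝ) + x)), mul_nonneg hx h0,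
        mul_nonneg hx (sub_nonneg.2 h1)]

theorem own_dn (n : ℤ) {x : ℝ} (h0 : 0 ≤ x) (h1 : x ≤ 1) :
    own (n + -x) + 12 * max (-(n + -x)) 0 * (x * (1 - x)) - 2 / 5 ≤
      (1 - x) * own (n + 0) + x * own (n + -1) := by
  have h := own_up (n - 1) (x := 1 - x) (by linarith) (by linarith)
  push_cast at h
  rw [show (n : ℝ) - 1 + (1 - x) = n + -x by ring, show (n : ℝ) - 1 + 0 = n + -1 by ring,
    show (n : ℝ) - 1 + 1 = n + 0 by ring] at h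
  linarith

section

variable {a b c : ℝ} {Y1 Y2 Y3 : ℤ}

/-- the row of a state -/
noncomputable def rS (Y1 Y2 Y3 : ℤ) (I J K : ℝ) : ℝ :=
  Rw (Y1 + I) (Y2 + J - (Y1 + I)) (Y3 + K - (Y2 + J))

theorem rS_eq (I J K D2 D3 : ℝ) (h2 : J - I = D2) (h3 : K - J = D3) : rS Y1 Y2 Y3 I J K =
    pR (Y1 + I) (Y2 + J - (Y1 + I)) (Y3 + K - (Y2 + J))
      + own (Y1 + I) + own ((Y2 - Y1 : ℤ) + D2) + own ((Y3 - Y2 : ℤ) + D3) := by
  subst h2 h3
  unfold rS Rw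
  push_cast
  congr 1
  · congr 2; ring
  · congr 1; ring

theorem twoq {u v w : ℝ} (h0 : -1 ≤ u) (h1 : u ≤ 1) (v0 : 0 ≤ v) (v1 : v ≤ 1 / 4) (w0 : 0 ≤ w)
    (w1 : w ≤ 1 / 4) : -(1 / 4) ≤ u * (v - w) ∧ u * (v - w) ≤ 1 / 4 := by
  constructor <;> nlinarith

theorem q_row_abc {v1 v2 v3 n1 n2 n3 : ℝ} (g1 : v1 ≤ 20) (g2 : v2 ≤ 20) (g3 : v3 ≤ 20)
    (ge : v1 + v2 + v3 ≤ 20) (k1 : 0 ≤ n1) (k2 : 0 ≤ n2) (k3 : 0 ≤ n3) (l2 : -v2 ≤ n2)
    (h0 : 0 ≤ c) (h1 : c ≤ b) (h2 : b ≤ a) (h3 : a ≤ 1) :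
    (1 - a) * (a - b) * (6 * (40 - (20 - (v1 + v2 + v3)))) + (1 - a) * (b - c) * (6 * (40 - (20 - (v1 + v2 + v3)))) + (1 - a) * c * (6 * v1) + (a - b) * (b - c) * (6 * (40 - (20 - (v1 + v2 + v3)))) + (a - b) * c * (6 * v2) + (b - c) * c * (6 * v3)
      - 12 * (n1 * (a * (1 - a)) + n2 * ((a - b) * (1 - (a - b))) + n3 * ((b - c) * (1 - (b - c)))) ≤ 90 := by
  have p0 : 0 ≤ (1 - a) := by linarith
  have p1 : 0 ≤ (a - b) := by linarith
  have p2 : 0 ≤ (b - c) := by linarith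
  have p3 : 0 ≤ c := by linarith
  have r01 := mul_nonneg (mul_nonneg p0 p1) (by linarith only [g1, g2, g3, ge, k1, k2, k3, l2] : 0 ≤ 240 - (6 * (40 - (20 - (v1 + v2 + v3))) - 12 * (n1 + n2)))
  have r02 := mul_nonneg (mul_nonneg p0 p2) (by linarith only [g1, g2, g3, ge, k1, k2, k3, l2] : 0 ≤ 240 - (6 * (40 - (20 - (v1 + v2 + v3))) - 12 * (n1 + n3)))
  have r03 := mul_nonneg (mul_nonneg p0 p3) (by linarith only [g1, g2, g3, ge, k1, k2, k3, l2] : 0 ≤ 120 - (6 * v1 - 12 * n1))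
  have r12 := mul_nonneg (mul_nonneg p1 p2) (by linarith only [g1, g2, g3, ge, k1, k2, k3, l2] : 0 ≤ 240 - (6 * (40 - (20 - (v1 + v2 + v3))) - 12 * (n2 + n3)))
  have r13 := mul_nonneg (mul_nonneg p1 p3) (by linarith only [g1, g2, g3, ge, k1, k2, k3, l2] : 0 ≤ 120 - (6 * v2 - 12 * n2))
  have r23 := mul_nonneg (mul_nonneg p2 p3) (by linarith only [g1, g2, g3, ge, k1, k2, k3, l2] : 0 ≤ 120 - (6 * v3 - 12 * n3))
  have fin : (1 - a) * (a - b) * 240 + (1 - a) * (b - c) * 240 + (1 - a) * c * 120 + (a - b) * (b - c) * 240 + (a - b) * c * 120 + (b - c) * c * 120 ≤ 90 := by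
    linarith only [mul_nonneg p0 p1, mul_nonneg p0 p2, mul_nonneg p0 p3, mul_nonneg p1 p2, mul_nonneg p1 p3,
      mul_nonneg p2 p3, sq_nonneg ((1 - a) - (a - b)), sq_nonneg ((1 - a) - (b - c)), sq_nonneg ((a - b) - (b - c)), sq_nonneg ((b - c) - c),
      sq_nonneg ((a - b) - c), sq_nonneg ((1 - a) - c)]
  linarith

theorem row_abc (g1 : Y1 + a ≤ 20) (g2 : (Y2 - Y1 : ℤ) + (b - a) ≤ 20)
    (g3 : (Y3 - Y2 : ℤ) + (c - b) ≤ 20) (ge : Y3 + c ≤ 20) (h0 : 0 ≤ c) (h1 : c ≤ b) (h2 : b ≤ a) (h3 : a ≤ 1) :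
    ∃ c0 c1 c2 : ℝ, ∀ t : ℝ, 0 ≤ rS Y1 Y2 Y3 (ind a t) (ind b t) (ind c t)
      - Rw (Y1 + a) (Y2 + b - (Y1 + a)) (Y3 + c - (Y2 + b)) + 94 + c0 * (ind a t - a) + c1 * (ind b t - b)
      + c2 * (ind c t - c) := by
  push_cast at g2 g3
  obtain ⟨v1, w1⟩ : ∃ v, v = (Y1 : ℝ) + a := ⟨_, rfl⟩
  obtain ⟨v2, w2⟩ : ∃ v, v = (Y2 : ℝ) + b - (Y1 + a) := ⟨_, rfl⟩
  obtain ⟨v3, w3⟩ : ∃ v, v = (Y3 : ℝ) + c - (Y2 + b) := ⟨_, rfl⟩
  have o1 := own_up (Y1) (x := a) (by linarith only [h0, h1, h2, h3]) (by linarith only [h0, h1, h2, h3])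
  have o2 := own_dn (Y2 - Y1) (x := a - b) (by linarith only [h0, h1, h2, h3]) (by linarith only [h0, h1, h2, h3])
  have o3 := own_dn (Y3 - Y2) (x := b - c) (by linarith only [h0, h1, h2, h3]) (by linarith only [h0, h1, h2, h3])
  rw [← w1] at o1
  rw [show ((Y2 - Y1 : ℤ) : ℝ) + -(a - b) = v2 by push_cast; linarith only [w1, w2, w3]] at o2
  rw [show ((Y3 - Y2 : ℤ) : ℝ) + -(b - c) = v3 by push_cast; linarith only [w1, w2, w3]] at o3
  have q := q_row_abc (v1 := v1) (v2 := v2) (v3 := v3) (n1 := max (-v1) 0) (n2 := max (-v2) 0)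
    (n3 := max (-v3) 0) (by linarith only [g1, g2, g3, ge, w1, w2, w3]) (by linarith only [g1, g2, g3, ge, w1, w2, w3]) (by linarith only [g1, g2, g3, ge, w1, w2, w3]) (by linarith only [g1, g2, g3, ge, w1, w2, w3]) (le_max_right _ _)
    (le_max_right _ _) (le_max_right _ _) (le_max_left _ _) h0 h1 h2 h3
  have mac := quarter (b := c) (a := a) (by linarith only [h0, h1, h2, h3]) (by linarith only [h0, h1, h2, h3]) (by linarith only [h0, h1, h2, h3])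
  have mbc := quarter (b := c) (a := b) (by linarith only [h0, h1, h2, h3]) (by linarith only [h0, h1, h2, h3]) (by linarith only [h0, h1, h2, h3])
  have mcc := quarter (b := c) (a := c) (by linarith only [h0, h1, h2, h3]) (by linarith only [h0, h1, h2, h3]) (by linarith only [h0, h1, h2, h3])
  have t1 := prodb (u := 1 - 2 * a) (by linarith only [h0, h1, h2, h3]) (by linarith only [h0, h1, h2, h3]) mac.1 mac.2
  have t2 := twoq (u := -(1 - 2 * (a - b))) (by linarith only [h0, h1, h2, h3]) (by linarith only [h0, h1, h2, h3]) mbc.1 mbc.2 mac.1 mac.2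
  have t3 := twoq (u := -(1 - 2 * (b - c))) (by linarith only [h0, h1, h2, h3]) (by linarith only [h0, h1, h2, h3]) mcc.1 mcc.2 mbc.1 mbc.2
  have t4 := prodb (u := 1 - 2 * c) (by linarith only [h0, h1, h2, h3]) (by linarith only [h0, h1, h2, h3]) mcc.1 mcc.2
  have P : (1 - a) * pR (Y1 + 0) (Y2 + 0 - (Y1 + 0)) (Y3 + 0 - (Y2 + 0)) + (a - b) * pR (Y1 + 1) (Y2 + 0 - (Y1 + 1)) (Y3 + 0 - (Y2 + 0)) + (b - c) * pR (Y1 + 1) (Y2 + 1 - (Y1 + 1)) (Y3 + 0 - (Y2 + 1)) + c * pR (Y1 + 1) (Y2 + 1 - (Y1 + 1)) (Y3 + 1 - (Y2 + 1))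
    = pR v1 v2 v3 - ((1 - a) * (a - b) * (6 * (40 - (20 - (v1 + v2 + v3)))) + (1 - a) * (b - c) * (6 * (40 - (20 - (v1 + v2 + v3)))) + (1 - a) * c * (6 * v1) + (a - b) * (b - c) * (6 * (40 - (20 - (v1 + v2 + v3)))) + (a - b) * c * (6 * v2) + (b - c) * c * (6 * v3))
      + (-3 * ((1 - 2 * a) * (c * (1 - a)) + (-(1 - 2 * (a - b))) * (c * (1 - b) - c * (1 - a)) + (-(1 - 2 * (b - c))) * (c * (1 - c) - c * (1 - b)))
      + (1 - 2 * c) * (c * (1 - c))) := by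
    subst w1 w2 w3
    unfold pR
    ring
  have e0 := rS_eq (Y1 := Y1) (Y2 := Y2) (Y3 := Y3) 0 0 0 0 0 (by norm_num) (by norm_num)
  have e1 := rS_eq (Y1 := Y1) (Y2 := Y2) (Y3 := Y3) 1 0 0 (-1) 0 (by norm_num) (by norm_num)
  have e2 := rS_eq (Y1 := Y1) (Y2 := Y2) (Y3 := Y3) 1 1 0 0 (-1) (by norm_num) (by norm_num)
  have e3 := rS_eq (Y1 := Y1) (Y2 := Y2) (Y3 := Y3) 1 1 1 0 0 (by norm_num) (by norm_num)
  rw [← w2, ← w3, ← w1]
  have eR : Rw v1 v2 v3 = pR v1 v2 v3 + own v1 + own v2 + own v3 := rfl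
  obtain ⟨c0, c1, c2, r0, r1, r2, r3⟩ := chain (F0 := rS Y1 Y2 Y3 0 0 0 - Rw v1 v2 v3)
    (F1 := rS Y1 Y2 Y3 1 0 0 - Rw v1 v2 v3) (F2 := rS Y1 Y2 Y3 1 1 0 - Rw v1 v2 v3)
    (F3 := rS Y1 Y2 Y3 1 1 1 - Rw v1 v2 v3) (x := a) (y := b) (z := c)
    (κ := 94) (by
      rw [e0, e1, e2, e3, eR]
      linarith only [P, q, o1, o2, o3, t1.1, t1.2, t2.1, t2.2, t3.1, t3.2, t4.1, t4.2])
  refine ⟨c0, c1, c2, fun t => ?_⟩
  unfold ind
  by_cases i1 : 1 ≤ c + t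
  · rw [if_pos (show 1 ≤ a + t by linarith only [h0, h1, h2, h3, i1]), if_pos (show 1 ≤ b + t by linarith only [h0, h1, h2, h3, i1]),
      if_pos (show 1 ≤ c + t by linarith only [h0, h1, h2, h3, i1])]
    linarith only [r0, r1, r2, r3]
  by_cases i2 : 1 ≤ b + t
  · rw [if_pos (show 1 ≤ a + t by linarith only [h0, h1, h2, h3, i1, i2]),
      if_pos (show 1 ≤ b + t by linarith only [h0, h1, h2, h3, i1, i2]),
      if_neg (show ¬ 1 ≤ c + t by linarith only [h0, h1, h2, h3, i1, i2])]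
    linarith only [r0, r1, r2, r3]
  by_cases i3 : 1 ≤ a + t
  · rw [if_pos (show 1 ≤ a + t by linarith only [h0, h1, h2, h3, i1, i2, i3]),
      if_neg (show ¬ 1 ≤ b + t by linarith only [h0, h1, h2, h3, i1, i2, i3]),
      if_neg (show ¬ 1 ≤ c + t by linarith only [h0, h1, h2, h3, i1, i2, i3])]
    linarith only [r0, r1, r2, r3]
  · rw [if_neg (show ¬ 1 ≤ a + t by linarith only [h0, h1, h2, h3, i1, i2, i3]),
      if_neg (show ¬ 1 ≤ b + t by linarith only [h0, h1, h2, h3, i1, i2, i3]),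
      if_neg (show ¬ 1 ≤ c + t by linarith only [h0, h1, h2, h3, i1, i2, i3])]
    linarith only [r0, r1, r2, r3]

theorem q_row_acb {v1 v2 v3 n1 n2 n3 : ℝ} (g1 : v1 ≤ 20) (g2 : v2 ≤ 20) (g3 : v3 ≤ 20)
    (ge : v1 + v2 + v3 ≤ 20) (k1 : 0 ≤ n1) (k2 : 0 ≤ n2) (k3 : 0 ≤ n3) (l2 : -v2 ≤ n2)
    (h0 : 0 ≤ b) (h1 : b ≤ c) (h2 : c ≤ a) (h3 : a ≤ 1) :
    (1 - a) * (a - c) * (6 * (40 - (20 - (v1 + v2 + v3)))) + (1 - a) * (c - b) * (6 * (40 - (20 - (v1 + v2 + v3))) + 6 * (v1 - v2 + v3)) + (1 - a) * b * (6 * v1) + (a - c) * (c - b) * (6 * v3) + (a - c) * b * (6 * v2) + (c - b) * b * (6 * (40 - (20 - (v1 + v2 + v3))))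
      - 12 * (n1 * (a * (1 - a)) + n2 * ((a - b) * (1 - (a - b))) + n3 * ((c - b) * (1 - (c - b)))) ≤ 90 := by
  have p0 : 0 ≤ (1 - a) := by linarith
  have p1 : 0 ≤ (a - c) := by linarith
  have p2 : 0 ≤ (c - b) := by linarith
  have p3 : 0 ≤ b := by linarith
  have r01 := mul_nonneg (mul_nonneg p0 p1) (by linarith only [g1, g2, g3, ge, k1, k2, k3, l2] : 0 ≤ 240 - (6 * (40 - (20 - (v1 + v2 + v3))) - 12 * (n1 + n2)))
  have r02 := mul_nonneg (mul_nonneg p0 p2) (by linarith only [g1, g2, g3, ge, k1, k2, k3, l2] : 0 ≤ 360 - (6 * (40 - (20 - (v1 + v2 + v3))) + 6 * (v1 - v2 + v3) - 12 * (n1 + n2 + n3)))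
  have r03 := mul_nonneg (mul_nonneg p0 p3) (by linarith only [g1, g2, g3, ge, k1, k2, k3, l2] : 0 ≤ 120 - (6 * v1 - 12 * n1))
  have r12 := mul_nonneg (mul_nonneg p1 p2) (by linarith only [g1, g2, g3, ge, k1, k2, k3, l2] : 0 ≤ 120 - (6 * v3 - 12 * n3))
  have r13 := mul_nonneg (mul_nonneg p1 p3) (by linarith only [g1, g2, g3, ge, k1, k2, k3, l2] : 0 ≤ 120 - (6 * v2 - 12 * n2))
  have r23 := mul_nonneg (mul_nonneg p2 p3) (by linarith only [g1, g2, g3, ge, k1, k2, k3, l2] : 0 ≤ 240 - (6 * (40 - (20 - (v1 + v2 + v3))) - 12 * (n2 + n3)))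
  have fin : (1 - a) * (a - c) * 240 + (1 - a) * (c - b) * 360 + (1 - a) * b * 120 + (a - c) * (c - b) * 120 + (a - c) * b * 120 + (c - b) * b * 240 ≤ 90 := by
    linarith only [sq_nonneg (((1 - a) - (c - b)) - (a - c) + b), sq_nonneg ((1 - a) - (c - b)),
      sq_nonneg ((a - c) + b)]
  linarith

theorem row_acb (g1 : Y1 + a ≤ 20) (g2 : (Y2 - Y1 : ℤ) + (b - a) ≤ 20)
    (g3 : (Y3 - Y2 : ℤ) + (c - b) ≤ 20) (ge : Y3 + c ≤ 20) (h0 : 0 ≤ b) (h1 : b ≤ c) (h2 : c ≤ a) (h3 : a ≤ 1) :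
    ∃ c0 c1 c2 : ℝ, ∀ t : ℝ, 0 ≤ rS Y1 Y2 Y3 (ind a t) (ind b t) (ind c t)
      - Rw (Y1 + a) (Y2 + b - (Y1 + a)) (Y3 + c - (Y2 + b)) + 94 + c0 * (ind a t - a) + c1 * (ind b t - b)
      + c2 * (ind c t - c) := by
  push_cast at g2 g3
  obtain ⟨v1, w1⟩ : ∃ v, v = (Y1 : ℝ) + a := ⟨_, rfl⟩
  obtain ⟨v2, w2⟩ : ∃ v, v = (Y2 : ℝ) + b - (Y1 + a) := ⟨_, rfl⟩
  obtain ⟨v3, w3⟩ : ∃ v, v = (Y3 : ℝ) + c - (Y2 + b) := ⟨_, rfl⟩
  have o1 := own_up (Y1) (x := a) (by linarith only [h0, h1, h2, h3]) (by linarith only [h0, h1, h2, h3])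
  have o2 := own_dn (Y2 - Y1) (x := a - b) (by linarith only [h0, h1, h2, h3]) (by linarith only [h0, h1, h2, h3])
  have o3 := own_up (Y3 - Y2) (x := c - b) (by linarith only [h0, h1, h2, h3]) (by linarith only [h0, h1, h2, h3])
  rw [← w1] at o1
  rw [show ((Y2 - Y1 : ℤ) : ℝ) + -(a - b) = v2 by push_cast; linarith only [w1, w2, w3]] at o2
  rw [show ((Y3 - Y2 : ℤ) : ℝ) + (c - b) = v3 by push_cast; linarith only [w1, w2, w3]] at o3
  have q := q_row_acb (v1 := v1) (v2 := v2) (v3 := v3) (n1 := max (-v1) 0) (n2 := max (-v2) 0)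
    (n3 := max (-v3) 0) (by linarith only [g1, g2, g3, ge, w1, w2, w3]) (by linarith only [g1, g2, g3, ge, w1, w2, w3]) (by linarith only [g1, g2, g3, ge, w1, w2, w3]) (by linarith only [g1, g2, g3, ge, w1, w2, w3]) (le_max_right _ _)
    (le_max_right _ _) (le_max_right _ _) (le_max_left _ _) h0 h1 h2 h3
  have mac := quarter (b := c) (a := a) (by linarith only [h0, h1, h2, h3]) (by linarith only [h0, h1, h2, h3]) (by linarith only [h0, h1, h2, h3])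
  have mbc := quarter (b := b) (a := c) (by linarith only [h0, h1, h2, h3]) (by linarith only [h0, h1, h2, h3]) (by linarith only [h0, h1, h2, h3])
  have mcc := quarter (b := c) (a := c) (by linarith only [h0, h1, h2, h3]) (by linarith only [h0, h1, h2, h3]) (by linarith only [h0, h1, h2, h3])
  have t1 := prodb (u := 1 - 2 * a) (by linarith only [h0, h1, h2, h3]) (by linarith only [h0, h1, h2, h3]) mac.1 mac.2
  have t2 := twoq (u := -(1 - 2 * (a - b))) (by linarith only [h0, h1, h2, h3]) (by linarith only [h0, h1, h2, h3]) mbc.1 mbc.2 mac.1 mac.2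
  have t3 := twoq (u := 1 - 2 * (c - b)) (by linarith only [h0, h1, h2, h3]) (by linarith only [h0, h1, h2, h3]) mcc.1 mcc.2 mbc.1 mbc.2
  have t4 := prodb (u := 1 - 2 * c) (by linarith only [h0, h1, h2, h3]) (by linarith only [h0, h1, h2, h3]) mcc.1 mcc.2
  have P : (1 - a) * pR (Y1 + 0) (Y2 + 0 - (Y1 + 0)) (Y3 + 0 - (Y2 + 0)) + (a - c) * pR (Y1 + 1) (Y2 + 0 - (Y1 + 1)) (Y3 + 0 - (Y2 + 0)) + (c - b) * pR (Y1 + 1) (Y2 + 0 - (Y1 + 1)) (Y3 + 1 - (Y2 + 0)) + b * pR (Y1 + 1) (Y2 + 1 - (Y1 + 1)) (Y3 + 1 - (Y2 + 1))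
    = pR v1 v2 v3 - ((1 - a) * (a - c) * (6 * (40 - (20 - (v1 + v2 + v3)))) + (1 - a) * (c - b) * (6 * (40 - (20 - (v1 + v2 + v3))) + 6 * (v1 - v2 + v3)) + (1 - a) * b * (6 * v1) + (a - c) * (c - b) * (6 * v3) + (a - c) * b * (6 * v2) + (c - b) * b * (6 * (40 - (20 - (v1 + v2 + v3)))))
      + (-3 * ((1 - 2 * a) * (c * (1 - a)) + (-(1 - 2 * (a - b))) * (b * (1 - c) - c * (1 - a)) + (1 - 2 * (c - b)) * (c * (1 - c) - b * (1 - c)))
      + (1 - 2 * c) * (c * (1 - c))) := by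
    subst w1 w2 w3
    unfold pR
    ring
  have e0 := rS_eq (Y1 := Y1) (Y2 := Y2) (Y3 := Y3) 0 0 0 0 0 (by norm_num) (by norm_num)
  have e1 := rS_eq (Y1 := Y1) (Y2 := Y2) (Y3 := Y3) 1 0 0 (-1) 0 (by norm_num) (by norm_num)
  have e2 := rS_eq (Y1 := Y1) (Y2 := Y2) (Y3 := Y3) 1 0 1 (-1) 1 (by norm_num) (by norm_num)
  have e3 := rS_eq (Y1 := Y1) (Y2 := Y2) (Y3 := Y3) 1 1 1 0 0 (by norm_num) (by norm_num)
  rw [← w2, ← w3, ← w1]
  have eR : Rw v1 v2 v3 = pR v1 v2 v3 + own v1 + own v2 + own v3 := rfl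
  obtain ⟨c0, c1, c2, r0, r1, r2, r3⟩ := chain (F0 := rS Y1 Y2 Y3 0 0 0 - Rw v1 v2 v3)
    (F1 := rS Y1 Y2 Y3 1 0 0 - Rw v1 v2 v3) (F2 := rS Y1 Y2 Y3 1 0 1 - Rw v1 v2 v3)
    (F3 := rS Y1 Y2 Y3 1 1 1 - Rw v1 v2 v3) (x := a) (y := c) (z := b)
    (κ := 94) (by
      rw [e0, e1, e2, e3, eR]
      linarith only [P, q, o1, o2, o3, t1.1, t1.2, t2.1, t2.2, t3.1, t3.2, t4.1, t4.2])
  refine ⟨c0, c2, c1, fun t => ?_⟩
  unfold ind
  by_cases i1 : 1 ≤ b + t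
  · rw [if_pos (show 1 ≤ a + t by linarith only [h0, h1, h2, h3, i1]), if_pos (show 1 ≤ b + t by linarith only [h0, h1, h2, h3, i1]),
      if_pos (show 1 ≤ c + t by linarith only [h0, h1, h2, h3, i1])]
    linarith only [r0, r1, r2, r3]
  by_cases i2 : 1 ≤ c + t
  · rw [if_pos (show 1 ≤ a + t by linarith only [h0, h1, h2, h3, i1, i2]),
      if_neg (show ¬ 1 ≤ b + t by linarith only [h0, h1, h2, h3, i1, i2]),
      if_pos (show 1 ≤ c + t by linarith only [h0, h1, h2, h3, i1, i2])]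
    linarith only [r0, r1, r2, r3]
  by_cases i3 : 1 ≤ a + t
  · rw [if_pos (show 1 ≤ a + t by linarith only [h0, h1, h2, h3, i1, i2, i3]),
      if_neg (show ¬ 1 ≤ b + t by linarith only [h0, h1, h2, h3, i1, i2, i3]),
      if_neg (show ¬ 1 ≤ c + t by linarith only [h0, h1, h2, h3, i1, i2, i3])]
    linarith only [r0, r1, r2, r3]
  · rw [if_neg (show ¬ 1 ≤ a + t by linarith only [h0, h1, h2, h3, i1, i2, i3]),
      if_neg (show ¬ 1 ≤ b + t by linarith only [h0, h1, h2, h3, i1, i2, i3]),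
      if_neg (show ¬ 1 ≤ c + t by linarith only [h0, h1, h2, h3, i1, i2, i3])]
    linarith only [r0, r1, r2, r3]

theorem q_row_bac {v1 v2 v3 n1 n2 n3 : ℝ} (g1 : v1 ≤ 20) (g2 : v2 ≤ 20) (g3 : v3 ≤ 20)
    (ge : v1 + v2 + v3 ≤ 20) (k1 : 0 ≤ n1) (k2 : 0 ≤ n2) (k3 : 0 ≤ n3) (l2 : -v2 ≤ n2)
    (h0 : 0 ≤ c) (h1 : c ≤ a) (h2 : a ≤ b) (h3 : b ≤ 1) :
    (1 - b) * (b - a) * (6 * (40 - (20 - (v1 + v2 + v3)))) + (1 - b) * (a - c) * (6 * (40 - (20 - (v1 + v2 + v3)))) + (1 - b) * c * (6 * v1) + (b - a) * (a - c) * (6 * (40 - (20 - (v1 + v2 + v3)))) + (b - a) * c * (6 * (40 - (20 - (v1 + v2 + v3))) + 6 * (v1 - v2 + v3)) + (a - c) * c * (6 * v3)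
      - 12 * (n1 * (a * (1 - a)) + n2 * ((b - a) * (1 - (b - a))) + n3 * ((b - c) * (1 - (b - c)))) ≤ 90 := by
  have p0 : 0 ≤ (1 - b) := by linarith
  have p1 : 0 ≤ (b - a) := by linarith
  have p2 : 0 ≤ (a - c) := by linarith
  have p3 : 0 ≤ c := by linarith
  have r01 := mul_nonneg (mul_nonneg p0 p1) (by linarith only [g1, g2, g3, ge, k1, k2, k3, l2] : 0 ≤ 240 - (6 * (40 - (20 - (v1 + v2 + v3))) - 12 * (n2 + n3)))
  have r02 := mul_nonneg (mul_nonneg p0 p2) (by linarith only [g1, g2, g3, ge, k1, k2, k3, l2] : 0 ≤ 240 - (6 * (40 - (20 - (v1 + v2 + v3))) - 12 * (n1 + n3)))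
  have r03 := mul_nonneg (mul_nonneg p0 p3) (by linarith only [g1, g2, g3, ge, k1, k2, k3, l2] : 0 ≤ 120 - (6 * v1 - 12 * n1))
  have r12 := mul_nonneg (mul_nonneg p1 p2) (by linarith only [g1, g2, g3, ge, k1, k2, k3, l2] : 0 ≤ 240 - (6 * (40 - (20 - (v1 + v2 + v3))) - 12 * (n1 + n2)))
  have r13 := mul_nonneg (mul_nonneg p1 p3) (by linarith only [g1, g2, g3, ge, k1, k2, k3, l2] : 0 ≤ 360 - (6 * (40 - (20 - (v1 + v2 + v3))) + 6 * (v1 - v2 + v3) - 12 * (n1 + n2 + n3)))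
  have r23 := mul_nonneg (mul_nonneg p2 p3) (by linarith only [g1, g2, g3, ge, k1, k2, k3, l2] : 0 ≤ 120 - (6 * v3 - 12 * n3))
  have fin : (1 - b) * (b - a) * 240 + (1 - b) * (a - c) * 240 + (1 - b) * c * 120 + (b - a) * (a - c) * 240 + (b - a) * c * 360 + (a - c) * c * 120 ≤ 90 := by
    linarith only [sq_nonneg (((b - a) - c) - (1 - b) - (a - c)), sq_nonneg ((b - a) - c),
      sq_nonneg ((1 - b) - (a - c))]
  linarith

theorem row_bac (g1 : Y1 + a ≤ 20) (g2 : (Y2 - Y1 : ℤ) + (b - a) ≤ 20)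
    (g3 : (Y3 - Y2 : ℤ) + (c - b) ≤ 20) (ge : Y3 + c ≤ 20) (h0 : 0 ≤ c) (h1 : c ≤ a) (h2 : a ≤ b) (h3 : b ≤ 1) :
    ∃ c0 c1 c2 : ℝ, ∀ t : ℝ, 0 ≤ rS Y1 Y2 Y3 (ind a t) (ind b t) (ind c t)
      - Rw (Y1 + a) (Y2 + b - (Y1 + a)) (Y3 + c - (Y2 + b)) + 94 + c0 * (ind a t - a) + c1 * (ind b t - b)
      + c2 * (ind c t - c) := by
  push_cast at g2 g3
  obtain ⟨v1, w1⟩ : ∃ v, v = (Y1 : ℝ) + a := ⟨_, rfl⟩
  obtain ⟨v2, w2⟩ : ∃ v, v = (Y2 : ℝ) + b - (Y1 + a) := ⟨_, rfl⟩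
  obtain ⟨v3, w3⟩ : ∃ v, v = (Y3 : ℝ) + c - (Y2 + b) := ⟨_, rfl⟩
  have o1 := own_up (Y1) (x := a) (by linarith only [h0, h1, h2, h3]) (by linarith only [h0, h1, h2, h3])
  have o2 := own_up (Y2 - Y1) (x := b - a) (by linarith only [h0, h1, h2, h3]) (by linarith only [h0, h1, h2, h3])
  have o3 := own_dn (Y3 - Y2) (x := b - c) (by linarith only [h0, h1, h2, h3]) (by linarith only [h0, h1, h2, h3])
  rw [← w1] at o1
  rw [show ((Y2 - Y1 : ℤ) : ℝ) + (b - a) = v2 by push_cast; linarith only [w1, w2, w3]] at o2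
  rw [show ((Y3 - Y2 : ℤ) : ℝ) + -(b - c) = v3 by push_cast; linarith only [w1, w2, w3]] at o3
  have q := q_row_bac (v1 := v1) (v2 := v2) (v3 := v3) (n1 := max (-v1) 0) (n2 := max (-v2) 0)
    (n3 := max (-v3) 0) (by linarith only [g1, g2, g3, ge, w1, w2, w3]) (by linarith only [g1, g2, g3, ge, w1, w2, w3]) (by linarith only [g1, g2, g3, ge, w1, w2, w3]) (by linarith only [g1, g2, g3, ge, w1, w2, w3]) (le_max_right _ _)
    (le_max_right _ _) (le_max_right _ _) (le_max_left _ _) h0 h1 h2 h3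
  have mac := quarter (b := c) (a := a) (by linarith only [h0, h1, h2, h3]) (by linarith only [h0, h1, h2, h3]) (by linarith only [h0, h1, h2, h3])
  have mbc := quarter (b := c) (a := b) (by linarith only [h0, h1, h2, h3]) (by linarith only [h0, h1, h2, h3]) (by linarith only [h0, h1, h2, h3])
  have mcc := quarter (b := c) (a := c) (by linarith only [h0, h1, h2, h3]) (by linarith only [h0, h1, h2, h3]) (by linarith only [h0, h1, h2, h3])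
  have t1 := prodb (u := 1 - 2 * a) (by linarith only [h0, h1, h2, h3]) (by linarith only [h0, h1, h2, h3]) mac.1 mac.2
  have t2 := twoq (u := 1 - 2 * (b - a)) (by linarith only [h0, h1, h2, h3]) (by linarith only [h0, h1, h2, h3]) mbc.1 mbc.2 mac.1 mac.2
  have t3 := twoq (u := -(1 - 2 * (b - c))) (by linarith only [h0, h1, h2, h3]) (by linarith only [h0, h1, h2, h3]) mcc.1 mcc.2 mbc.1 mbc.2
  have t4 := prodb (u := 1 - 2 * c) (by linarith only [h0, h1, h2, h3]) (by linarith only [h0, h1, h2, h3]) mcc.1 mcc.2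
  have P : (1 - b) * pR (Y1 + 0) (Y2 + 0 - (Y1 + 0)) (Y3 + 0 - (Y2 + 0)) + (b - a) * pR (Y1 + 0) (Y2 + 1 - (Y1 + 0)) (Y3 + 0 - (Y2 + 1)) + (a - c) * pR (Y1 + 1) (Y2 + 1 - (Y1 + 1)) (Y3 + 0 - (Y2 + 1)) + c * pR (Y1 + 1) (Y2 + 1 - (Y1 + 1)) (Y3 + 1 - (Y2 + 1))
    = pR v1 v2 v3 - ((1 - b) * (b - a) * (6 * (40 - (20 - (v1 + v2 + v3)))) + (1 - b) * (a - c) * (6 * (40 - (20 - (v1 + v2 + v3)))) + (1 - b) * c * (6 * v1) + (b - a) * (a - c) * (6 * (40 - (20 - (v1 + v2 + v3)))) + (b - a) * c * (6 * (40 - (20 - (v1 + v2 + v3))) + 6 * (v1 - v2 + v3)) + (a - c) * c * (6 * v3))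
      + (-3 * ((1 - 2 * a) * (c * (1 - a)) + (1 - 2 * (b - a)) * (c * (1 - b) - c * (1 - a)) + (-(1 - 2 * (b - c))) * (c * (1 - c) - c * (1 - b)))
      + (1 - 2 * c) * (c * (1 - c))) := by
    subst w1 w2 w3
    unfold pR
    ring
  have e0 := rS_eq (Y1 := Y1) (Y2 := Y2) (Y3 := Y3) 0 0 0 0 0 (by norm_num) (by norm_num)
  have e1 := rS_eq (Y1 := Y1) (Y2 := Y2) (Y3 := Y3) 0 1 0 1 (-1) (by norm_num) (by norm_num)
  have e2 := rS_eq (Y1 := Y1) (Y2 := Y2) (Y3 := Y3) 1 1 0 0 (-1) (by norm_num) (by norm_num)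
  have e3 := rS_eq (Y1 := Y1) (Y2 := Y2) (Y3 := Y3) 1 1 1 0 0 (by norm_num) (by norm_num)
  rw [← w2, ← w3, ← w1]
  have eR : Rw v1 v2 v3 = pR v1 v2 v3 + own v1 + own v2 + own v3 := rfl
  obtain ⟨c0, c1, c2, r0, r1, r2, r3⟩ := chain (F0 := rS Y1 Y2 Y3 0 0 0 - Rw v1 v2 v3)
    (F1 := rS Y1 Y2 Y3 0 1 0 - Rw v1 v2 v3) (F2 := rS Y1 Y2 Y3 1 1 0 - Rw v1 v2 v3)
    (F3 := rS Y1 Y2 Y3 1 1 1 - Rw v1 v2 v3) (x := b) (y := a) (z := c)
    (κ := 94) (by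
      rw [e0, e1, e2, e3, eR]
      linarith only [P, q, o1, o2, o3, t1.1, t1.2, t2.1, t2.2, t3.1, t3.2, t4.1, t4.2])
  refine ⟨c1, c0, c2, fun t => ?_⟩
  unfold ind
  by_cases i1 : 1 ≤ c + t
  · rw [if_pos (show 1 ≤ a + t by linarith only [h0, h1, h2, h3, i1]), if_pos (show 1 ≤ b + t by linarith only [h0, h1, h2, h3, i1]),
      if_pos (show 1 ≤ c + t by linarith only [h0, h1, h2, h3, i1])]
    linarith only [r0, r1, r2, r3]
  by_cases i2 : 1 ≤ a + t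
  · rw [if_pos (show 1 ≤ a + t by linarith only [h0, h1, h2, h3, i1, i2]),
      if_pos (show 1 ≤ b + t by linarith only [h0, h1, h2, h3, i1, i2]),
      if_neg (show ¬ 1 ≤ c + t by linarith only [h0, h1, h2, h3, i1, i2])]
    linarith only [r0, r1, r2, r3]
  by_cases i3 : 1 ≤ b + t
  · rw [if_neg (show ¬ 1 ≤ a + t by linarith only [h0, h1, h2, h3, i1, i2, i3]),
      if_pos (show 1 ≤ b + t by linarith only [h0, h1, h2, h3, i1, i2, i3]),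
      if_neg (show ¬ 1 ≤ c + t by linarith only [h0, h1, h2, h3, i1, i2, i3])]
    linarith only [r0, r1, r2, r3]
  · rw [if_neg (show ¬ 1 ≤ a + t by linarith only [h0, h1, h2, h3, i1, i2, i3]),
      if_neg (show ¬ 1 ≤ b + t by linarith only [h0, h1, h2, h3, i1, i2, i3]),
      if_neg (show ¬ 1 ≤ c + t by linarith only [h0, h1, h2, h3, i1, i2, i3])]
    linarith only [r0, r1, r2, r3]

theorem q_row_bca {v1 v2 v3 n1 n2 n3 : ℝ} (g1 : v1 ≤ 20) (g2 : v2 ≤ 20) (g3 : v3 ≤ 20)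
    (ge : v1 + v2 + v3 ≤ 20) (k1 : 0 ≤ n1) (k2 : 0 ≤ n2) (k3 : 0 ≤ n3) (l2 : -v2 ≤ n2)
    (h0 : 0 ≤ a) (h1 : a ≤ c) (h2 : c ≤ b) (h3 : b ≤ 1) :
    (1 - b) * (b - c) * (6 * (40 - (20 - (v1 + v2 + v3)))) + (1 - b) * (c - a) * (6 * v2) + (1 - b) * a * (6 * v1) + (b - c) * (c - a) * (6 * v3) + (b - c) * a * (6 * (40 - (20 - (v1 + v2 + v3))) + 6 * (v1 - v2 + v3)) + (c - a) * a * (6 * (40 - (20 - (v1 + v2 + v3))))
      - 12 * (n1 * (a * (1 - a)) + n2 * ((b - a) * (1 - (b - a))) + n3 * ((b - c) * (1 - (b - c)))) ≤ 90 := by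
  have p0 : 0 ≤ (1 - b) := by linarith
  have p1 : 0 ≤ (b - c) := by linarith
  have p2 : 0 ≤ (c - a) := by linarith
  have p3 : 0 ≤ a := by linarith
  have r01 := mul_nonneg (mul_nonneg p0 p1) (by linarith only [g1, g2, g3, ge, k1, k2, k3, l2] : 0 ≤ 240 - (6 * (40 - (20 - (v1 + v2 + v3))) - 12 * (n2 + n3)))
  have r02 := mul_nonneg (mul_nonneg p0 p2) (by linarith only [g1, g2, g3, ge, k1, k2, k3, l2] : 0 ≤ 120 - (6 * v2 - 12 * n2))
  have r03 := mul_nonneg (mul_nonneg p0 p3) (by linarith only [g1, g2, g3, ge, k1, k2, k3, l2] : 0 ≤ 120 - (6 * v1 - 12 * n1))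
  have r12 := mul_nonneg (mul_nonneg p1 p2) (by linarith only [g1, g2, g3, ge, k1, k2, k3, l2] : 0 ≤ 120 - (6 * v3 - 12 * n3))
  have r13 := mul_nonneg (mul_nonneg p1 p3) (by linarith only [g1, g2, g3, ge, k1, k2, k3, l2] : 0 ≤ 360 - (6 * (40 - (20 - (v1 + v2 + v3))) + 6 * (v1 - v2 + v3) - 12 * (n1 + n2 + n3)))
  have r23 := mul_nonneg (mul_nonneg p2 p3) (by linarith only [g1, g2, g3, ge, k1, k2, k3, l2] : 0 ≤ 240 - (6 * (40 - (20 - (v1 + v2 + v3))) - 12 * (n1 + n2)))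
  have fin : (1 - b) * (b - c) * 240 + (1 - b) * (c - a) * 120 + (1 - b) * a * 120 + (b - c) * (c - a) * 120 + (b - c) * a * 360 + (c - a) * a * 240 ≤ 90 := by
    linarith only [sq_nonneg (((b - c) - a) - (1 - b) + (c - a)), sq_nonneg ((b - c) - a),
      sq_nonneg ((1 - b) + (c - a))]
  linarith

theorem row_bca (g1 : Y1 + a ≤ 20) (g2 : (Y2 - Y1 : ℤ) + (b - a) ≤ 20)
    (g3 : (Y3 - Y2 : ℤ) + (c - b) ≤ 20) (ge : Y3 + c ≤ 20) (h0 : 0 ≤ a) (h1 : a ≤ c) (h2 : c ≤ b) (h3 : b ≤ 1) :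
    ∃ c0 c1 c2 : ℝ, ∀ t : ℝ, 0 ≤ rS Y1 Y2 Y3 (ind a t) (ind b t) (ind c t)
      - Rw (Y1 + a) (Y2 + b - (Y1 + a)) (Y3 + c - (Y2 + b)) + 94 + c0 * (ind a t - a) + c1 * (ind b t - b)
      + c2 * (ind c t - c) := by
  push_cast at g2 g3
  obtain ⟨v1, w1⟩ : ∃ v, v = (Y1 : ℝ) + a := ⟨_, rfl⟩
  obtain ⟨v2, w2⟩ : ∃ v, v = (Y2 : ℝ) + b - (Y1 + a) := ⟨_, rfl⟩
  obtain ⟨v3, w3⟩ : ∃ v, v = (Y3 : ℝ) + c - (Y2 + b) := ⟨_, rfl⟩
  have o1 := own_up (Y1) (x := a) (by linarith only [h0, h1, h2, h3]) (by linarith only [h0, h1, h2, h3])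
  have o2 := own_up (Y2 - Y1) (x := b - a) (by linarith only [h0, h1, h2, h3]) (by linarith only [h0, h1, h2, h3])
  have o3 := own_dn (Y3 - Y2) (x := b - c) (by linarith only [h0, h1, h2, h3]) (by linarith only [h0, h1, h2, h3])
  rw [← w1] at o1
  rw [show ((Y2 - Y1 : ℤ) : ℝ) + (b - a) = v2 by push_cast; linarith only [w1, w2, w3]] at o2
  rw [show ((Y3 - Y2 : ℤ) : ℝ) + -(b - c) = v3 by push_cast; linarith only [w1, w2, w3]] at o3
  have q := q_row_bca (v1 := v1) (v2 := v2) (v3 := v3) (n1 := max (-v1) 0) (n2 := max (-v2) 0)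
    (n3 := max (-v3) 0) (by linarith only [g1, g2, g3, ge, w1, w2, w3]) (by linarith only [g1, g2, g3, ge, w1, w2, w3]) (by linarith only [g1, g2, g3, ge, w1, w2, w3]) (by linarith only [g1, g2, g3, ge, w1, w2, w3]) (le_max_right _ _)
    (le_max_right _ _) (le_max_right _ _) (le_max_left _ _) h0 h1 h2 h3
  have mac := quarter (b := a) (a := c) (by linarith only [h0, h1, h2, h3]) (by linarith only [h0, h1, h2, h3]) (by linarith only [h0, h1, h2, h3])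
  have mbc := quarter (b := c) (a := b) (by linarith only [h0, h1, h2, h3]) (by linarith only [h0, h1, h2, h3]) (by linarith only [h0, h1, h2, h3])
  have mcc := quarter (b := c) (a := c) (by linarith only [h0, h1, h2, h3]) (by linarith only [h0, h1, h2, h3]) (by linarith only [h0, h1, h2, h3])
  have t1 := prodb (u := 1 - 2 * a) (by linarith only [h0, h1, h2, h3]) (by linarith only [h0, h1, h2, h3]) mac.1 mac.2
  have t2 := twoq (u := 1 - 2 * (b - a)) (by linarith only [h0, h1, h2, h3]) (by linarith only [h0, h1, h2, h3]) mbc.1 mbc.2 mac.1 mac.2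
  have t3 := twoq (u := -(1 - 2 * (b - c))) (by linarith only [h0, h1, h2, h3]) (by linarith only [h0, h1, h2, h3]) mcc.1 mcc.2 mbc.1 mbc.2
  have t4 := prodb (u := 1 - 2 * c) (by linarith only [h0, h1, h2, h3]) (by linarith only [h0, h1, h2, h3]) mcc.1 mcc.2
  have P : (1 - b) * pR (Y1 + 0) (Y2 + 0 - (Y1 + 0)) (Y3 + 0 - (Y2 + 0)) + (b - c) * pR (Y1 + 0) (Y2 + 1 - (Y1 + 0)) (Y3 + 0 - (Y2 + 1)) + (c - a) * pR (Y1 + 0) (Y2 + 1 - (Y1 + 0)) (Y3 + 1 - (Y2 + 1)) + a * pR (Y1 + 1) (Y2 + 1 - (Y1 + 1)) (Y3 + 1 - (Y2 + 1))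
    = pR v1 v2 v3 - ((1 - b) * (b - c) * (6 * (40 - (20 - (v1 + v2 + v3)))) + (1 - b) * (c - a) * (6 * v2) + (1 - b) * a * (6 * v1) + (b - c) * (c - a) * (6 * v3) + (b - c) * a * (6 * (40 - (20 - (v1 + v2 + v3))) + 6 * (v1 - v2 + v3)) + (c - a) * a * (6 * (40 - (20 - (v1 + v2 + v3)))))
      + (-3 * ((1 - 2 * a) * (a * (1 - c)) + (1 - 2 * (b - a)) * (c * (1 - b) - a * (1 - c)) + (-(1 - 2 * (b - c))) * (c * (1 - c) - c * (1 - b)))
      + (1 - 2 * c) * (c * (1 - c))) := by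
    subst w1 w2 w3
    unfold pR
    ring
  have e0 := rS_eq (Y1 := Y1) (Y2 := Y2) (Y3 := Y3) 0 0 0 0 0 (by norm_num) (by norm_num)
  have e1 := rS_eq (Y1 := Y1) (Y2 := Y2) (Y3 := Y3) 0 1 0 1 (-1) (by norm_num) (by norm_num)
  have e2 := rS_eq (Y1 := Y1) (Y2 := Y2) (Y3 := Y3) 0 1 1 1 0 (by norm_num) (by norm_num)
  have e3 := rS_eq (Y1 := Y1) (Y2 := Y2) (Y3 := Y3) 1 1 1 0 0 (by norm_num) (by norm_num)
  rw [← w2, ← w3, ← w1]
  have eR : Rw v1 v2 v3 = pR v1 v2 v3 + own v1 + own v2 + own v3 := rfl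
  obtain ⟨c0, c1, c2, r0, r1, r2, r3⟩ := chain (F0 := rS Y1 Y2 Y3 0 0 0 - Rw v1 v2 v3)
    (F1 := rS Y1 Y2 Y3 0 1 0 - Rw v1 v2 v3) (F2 := rS Y1 Y2 Y3 0 1 1 - Rw v1 v2 v3)
    (F3 := rS Y1 Y2 Y3 1 1 1 - Rw v1 v2 v3) (x := b) (y := c) (z := a)
    (κ := 94) (by
      rw [e0, e1, e2, e3, eR]
      linarith only [P, q, o1, o2, o3, t1.1, t1.2, t2.1, t2.2, t3.1, t3.2, t4.1, t4.2])
  refine ⟨c2, c0, c1, fun t => ?_⟩
  unfold ind
  by_cases i1 : 1 ≤ a + t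
  · rw [if_pos (show 1 ≤ a + t by linarith only [h0, h1, h2, h3, i1]), if_pos (show 1 ≤ b + t by linarith only [h0, h1, h2, h3, i1]),
      if_pos (show 1 ≤ c + t by linarith only [h0, h1, h2, h3, i1])]
    linarith only [r0, r1, r2, r3]
  by_cases i2 : 1 ≤ c + t
  · rw [if_neg (show ¬ 1 ≤ a + t by linarith only [h0, h1, h2, h3, i1, i2]),
      if_pos (show 1 ≤ b + t by linarith only [h0, h1, h2, h3, i1, i2]),
      if_pos (show 1 ≤ c + t by linarith only [h0, h1, h2, h3, i1, i2])]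
    linarith only [r0, r1, r2, r3]
  by_cases i3 : 1 ≤ b + t
  · rw [if_neg (show ¬ 1 ≤ a + t by linarith only [h0, h1, h2, h3, i1, i2, i3]),
      if_pos (show 1 ≤ b + t by linarith only [h0, h1, h2, h3, i1, i2, i3]),
      if_neg (show ¬ 1 ≤ c + t by linarith only [h0, h1, h2, h3, i1, i2, i3])]
    linarith only [r0, r1, r2, r3]
  · rw [if_neg (show ¬ 1 ≤ a + t by linarith only [h0, h1, h2, h3, i1, i2, i3]),
      if_neg (show ¬ 1 ≤ b + t by linarith only [h0, h1, h2, h3, i1, i2, i3]),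
      if_neg (show ¬ 1 ≤ c + t by linarith only [h0, h1, h2, h3, i1, i2, i3])]
    linarith only [r0, r1, r2, r3]

theorem q_row_cab {v1 v2 v3 n1 n2 n3 : ℝ} (g1 : v1 ≤ 20) (g2 : v2 ≤ 20) (g3 : v3 ≤ 20)
    (ge : v1 + v2 + v3 ≤ 20) (k1 : 0 ≤ n1) (k2 : 0 ≤ n2) (k3 : 0 ≤ n3) (l2 : -v2 ≤ n2)
    (h0 : 0 ≤ b) (h1 : b ≤ a) (h2 : a ≤ c) (h3 : c ≤ 1) :
    (1 - c) * (c - a) * (6 * v3) + (1 - c) * (a - b) * (6 * (40 - (20 - (v1 + v2 + v3))) + 6 * (v1 - v2 + v3)) + (1 - c) * b * (6 * v1) + (c - a) * (a - b) * (6 * (40 - (20 - (v1 + v2 + v3)))) + (c - a) * b * (6 * (40 - (20 - (v1 + v2 + v3)))) + (a - b) * b * (6 * (40 - (20 - (v1 + v2 + v3))))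
      - 12 * (n1 * (a * (1 - a)) + n2 * ((a - b) * (1 - (a - b))) + n3 * ((c - b) * (1 - (c - b)))) ≤ 90 := by
  have p0 : 0 ≤ (1 - c) := by linarith
  have p1 : 0 ≤ (c - a) := by linarith
  have p2 : 0 ≤ (a - b) := by linarith
  have p3 : 0 ≤ b := by linarith
  have r01 := mul_nonneg (mul_nonneg p0 p1) (by linarith only [g1, g2, g3, ge, k1, k2, k3, l2] : 0 ≤ 120 - (6 * v3 - 12 * n3))
  have r02 := mul_nonneg (mul_nonneg p0 p2) (by linarith only [g1, g2, g3, ge, k1, k2, k3, l2] : 0 ≤ 360 - (6 * (40 - (20 - (v1 + v2 + v3))) + 6 * (v1 - v2 + v3) - 12 * (n1 + n2 + n3)))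
  have r03 := mul_nonneg (mul_nonneg p0 p3) (by linarith only [g1, g2, g3, ge, k1, k2, k3, l2] : 0 ≤ 120 - (6 * v1 - 12 * n1))
  have r12 := mul_nonneg (mul_nonneg p1 p2) (by linarith only [g1, g2, g3, ge, k1, k2, k3, l2] : 0 ≤ 240 - (6 * (40 - (20 - (v1 + v2 + v3))) - 12 * (n1 + n2)))
  have r13 := mul_nonneg (mul_nonneg p1 p3) (by linarith only [g1, g2, g3, ge, k1, k2, k3, l2] : 0 ≤ 240 - (6 * (40 - (20 - (v1 + v2 + v3))) - 12 * (n1 + n3)))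
  have r23 := mul_nonneg (mul_nonneg p2 p3) (by linarith only [g1, g2, g3, ge, k1, k2, k3, l2] : 0 ≤ 240 - (6 * (40 - (20 - (v1 + v2 + v3))) - 12 * (n2 + n3)))
  have fin : (1 - c) * (c - a) * 120 + (1 - c) * (a - b) * 360 + (1 - c) * b * 120 + (c - a) * (a - b) * 240 + (c - a) * b * 240 + (a - b) * b * 240 ≤ 90 := by
    linarith only [sq_nonneg (((1 - c) - (a - b)) + (c - a) + b), sq_nonneg ((1 - c) - (a - b)),
      sq_nonneg ((c - a) - b)]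
  linarith

theorem row_cab (g1 : Y1 + a ≤ 20) (g2 : (Y2 - Y1 : ℤ) + (b - a) ≤ 20)
    (g3 : (Y3 - Y2 : ℤ) + (c - b) ≤ 20) (ge : Y3 + c ≤ 20) (h0 : 0 ≤ b) (h1 : b ≤ a) (h2 : a ≤ c) (h3 : c ≤ 1) :
    ∃ c0 c1 c2 : ℝ, ∀ t : ℝ, 0 ≤ rS Y1 Y2 Y3 (ind a t) (ind b t) (ind c t)
      - Rw (Y1 + a) (Y2 + b - (Y1 + a)) (Y3 + c - (Y2 + b)) + 94 + c0 * (ind a t - a) + c1 * (ind b t - b)
      + c2 * (ind c t - c) := by
  push_cast at g2 g3
  obtain ⟨v1, w1⟩ : ∃ v, v = (Y1 : ℝ) + a := ⟨_, rfl⟩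
  obtain ⟨v2, w2⟩ : ∃ v, v = (Y2 : ℝ) + b - (Y1 + a) := ⟨_, rfl⟩
  obtain ⟨v3, w3⟩ : ∃ v, v = (Y3 : ℝ) + c - (Y2 + b) := ⟨_, rfl⟩
  have o1 := own_up (Y1) (x := a) (by linarith only [h0, h1, h2, h3]) (by linarith only [h0, h1, h2, h3])
  have o2 := own_dn (Y2 - Y1) (x := a - b) (by linarith only [h0, h1, h2, h3]) (by linarith only [h0, h1, h2, h3])
  have o3 := own_up (Y3 - Y2) (x := c - b) (by linarith only [h0, h1, h2, h3]) (by linarith only [h0, h1, h2, h3])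
  rw [← w1] at o1
  rw [show ((Y2 - Y1 : ℤ) : ℝ) + -(a - b) = v2 by push_cast; linarith only [w1, w2, w3]] at o2
  rw [show ((Y3 - Y2 : ℤ) : ℝ) + (c - b) = v3 by push_cast; linarith only [w1, w2, w3]] at o3
  have q := q_row_cab (v1 := v1) (v2 := v2) (v3 := v3) (n1 := max (-v1) 0) (n2 := max (-v2) 0)
    (n3 := max (-v3) 0) (by linarith only [g1, g2, g3, ge, w1, w2, w3]) (by linarith only [g1, g2, g3, ge, w1, w2, w3]) (by linarith only [g1, g2, g3, ge, w1, w2, w3]) (by linarith only [g1, g2, g3, ge, w1, w2, w3]) (le_max_right _ _)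
    (le_max_right _ _) (le_max_right _ _) (le_max_left _ _) h0 h1 h2 h3
  have mac := quarter (b := a) (a := c) (by linarith only [h0, h1, h2, h3]) (by linarith only [h0, h1, h2, h3]) (by linarith only [h0, h1, h2, h3])
  have mbc := quarter (b := b) (a := c) (by linarith only [h0, h1, h2, h3]) (by linarith only [h0, h1, h2, h3]) (by linarith only [h0, h1, h2, h3])
  have mcc := quarter (b := c) (a := c) (by linarith only [h0, h1, h2, h3]) (by linarith only [h0, h1, h2, h3]) (by linarith only [h0, h1, h2, h3])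
  have t1 := prodb (u := 1 - 2 * a) (by linarith only [h0, h1, h2, h3]) (by linarith only [h0, h1, h2, h3]) mac.1 mac.2
  have t2 := twoq (u := -(1 - 2 * (a - b))) (by linarith only [h0, h1, h2, h3]) (by linarith only [h0, h1, h2, h3]) mbc.1 mbc.2 mac.1 mac.2
  have t3 := twoq (u := 1 - 2 * (c - b)) (by linarith only [h0, h1, h2, h3]) (by linarith only [h0, h1, h2, h3]) mcc.1 mcc.2 mbc.1 mbc.2
  have t4 := prodb (u := 1 - 2 * c) (by linarith only [h0, h1, h2, h3]) (by linarith only [h0, h1, h2, h3]) mcc.1 mcc.2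
  have P : (1 - c) * pR (Y1 + 0) (Y2 + 0 - (Y1 + 0)) (Y3 + 0 - (Y2 + 0)) + (c - a) * pR (Y1 + 0) (Y2 + 0 - (Y1 + 0)) (Y3 + 1 - (Y2 + 0)) + (a - b) * pR (Y1 + 1) (Y2 + 0 - (Y1 + 1)) (Y3 + 1 - (Y2 + 0)) + b * pR (Y1 + 1) (Y2 + 1 - (Y1 + 1)) (Y3 + 1 - (Y2 + 1))
    = pR v1 v2 v3 - ((1 - c) * (c - a) * (6 * v3) + (1 - c) * (a - b) * (6 * (40 - (20 - (v1 + v2 + v3))) + 6 * (v1 - v2 + v3)) + (1 - c) * b * (6 * v1) + (c - a) * (a - b) * (6 * (40 - (20 - (v1 + v2 + v3)))) + (c - a) * b * (6 * (40 - (20 - (v1 + v2 + v3)))) + (a - b) * b * (6 * (40 - (20 - (v1 + v2 + v3)))))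
      + (-3 * ((1 - 2 * a) * (a * (1 - c)) + (-(1 - 2 * (a - b))) * (b * (1 - c) - a * (1 - c)) + (1 - 2 * (c - b)) * (c * (1 - c) - b * (1 - c)))
      + (1 - 2 * c) * (c * (1 - c))) := by
    subst w1 w2 w3
    unfold pR
    ring
  have e0 := rS_eq (Y1 := Y1) (Y2 := Y2) (Y3 := Y3) 0 0 0 0 0 (by norm_num) (by norm_num)
  have e1 := rS_eq (Y1 := Y1) (Y2 := Y2) (Y3 := Y3) 0 0 1 0 1 (by norm_num) (by norm_num)
  have e2 := rS_eq (Y1 := Y1) (Y2 := Y2) (Y3 := Y3) 1 0 1 (-1) 1 (by norm_num) (by norm_num)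
  have e3 := rS_eq (Y1 := Y1) (Y2 := Y2) (Y3 := Y3) 1 1 1 0 0 (by norm_num) (by norm_num)
  rw [← w2, ← w3, ← w1]
  have eR : Rw v1 v2 v3 = pR v1 v2 v3 + own v1 + own v2 + own v3 := rfl
  obtain ⟨c0, c1, c2, r0, r1, r2, r3⟩ := chain (F0 := rS Y1 Y2 Y3 0 0 0 - Rw v1 v2 v3)
    (F1 := rS Y1 Y2 Y3 0 0 1 - Rw v1 v2 v3) (F2 := rS Y1 Y2 Y3 1 0 1 - Rw v1 v2 v3)
    (F3 := rS Y1 Y2 Y3 1 1 1 - Rw v1 v2 v3) (x := c) (y := a) (z := b)
    (κ := 94) (by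
      rw [e0, e1, e2, e3, eR]
      linarith only [P, q, o1, o2, o3, t1.1, t1.2, t2.1, t2.2, t3.1, t3.2, t4.1, t4.2])
  refine ⟨c1, c2, c0, fun t => ?_⟩
  unfold ind
  by_cases i1 : 1 ≤ b + t
  · rw [if_pos (show 1 ≤ a + t by linarith only [h0, h1, h2, h3, i1]), if_pos (show 1 ≤ b + t by linarith only [h0, h1, h2, h3, i1]),
      if_pos (show 1 ≤ c + t by linarith only [h0, h1, h2, h3, i1])]
    linarith only [r0, r1, r2, r3]
  by_cases i2 : 1 ≤ a + t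
  · rw [if_pos (show 1 ≤ a + t by linarith only [h0, h1, h2, h3, i1, i2]),
      if_neg (show ¬ 1 ≤ b + t by linarith only [h0, h1, h2, h3, i1, i2]),
      if_pos (show 1 ≤ c + t by linarith only [h0, h1, h2, h3, i1, i2])]
    linarith only [r0, r1, r2, r3]
  by_cases i3 : 1 ≤ c + t
  · rw [if_neg (show ¬ 1 ≤ a + t by linarith only [h0, h1, h2, h3, i1, i2, i3]),
      if_neg (show ¬ 1 ≤ b + t by linarith only [h0, h1, h2, h3, i1, i2, i3]),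
      if_pos (show 1 ≤ c + t by linarith only [h0, h1, h2, h3, i1, i2, i3])]
    linarith only [r0, r1, r2, r3]
  · rw [if_neg (show ¬ 1 ≤ a + t by linarith only [h0, h1, h2, h3, i1, i2, i3]),
      if_neg (show ¬ 1 ≤ b + t by linarith only [h0, h1, h2, h3, i1, i2, i3]),
      if_neg (show ¬ 1 ≤ c + t by linarith only [h0, h1, h2, h3, i1, i2, i3])]
    linarith only [r0, r1, r2, r3]

theorem q_row_cba {v1 v2 v3 n1 n2 n3 : ℝ} (g1 : v1 ≤ 20) (g2 : v2 ≤ 20) (g3 : v3 ≤ 20)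
    (ge : v1 + v2 + v3 ≤ 20) (k1 : 0 ≤ n1) (k2 : 0 ≤ n2) (k3 : 0 ≤ n3) (l2 : -v2 ≤ n2)
    (h0 : 0 ≤ a) (h1 : a ≤ b) (h2 : b ≤ c) (h3 : c ≤ 1) :
    (1 - c) * (c - b) * (6 * v3) + (1 - c) * (b - a) * (6 * v2) + (1 - c) * a * (6 * v1) + (c - b) * (b - a) * (6 * (40 - (20 - (v1 + v2 + v3)))) + (c - b) * a * (6 * (40 - (20 - (v1 + v2 + v3)))) + (b - a) * a * (6 * (40 - (20 - (v1 + v2 + v3))))
      - 12 * (n1 * (a * (1 - a)) + n2 * ((b - a) * (1 - (b - a))) + n3 * ((c - b) * (1 - (c - b)))) ≤ 90 := by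
  have p0 : 0 ≤ (1 - c) := by linarith
  have p1 : 0 ≤ (c - b) := by linarith
  have p2 : 0 ≤ (b - a) := by linarith
  have p3 : 0 ≤ a := by linarith
  have r01 := mul_nonneg (mul_nonneg p0 p1) (by linarith only [g1, g2, g3, ge, k1, k2, k3, l2] : 0 ≤ 120 - (6 * v3 - 12 * n3))
  have r02 := mul_nonneg (mul_nonneg p0 p2) (by linarith only [g1, g2, g3, ge, k1, k2, k3, l2] : 0 ≤ 120 - (6 * v2 - 12 * n2))
  have r03 := mul_nonneg (mul_nonneg p0 p3) (by linarith only [g1, g2, g3, ge, k1, k2, k3, l2] : 0 ≤ 120 - (6 * v1 - 12 * n1))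
  have r12 := mul_nonneg (mul_nonneg p1 p2) (by linarith only [g1, g2, g3, ge, k1, k2, k3, l2] : 0 ≤ 240 - (6 * (40 - (20 - (v1 + v2 + v3))) - 12 * (n2 + n3)))
  have r13 := mul_nonneg (mul_nonneg p1 p3) (by linarith only [g1, g2, g3, ge, k1, k2, k3, l2] : 0 ≤ 240 - (6 * (40 - (20 - (v1 + v2 + v3))) - 12 * (n1 + n3)))
  have r23 := mul_nonneg (mul_nonneg p2 p3) (by linarith only [g1, g2, g3, ge, k1, k2, k3, l2] : 0 ≤ 240 - (6 * (40 - (20 - (v1 + v2 + v3))) - 12 * (n1 + n2)))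
  have fin : (1 - c) * (c - b) * 120 + (1 - c) * (b - a) * 120 + (1 - c) * a * 120 + (c - b) * (b - a) * 240 + (c - b) * a * 240 + (b - a) * a * 240 ≤ 90 := by
    linarith only [mul_nonneg p0 p1, mul_nonneg p0 p2, mul_nonneg p0 p3, mul_nonneg p1 p2, mul_nonneg p1 p3,
      mul_nonneg p2 p3, sq_nonneg ((1 - c) - (c - b)), sq_nonneg ((1 - c) - (b - a)), sq_nonneg ((c - b) - (b - a)), sq_nonneg ((b - a) - a),
      sq_nonneg ((c - b) - a), sq_nonneg ((1 - c) - a)]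
  linarith

theorem row_cba (g1 : Y1 + a ≤ 20) (g2 : (Y2 - Y1 : ℤ) + (b - a) ≤ 20)
    (g3 : (Y3 - Y2 : ℤ) + (c - b) ≤ 20) (ge : Y3 + c ≤ 20) (h0 : 0 ≤ a) (h1 : a ≤ b) (h2 : b ≤ c) (h3 : c ≤ 1) :
    ∃ c0 c1 c2 : ℝ, ∀ t : ℝ, 0 ≤ rS Y1 Y2 Y3 (ind a t) (ind b t) (ind c t)
      - Rw (Y1 + a) (Y2 + b - (Y1 + a)) (Y3 + c - (Y2 + b)) + 94 + c0 * (ind a t - a) + c1 * (ind b t - b)
      + c2 * (ind c t - c) := by
  push_cast at g2 g3
  obtain ⟨v1, w1⟩ : ∃ v, v = (Y1 : ℝ) + a := ⟨_, rfl⟩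
  obtain ⟨v2, w2⟩ : ∃ v, v = (Y2 : ℝ) + b - (Y1 + a) := ⟨_, rfl⟩
  obtain ⟨v3, w3⟩ : ∃ v, v = (Y3 : ℝ) + c - (Y2 + b) := ⟨_, rfl⟩
  have o1 := own_up (Y1) (x := a) (by linarith only [h0, h1, h2, h3]) (by linarith only [h0, h1, h2, h3])
  have o2 := own_up (Y2 - Y1) (x := b - a) (by linarith only [h0, h1, h2, h3]) (by linarith only [h0, h1, h2, h3])
  have o3 := own_up (Y3 - Y2) (x := c - b) (by linarith only [h0, h1, h2, h3]) (by linarith only [h0, h1, h2, h3])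
  rw [← w1] at o1
  rw [show ((Y2 - Y1 : ℤ) : ℝ) + (b - a) = v2 by push_cast; linarith only [w1, w2, w3]] at o2
  rw [show ((Y3 - Y2 : ℤ) : ℝ) + (c - b) = v3 by push_cast; linarith only [w1, w2, w3]] at o3
  have q := q_row_cba (v1 := v1) (v2 := v2) (v3 := v3) (n1 := max (-v1) 0) (n2 := max (-v2) 0)
    (n3 := max (-v3) 0) (by linarith only [g1, g2, g3, ge, w1, w2, w3]) (by linarith only [g1, g2, g3, ge, w1, w2, w3]) (by linarith only [g1, g2, g3, ge, w1, w2, w3]) (by linarith only [g1, g2, g3, ge, w1, w2, w3]) (le_max_right _ _)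
    (le_max_right _ _) (le_max_right _ _) (le_max_left _ _) h0 h1 h2 h3
  have mac := quarter (b := a) (a := c) (by linarith only [h0, h1, h2, h3]) (by linarith only [h0, h1, h2, h3]) (by linarith only [h0, h1, h2, h3])
  have mbc := quarter (b := b) (a := c) (by linarith only [h0, h1, h2, h3]) (by linarith only [h0, h1, h2, h3]) (by linarith only [h0, h1, h2, h3])
  have mcc := quarter (b := c) (a := c) (by linarith only [h0, h1, h2, h3]) (by linarith only [h0, h1, h2, h3]) (by linarith only [h0, h1, h2, h3])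
  have t1 := prodb (u := 1 - 2 * a) (by linarith only [h0, h1, h2, h3]) (by linarith only [h0, h1, h2, h3]) mac.1 mac.2
  have t2 := twoq (u := 1 - 2 * (b - a)) (by linarith only [h0, h1, h2, h3]) (by linarith only [h0, h1, h2, h3]) mbc.1 mbc.2 mac.1 mac.2
  have t3 := twoq (u := 1 - 2 * (c - b)) (by linarith only [h0, h1, h2, h3]) (by linarith only [h0, h1, h2, h3]) mcc.1 mcc.2 mbc.1 mbc.2
  have t4 := prodb (u := 1 - 2 * c) (by linarith only [h0, h1, h2, h3]) (by linarith only [h0, h1, h2, h3]) mcc.1 mcc.2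
  have P : (1 - c) * pR (Y1 + 0) (Y2 + 0 - (Y1 + 0)) (Y3 + 0 - (Y2 + 0)) + (c - b) * pR (Y1 + 0) (Y2 + 0 - (Y1 + 0)) (Y3 + 1 - (Y2 + 0)) + (b - a) * pR (Y1 + 0) (Y2 + 1 - (Y1 + 0)) (Y3 + 1 - (Y2 + 1)) + a * pR (Y1 + 1) (Y2 + 1 - (Y1 + 1)) (Y3 + 1 - (Y2 + 1))
    = pR v1 v2 v3 - ((1 - c) * (c - b) * (6 * v3) + (1 - c) * (b - a) * (6 * v2) + (1 - c) * a * (6 * v1) + (c - b) * (b - a) * (6 * (40 - (20 - (v1 + v2 + v3)))) + (c - b) * a * (6 * (40 - (20 - (v1 + v2 + v3)))) + (b - a) * a * (6 * (40 - (20 - (v1 + v2 + v3)))))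
      + (-3 * ((1 - 2 * a) * (a * (1 - c)) + (1 - 2 * (b - a)) * (b * (1 - c) - a * (1 - c)) + (1 - 2 * (c - b)) * (c * (1 - c) - b * (1 - c)))
      + (1 - 2 * c) * (c * (1 - c))) := by
    subst w1 w2 w3
    unfold pR
    ring
  have e0 := rS_eq (Y1 := Y1) (Y2 := Y2) (Y3 := Y3) 0 0 0 0 0 (by norm_num) (by norm_num)
  have e1 := rS_eq (Y1 := Y1) (Y2 := Y2) (Y3 := Y3) 0 0 1 0 1 (by norm_num) (by norm_num)
  have e2 := rS_eq (Y1 := Y1) (Y2 := Y2) (Y3 := Y3) 0 1 1 1 0 (by norm_num) (by norm_num)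
  have e3 := rS_eq (Y1 := Y1) (Y2 := Y2) (Y3 := Y3) 1 1 1 0 0 (by norm_num) (by norm_num)
  rw [← w2, ← w3, ← w1]
  have eR : Rw v1 v2 v3 = pR v1 v2 v3 + own v1 + own v2 + own v3 := rfl
  obtain ⟨c0, c1, c2, r0, r1, r2, r3⟩ := chain (F0 := rS Y1 Y2 Y3 0 0 0 - Rw v1 v2 v3)
    (F1 := rS Y1 Y2 Y3 0 0 1 - Rw v1 v2 v3) (F2 := rS Y1 Y2 Y3 0 1 1 - Rw v1 v2 v3)
    (F3 := rS Y1 Y2 Y3 1 1 1 - Rw v1 v2 v3) (x := c) (y := b) (z := a)
    (κ := 94) (by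
      rw [e0, e1, e2, e3, eR]
      linarith only [P, q, o1, o2, o3, t1.1, t1.2, t2.1, t2.2, t3.1, t3.2, t4.1, t4.2])
  refine ⟨c2, c1, c0, fun t => ?_⟩
  unfold ind
  by_cases i1 : 1 ≤ a + t
  · rw [if_pos (show 1 ≤ a + t by linarith only [h0, h1, h2, h3, i1]), if_pos (show 1 ≤ b + t by linarith only [h0, h1, h2, h3, i1]),
      if_pos (show 1 ≤ c + t by linarith only [h0, h1, h2, h3, i1])]
    linarith only [r0, r1, r2, r3]
  by_cases i2 : 1 ≤ b + t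
  · rw [if_neg (show ¬ 1 ≤ a + t by linarith only [h0, h1, h2, h3, i1, i2]),
      if_pos (show 1 ≤ b + t by linarith only [h0, h1, h2, h3, i1, i2]),
      if_pos (show 1 ≤ c + t by linarith only [h0, h1, h2, h3, i1, i2])]
    linarith only [r0, r1, r2, r3]
  by_cases i3 : 1 ≤ c + t
  · rw [if_neg (show ¬ 1 ≤ a + t by linarith only [h0, h1, h2, h3, i1, i2, i3]),
      if_neg (show ¬ 1 ≤ b + t by linarith only [h0, h1, h2, h3, i1, i2, i3]),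
      if_pos (show 1 ≤ c + t by linarith only [h0, h1, h2, h3, i1, i2, i3])]
    linarith only [r0, r1, r2, r3]
  · rw [if_neg (show ¬ 1 ≤ a + t by linarith only [h0, h1, h2, h3, i1, i2, i3]),
      if_neg (show ¬ 1 ≤ b + t by linarith only [h0, h1, h2, h3, i1, i2, i3]),
      if_neg (show ¬ 1 ≤ c + t by linarith only [h0, h1, h2, h3, i1, i2, i3])]
    linarith only [r0, r1, r2, r3]

theorem row_states (g1 : Y1 + a ≤ 20) (g2 : (Y2 - Y1 : ℤ) + (b - a) ≤ 20)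
    (g3 : (Y3 - Y2 : ℤ) + (c - b) ≤ 20) (ge : Y3 + c ≤ 20) (a0 : 0 ≤ a) (a1 : a ≤ 1) (b0 : 0 ≤ b)
    (b1 : b ≤ 1) (c0 : 0 ≤ c) (c1 : c ≤ 1) :
    ∃ c0 c1 c2 : ℝ, ∀ t : ℝ, 0 ≤ rS Y1 Y2 Y3 (ind a t) (ind b t) (ind c t)
      - Rw (Y1 + a) (Y2 + b - (Y1 + a)) (Y3 + c - (Y2 + b)) + 94 + c0 * (ind a t - a) + c1 * (ind b t - b)
      + c2 * (ind c t - c) := by
  rcases le_total a b with h1 | h1 <;> rcases le_total a c with h2 | h2 <;>
    rcases le_total b c with h3 | h3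
  · exact row_cba g1 g2 g3 ge a0 h1 h3 c1
  · exact row_bca g1 g2 g3 ge a0 h2 h3 b1
  · exact row_cba g1 g2 g3 ge a0 h1 h3 c1
  · exact row_bac g1 g2 g3 ge c0 h2 h1 b1
  · exact row_cab g1 g2 g3 ge b0 h1 h2 c1
  · exact row_cab g1 g2 g3 ge b0 h1 h2 c1
  · exact row_acb g1 g2 g3 ge b0 h3 h2 a1
  · exact row_abc g1 g2 g3 ge c0 h3 h1 a1

end

/-- **The row lemma**: the partial sums are rounded down with a common threshold. -/
theorem row_round {v1 v2 v3 : ℝ} (h1 : v1 ≤ 20) (h2 : v2 ≤ 20) (h3 : v3 ≤ 20)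
    (hs : v1 + v2 + v3 ≤ 20) : ∃ c : Fin 3 → ℝ, ∀ t : ℝ, 0 ≤ t → t < 1 →
      Rw v1 v2 v3 ≤ Rw ⌊v1 + t⌋ (⌊v1 + v2 + t⌋ - ⌊v1 + t⌋)
        (⌊v1 + v2 + v3 + t⌋ - ⌊v1 + v2 + t⌋) + 94 + c 0 * (⌊v1 + t⌋ - v1)
        + c 1 * (⌊v1 + v2 + t⌋ - (v1 + v2)) + c 2 * (⌊v1 + v2 + v3 + t⌋ - (v1 + v2 + v3)) := by
  have f1 := Int.floor_add_fract v1
  have f2 := Int.floor_add_fract (v1 + v2)
  have f3 := Int.floor_add_fract (v1 + v2 + v3)
  obtain ⟨c0, c1, c2, h⟩ := row_states (Y1 := ⌊v1⌋) (Y2 := ⌊v1 + v2⌋) (Y3 := ⌊v1 + v2 + v3⌋)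
    (a := Int.fract v1) (b := Int.fract (v1 + v2)) (c := Int.fract (v1 + v2 + v3)) (by linarith)
    (by push_cast; linarith) (by push_cast; linarith) (by linarith) (Int.fract_nonneg _)
    (Int.fract_lt_one _).le (Int.fract_nonneg _) (Int.fract_lt_one _).le (Int.fract_nonneg _)
    (Int.fract_lt_one _).le
  refine ⟨![c0, c1, c2], fun t t0 t1 => ?_⟩
  have e : ∀ z : ℝ, (⌊z + t⌋ : ℝ) = ⌊z⌋ + ind (Int.fract z) t := fun z => by
    have := rnd_eq (ε := 1) (t := t) (z := z) (Or.inl rfl) t0 t1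
    rw [rnd_one, one_mul, one_mul] at this
    rw [this]
    linarith [Int.floor_add_fract z]
  have hh := h t
  unfold rS at hh
  rw [← e, ← e, ← e, f1, f2, f3, show v1 + v2 - v1 = v2 by ring,
    show v1 + v2 + v3 - (v1 + v2) = v3 by ring] at hh
  have g : ∀ z : ℝ, ind (Int.fract z) t - Int.fract z = ⌊z + t⌋ - z := fun z => by
    rw [e z]
    linarith [Int.floor_add_fract z]
  rw [g, g, g] at hh
  simp only [Matrix.cons_val_zero, Matrix.cons_val_one, Matrix.cons_val]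
  linarith

/-- the form with the height `e = 40 d` -/
theorem Rw_eq (v1 v2 v3 e : ℝ) (he : e = 20 - (v1 + v2 + v3)) : Rw v1 v2 v3 =
    112000 - 6000 * e + 120 * e ^ 2 - e ^ 3 - 3 * (40 - e) * (v1 ^ 2 + v2 ^ 2 + v3 ^ 2)
      + own v1 + own v2 + own v3 := by
  subst he
  rfl

end Pool.Agent.Helper62.NE
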