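import Mathlib

/-!
# Rounding with a common threshold
-/

set_option autoImplicit false

namespace Pool.Agent.Helper62.NE

open MeasureTheory intervalIntegral

theorem floor_intervalIntegrable (z : ℝ) :
    IntervalIntegrable (fun t : ℝ => (⌊z + t⌋ : ℝ)) volume 0 1 := by
  have hm : Monotone (fun t : ℝ => (⌊z + t⌋ : ℝ)) := fun a b hab => by
    have : ⌊z + a⌋ ≤ ⌊z + b⌋ := Int.floor_le_floor (by linarith)
    show (⌊z + a⌋ : ℝ) ≤ (⌊z + b⌋ : ℝ)
    exact_mod_cast this
  exact hm.intervalIntegrable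

theorem integral_fract : ∫ x in (0 : ℝ)..1, Int.fract x = 1 / 2 := by
  have h : ∫ x in (0 : ℝ)..1, Int.fract x = ∫ x in (0 : ℝ)..1, x := by
    refine intervalIntegral.integral_congr_ae ?_
    have : ∀ᵐ x : ℝ ∂volume, x ≠ 1 := by
      rw [ae_iff]
      simp
    filter_upwards [this] with x hx hx2
    rw [Set.uIoc_of_le zero_le_one] at hx2
    exact Int.fract_eq_self.2 ⟨hx2.1.le, lt_of_le_of_ne hx2.2 hx⟩
  rw [h, integral_id]
  norm_num

theorem integral_floor (z : ℝ) : ∫ t in (0 : ℝ)..1, (⌊z + t⌋ : ℝ) = z := by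
  have h1 : ∫ t in (0 : ℝ)..1, Int.fract (z + t) = 1 / 2 := by
    rw [intervalIntegral.integral_comp_add_left (fun x => Int.fract x) z, add_zero,
      (Int.fract_periodic ℝ).intervalIntegral_add_eq z 0, zero_add, integral_fract]
  have h2 : IntervalIntegrable (fun t : ℝ => z + t) volume 0 1 :=
    (continuous_const.add continuous_id).intervalIntegrable _ _
  have h3 : ∫ t in (0 : ℝ)..1, (z + t) = z + 1 / 2 := by
    rw [intervalIntegral.integral_add (by simp) (by simp), integral_id]
    norm_num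
  have h4 : ∫ t in (0 : ℝ)..1, Int.fract (z + t) =
      (∫ t in (0 : ℝ)..1, (z + t)) - ∫ t in (0 : ℝ)..1, (⌊z + t⌋ : ℝ) := by
    rw [← intervalIntegral.integral_sub h2 (floor_intervalIntegrable z)]
    rfl
  rw [h1, h3] at h4
  linarith

/-- **Rounding with a common threshold**: the mean of `⌊z + t⌋` over `t` is `z`. -/
theorem exists_theta {ι : Type*} (s : Finset ι) (c z : ι → ℝ) :
    ∃ t : ℝ, 0 ≤ t ∧ t < 1 ∧ 0 ≤ ∑ k ∈ s, c k * ((⌊z k + t⌋ : ℝ) - z k) := by
  by_contra h
  push Not at h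
  have hi : ∀ k ∈ s, IntervalIntegrable (fun t : ℝ => c k * ((⌊z k + t⌋ : ℝ) - z k)) volume 0 1 :=
    fun k _ => ((floor_intervalIntegrable (z k)).sub (by simp)).const_mul (c k)
  have h0 : ∫ t in (0 : ℝ)..1, ∑ k ∈ s, c k * ((⌊z k + t⌋ : ℝ) - z k) = 0 := by
    rw [intervalIntegral.integral_finsetSum hi]
    refine Finset.sum_eq_zero fun k _ => ?_
    rw [intervalIntegral.integral_const_mul, intervalIntegral.integral_sub
      (floor_intervalIntegrable (z k)) (by simp), integral_floor]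
    simp
  have hs : IntervalIntegrable (fun t : ℝ => -∑ k ∈ s, c k * ((⌊z k + t⌋ : ℝ) - z k))
      volume 0 1 := (IntervalIntegrable.sum s hi).neg.congr fun x _ => by simp
  have := intervalIntegral.intervalIntegral_pos_of_pos_on hs
    (fun x hx => by linarith [h x hx.1.le hx.2]) zero_lt_one
  rw [intervalIntegral.integral_neg, h0] at this
  linarith

end Pool.Agent.Helper62.NE
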